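import Mathlib

/-!
# Boolean valued names

Names with values in a complete Boolean algebra, Boolean valued equality and membership.
-/

set_option autoImplicit false

namespace Pool.Agent.SymZF

/-- `B`-valued names: a small family of names together with `B`-values. -/
inductive Nm (B : Type) : Type 1
  | mk (ι : Type) (A : ι → Nm B) (b : ι → B) : Nm B

section Lattice
variable {B : Type} [CompleteBooleanAlgebra B]

theorem le_of_le_iSup {ι : Sort*} {a c : B} {f : ι → B} (h : a ≤ ⨆ i, f i)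
    (h' : ∀ i, a ⊓ f i ≤ c) : a ≤ c := by
  calc a = a ⊓ ⨆ i, f i := (inf_eq_left.2 h).symm
    _ = ⨆ i, a ⊓ f i := inf_iSup_eq a f
    _ ≤ c := iSup_le h'

theorem le_of_le_sup {a b c d : B} (h : a ≤ b ⊔ c) (hb : a ⊓ b ≤ d) (hc : a ⊓ c ≤ d) : a ≤ d := by
  calc a = a ⊓ (b ⊔ c) := (inf_eq_left.2 h).symm
    _ = (a ⊓ b) ⊔ (a ⊓ c) := inf_sup_left a b c
    _ ≤ d := sup_le hb hc

/-- density principle -/
theorem le_of_dense {a b : B} (h : ∀ p, p ≠ ⊥ → p ≤ a → ∃ q, q ≠ ⊥ ∧ q ≤ p ∧ q ≤ b) : a ≤ b := by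
  by_contra hab
  have hne : a ⊓ bᶜ ≠ ⊥ := by
    intro h0
    exact hab (by rwa [← disjoint_iff, disjoint_compl_right_iff] at h0)
  obtain ⟨q, hq, hqp, hqb⟩ := h _ hne inf_le_left
  apply hq
  have : q ≤ b ⊓ bᶜ := le_inf hqb (hqp.trans inf_le_right)
  simpa using this

theorem exists_of_le_iSup {ι : Sort*} {a : B} {f : ι → B} (ha : a ≠ ⊥) (h : a ≤ ⨆ i, f i) :
    ∃ i, a ⊓ f i ≠ ⊥ := by
  by_contra hcon
  push Not at hcon
  exact ha (le_bot_iff.1 (le_of_le_iSup h fun i => (hcon i).le))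

end Lattice

namespace Nm
variable {B : Type}

/-- index type of a name -/
def idx : Nm B → Type
  | mk ι _ _ => ι

/-- elements of a name -/
def el : (x : Nm B) → x.idx → Nm B
  | mk _ A _ => A

/-- values of a name -/
def vl : (x : Nm B) → x.idx → B
  | mk _ _ b => b

@[simp] theorem idx_mk (ι : Type) (A : ι → Nm B) (b : ι → B) : (mk ι A b).idx = ι := rfl
@[simp] theorem el_mk (ι : Type) (A : ι → Nm B) (b : ι → B) : (mk ι A b).el = A := rfl
@[simp] theorem vl_mk (ι : Type) (A : ι → Nm B) (b : ι → B) : (mk ι A b).vl = b := rfl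

theorem eta (x : Nm B) : mk x.idx x.el x.vl = x := by cases x; rfl

variable [CompleteBooleanAlgebra B]

/-- Boolean valued equality -/
noncomputable def beq : Nm B → Nm B → B
  | mk _ A b, mk _ C c =>
    (⨅ i, b i ⇨ ⨆ j, c j ⊓ beq (A i) (C j)) ⊓ (⨅ j, c j ⇨ ⨆ i, b i ⊓ beq (A i) (C j))

/-- Boolean valued membership -/
noncomputable def mem (x y : Nm B) : B := ⨆ j, y.vl j ⊓ beq x (y.el j)

theorem mem_mk (x : Nm B) (ι : Type) (A : ι → Nm B) (b : ι → B) :
    mem x (mk ι A b) = ⨆ j, b j ⊓ beq x (A j) := rfl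

theorem beq_refl (x : Nm B) : beq x x = ⊤ := by
  induction x with
  | mk ι A b ih =>
    rw [eq_top_iff, beq]
    refine le_inf (le_iInf fun i => ?_) (le_iInf fun i => ?_) <;>
    · rw [le_himp_iff, top_inf_eq]
      exact le_iSup_of_le i (by rw [ih i, inf_top_eq])

theorem beq_comm (x y : Nm B) : beq x y = beq y x := by
  induction x generalizing y with
  | mk ι A b ih =>
    cases y with
    | mk κ C c =>
      rw [beq, beq, inf_comm]
      simp only [ih]

theorem beq_eq (x y : Nm B) :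
    beq x y = (⨅ i, x.vl i ⇨ mem (x.el i) y) ⊓ (⨅ j, y.vl j ⇨ mem (y.el j) x) := by
  cases x with
  | mk ι A b =>
    cases y with
    | mk κ C c =>
      rw [beq]
      simp only [mem, vl_mk, el_mk, idx_mk]
      congr 1
      refine iInf_congr fun j => ?_
      congr 1
      exact iSup_congr fun i => by rw [beq_comm]

theorem le_beq {p : B} {x y : Nm B} (h1 : ∀ i, p ⊓ x.vl i ≤ mem (x.el i) y)
    (h2 : ∀ j, p ⊓ y.vl j ≤ mem (y.el j) x) : p ≤ beq x y := by
  rw [beq_eq]
  exact le_inf (le_iInf fun i => le_himp_iff.2 (h1 i)) (le_iInf fun j => le_himp_iff.2 (h2 j))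

theorem beq_inf_vl_le (x y : Nm B) (i : x.idx) : beq x y ⊓ x.vl i ≤ mem (x.el i) y := by
  rw [beq_eq, ← le_himp_iff]
  exact inf_le_left.trans (iInf_le _ i)

theorem beq_inf_vl_le' (x y : Nm B) (j : y.idx) : beq x y ⊓ y.vl j ≤ mem (y.el j) x := by
  rw [beq_comm]; exact beq_inf_vl_le y x j

theorem beq_trans (x y z : Nm B) : beq x y ⊓ beq y z ≤ beq x z := by
  induction x generalizing y z with
  | mk ι A b ih =>
    refine le_beq (fun i => ?_) (fun k => ?_)
    · have h1 : beq (mk ι A b) y ⊓ beq y z ⊓ (mk ι A b).vl i ≤ mem ((mk ι A b).el i) y :=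
        le_trans (le_inf (inf_le_left.trans inf_le_left) inf_le_right) (beq_inf_vl_le _ _ i)
      refine le_of_le_iSup h1 fun j => ?_
      have h2 : beq (mk ι A b) y ⊓ beq y z ⊓ (mk ι A b).vl i ⊓ (y.vl j ⊓ beq ((mk ι A b).el i) (y.el j))
          ≤ mem (y.el j) z :=
        le_trans (le_inf (inf_le_left.trans (inf_le_left.trans inf_le_right))
          (inf_le_right.trans inf_le_left)) (beq_inf_vl_le y z j)
      refine le_of_le_iSup h2 fun k => ?_
      refine le_iSup_of_le k (le_inf (inf_le_right.trans inf_le_left) ?_)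
      exact le_trans (le_inf (inf_le_left.trans (inf_le_right.trans inf_le_right))
        (inf_le_right.trans inf_le_right)) (ih i (y.el j) (z.el k))
    · have h1 : beq (mk ι A b) y ⊓ beq y z ⊓ z.vl k ≤ mem (z.el k) y :=
        le_trans (le_inf (inf_le_left.trans inf_le_right) inf_le_right) (beq_inf_vl_le' _ _ k)
      refine le_of_le_iSup h1 fun j => ?_
      have h2 : beq (mk ι A b) y ⊓ beq y z ⊓ z.vl k ⊓ (y.vl j ⊓ beq (z.el k) (y.el j))
          ≤ mem (y.el j) (mk ι A b) :=
        le_trans (le_inf (inf_le_left.trans (inf_le_left.trans inf_le_left))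
          (inf_le_right.trans inf_le_left)) (beq_inf_vl_le' _ y j)
      refine le_of_le_iSup h2 fun i => ?_
      refine le_iSup_of_le i (le_inf (inf_le_right.trans inf_le_left) ?_)
      rw [beq_comm (z.el k) ((mk ι A b).el i)]
      refine le_trans ?_ (ih i (y.el j) (z.el k))
      refine le_inf ?_ ?_
      · exact (inf_le_right.trans inf_le_right).trans_eq (beq_comm _ _)
      · exact (inf_le_left.trans (inf_le_right.trans inf_le_right)).trans_eq (beq_comm _ _)

theorem beq_trans' {p : B} {x y z : Nm B} (h1 : p ≤ beq x y) (h2 : p ≤ beq y z) : p ≤ beq x z :=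
  (le_inf h1 h2).trans (beq_trans x y z)

theorem mem_congr_left (x x' y : Nm B) : beq x x' ⊓ mem x y ≤ mem x' y := by
  unfold mem
  rw [inf_iSup_eq]
  refine iSup_mono fun j => le_inf (inf_le_right.trans inf_le_left) ?_
  exact beq_trans' (y := x) (by rw [beq_comm]; exact inf_le_left) (inf_le_right.trans inf_le_right)

theorem mem_congr_right (x y y' : Nm B) : beq y y' ⊓ mem x y ≤ mem x y' := by
  have h : beq y y' ⊓ mem x y ≤ ⨆ j, y.vl j ⊓ beq x (y.el j) := inf_le_right
  refine le_of_le_iSup h fun j => ?_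
  have h2 : beq y y' ⊓ mem x y ⊓ (y.vl j ⊓ beq x (y.el j)) ≤ mem (y.el j) y' :=
    le_trans (le_inf (inf_le_left.trans inf_le_left) (inf_le_right.trans inf_le_left))
      (beq_inf_vl_le y y' j)
  refine le_of_le_iSup h2 fun k => ?_
  refine le_iSup_of_le k (le_inf (inf_le_right.trans inf_le_left) ?_)
  exact beq_trans' (inf_le_left.trans (inf_le_right.trans inf_le_right))
    (inf_le_right.trans inf_le_right)

theorem mem_congr_left' {p : B} {x x' y : Nm B} (h : p ≤ beq x x') (h2 : p ≤ mem x y) :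
    p ≤ mem x' y := (le_inf h h2).trans (mem_congr_left x x' y)

theorem mem_congr_right' {p : B} {x y y' : Nm B} (h : p ≤ beq y y') (h2 : p ≤ mem x y) :
    p ≤ mem x y' := (le_inf h h2).trans (mem_congr_right x y y')

theorem vl_le_mem (y : Nm B) (j : y.idx) : y.vl j ≤ mem (y.el j) y :=
  le_iSup_of_le j (by rw [beq_refl, inf_top_eq])

theorem mem_eq_of_beq_top_left {x x' : Nm B} (h : beq x x' = ⊤) (y : Nm B) :
    mem x y = mem x' y :=
  le_antisymm (mem_congr_left' (by rw [h]; exact le_top) le_rfl)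
    (mem_congr_left' (by rw [beq_comm, h]; exact le_top) le_rfl)

theorem mem_eq_of_beq_top_right {y y' : Nm B} (h : beq y y' = ⊤) (x : Nm B) :
    mem x y = mem x y' :=
  le_antisymm (mem_congr_right' (by rw [h]; exact le_top) le_rfl)
    (mem_congr_right' (by rw [beq_comm, h]; exact le_top) le_rfl)

theorem beq_eq_of_beq_top_left {x x' : Nm B} (h : beq x x' = ⊤) (y : Nm B) :
    beq x y = beq x' y :=
  le_antisymm (beq_trans' (y := x) ((le_top.trans_eq h.symm).trans_eq (beq_comm _ _)) le_rfl)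
    (beq_trans' (y := x') (le_top.trans_eq h.symm) le_rfl)

theorem beq_eq_of_beq_top_right {y y' : Nm B} (h : beq y y' = ⊤) (x : Nm B) :
    beq x y = beq x y' := by
  rw [beq_comm x y, beq_comm x y', beq_eq_of_beq_top_left h]

/-- extensionality, checked on elements -/
theorem beq_eq_top_of_mem_eq {x y : Nm B} (h1 : ∀ i, mem (x.el i) x = mem (x.el i) y)
    (h2 : ∀ j, mem (y.el j) x = mem (y.el j) y) : beq x y = ⊤ := by
  rw [eq_top_iff]
  refine le_beq (fun i => ?_) (fun j => ?_)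
  · rw [← h1]; exact inf_le_right.trans (vl_le_mem x i)
  · rw [h2]; exact inf_le_right.trans (vl_le_mem y j)

theorem beq_eq_top_of_forall_mem_eq {x y : Nm B} (h : ∀ z, mem z x = mem z y) : beq x y = ⊤ :=
  beq_eq_top_of_mem_eq (fun _ => h _) (fun _ => h _)

/-- A `B`-valued predicate which respects Boolean valued equality. -/
def Cong (Φ : Nm B → B) : Prop := ∀ x y, beq x y ⊓ Φ x ≤ Φ y

theorem Cong.le {Φ : Nm B → B} (h : Cong Φ) {p : B} {x y : Nm B} (h1 : p ≤ beq x y)
    (h2 : p ≤ Φ x) : p ≤ Φ y := (le_inf h1 h2).trans (h x y)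

theorem Cong.eq_of_top {Φ : Nm B → B} (h : Cong Φ) {x y : Nm B} (h1 : beq x y = ⊤) :
    Φ x = Φ y :=
  le_antisymm (h.le (by rw [h1]; exact le_top) le_rfl)
    (h.le (by rw [beq_comm, h1]; exact le_top) le_rfl)

/-- Separation: the name `{z ∈ x | Φ z}`. -/
def sep (x : Nm B) (Φ : Nm B → B) : Nm B := mk x.idx x.el (fun i => x.vl i ⊓ Φ (x.el i))

theorem mem_sep {Φ : Nm B → B} (hΦ : Cong Φ) (x z : Nm B) :
    mem z (sep x Φ) = mem z x ⊓ Φ z := by
  apply le_antisymm
  · rw [sep, mem_mk]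
    refine iSup_le fun i => le_inf ?_ ?_
    · exact le_iSup_of_le i (le_inf (inf_le_left.trans inf_le_left) inf_le_right)
    · exact hΦ.le (x := x.el i) (by rw [beq_comm]; exact inf_le_right)
        (inf_le_left.trans inf_le_right)
  · have h : mem z x ⊓ Φ z ≤ ⨆ i, x.vl i ⊓ beq z (x.el i) := inf_le_left
    refine le_of_le_iSup h fun i => ?_
    rw [sep, mem_mk]
    refine le_iSup_of_le i (le_inf (le_inf (inf_le_right.trans inf_le_left) ?_)
      (inf_le_right.trans inf_le_right))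
    exact hΦ.le (x := z) (inf_le_right.trans inf_le_right) (inf_le_left.trans inf_le_right)

/-- Bounded quantification reduces to the indices (universal). -/
theorem iInf_mem_himp {Φ : Nm B → B} (hΦ : Cong Φ) (x : Nm B) (P : Nm B → Prop)
    (hP : ∀ i, P (x.el i)) :
    (⨅ z : {z : Nm B // P z}, mem z.1 x ⇨ Φ z.1) = ⨅ i, x.vl i ⇨ Φ (x.el i) := by
  apply le_antisymm
  · refine le_iInf fun i => ?_
    refine (iInf_le _ ⟨x.el i, hP i⟩).trans ?_
    exact himp_le_himp_right (vl_le_mem x i)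
  · refine le_iInf fun z => ?_
    rw [le_himp_iff]
    have h : (⨅ i, x.vl i ⇨ Φ (x.el i)) ⊓ mem z.1 x ≤ ⨆ i, x.vl i ⊓ beq z.1 (x.el i) :=
      inf_le_right
    refine le_of_le_iSup h fun i => ?_
    refine hΦ.le (x := x.el i) (by rw [beq_comm]; exact inf_le_right.trans inf_le_right) ?_
    have : (⨅ i, x.vl i ⇨ Φ (x.el i)) ≤ x.vl i ⇨ Φ (x.el i) := iInf_le _ i
    exact (le_inf (inf_le_left.trans (inf_le_left.trans this))
      (inf_le_right.trans inf_le_left)).trans himp_inf_le

end Nm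

end Pool.Agent.SymZF
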