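import Pool.Agent.SymZF.Cohen

/-!
# Names of reals, pairs, points and basic open sets
-/

set_option autoImplicit false

namespace Pool.Agent.SymZF

open Nm Fm SymSys

section gen
variable {B : Type} [CompleteBooleanAlgebra B]

theorem mem_self (x : Nm B) : Nm.mem x x = ⊥ := by
  induction x with
  | mk ι A b ih =>
    rw [eq_bot_iff, mem_mk]
    refine iSup_le fun i => ?_
    rw [← ih i]
    refine mem_congr_right' (y := mk ι A b) (inf_le_right) ?_
    exact inf_le_left.trans (vl_le_mem (mk ι A b) i)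

theorem mem_nNat_of_lt {a b : ℕ} (h : a < b) : Nm.mem (nNat a : Nm B) (nNat b) = ⊤ := by
  induction b with
  | zero => exact absurd h (Nat.not_lt_zero a)
  | succ b ih =>
    rw [mem_nNat_succ]
    rcases Nat.lt_succ_iff_lt_or_eq.1 h with h | h
    · rw [ih h, top_sup_eq]
    · rw [h, beq_refl, sup_top_eq]

theorem beq_nNat_of_lt {a b : ℕ} (h : a < b) : beq (nNat a : Nm B) (nNat b) = ⊥ := by
  rw [eq_bot_iff, ← mem_self (nNat a : Nm B)]
  refine mem_congr_right' (y := nNat b) (by rw [beq_comm]) ?_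
  rw [mem_nNat_of_lt h]; exact le_top

theorem beq_nNat_ne {a b : ℕ} (h : a ≠ b) : beq (nNat a : Nm B) (nNat b) = ⊥ := by
  rcases Nat.lt_or_gt_of_ne h with h | h
  · exact beq_nNat_of_lt h
  · rw [beq_comm]; exact beq_nNat_of_lt h

theorem inf_le_bot_of_le_compl {a b : B} (h : a ≤ bᶜ) : a ⊓ b ≤ ⊥ :=
  (le_compl_iff_disjoint_right.1 h).le_bot

end gen

theorem zmod_cases (i : ZMod 2) : i = 0 ∨ i = 1 := by revert i; decide
theorem zmod_ne {i j : ZMod 2} (h : i ≠ j) : j = i + 1 := by revert i j; decide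
theorem zmod_add_self (i : ZMod 2) : i + i = 0 := by revert i; decide
theorem zmod_add_cancel (i j : ZMod 2) : i + j + j = i := by revert i j; decide

theorem bit_inf {t : Co} {i j : ZMod 2} (h : i ≠ j) : bit t i ⊓ bit t j = ⊥ := by
  rw [zmod_ne h, ← bit_compl, inf_compl_eq_bot]

theorem bit_sup (t : Co) (i : ZMod 2) : bit t i ⊔ bit t (i + 1) = ⊤ := by
  rw [← bit_compl, sup_compl_eq_top]

/-- injective coding -/
def code (n m k : ℕ) (i : ZMod 2) : ℕ := Nat.pair n (Nat.pair m (Nat.pair k i.val))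

theorem code_inj {n m k n' m' k' : ℕ} {i i' : ZMod 2} (h : code n m k i = code n' m' k' i') :
    n = n' ∧ m = m' ∧ k = k' ∧ i = i' := by
  simp only [code, Nat.pair_eq_pair] at h
  exact ⟨h.1, h.2.1, h.2.2.1, ZMod.val_injective 2 h.2.2.2⟩

/-- name of a generic real, modified by `d` -/
noncomputable def yy (n m : ℕ) (d : ℕ → ZMod 2) : Nm CB :=
  mk (ℕ × ZMod 2) (fun p => nNat (code n m p.1 p.2)) (fun p => bit (n, m, p.1) (p.2 + d p.1))

theorem mem_code_yy (n m k : ℕ) (i : ZMod 2) (d : ℕ → ZMod 2) :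
    Nm.mem (nNat (code n m k i)) (yy n m d) = bit (n, m, k) (i + d k) := by
  rw [yy, mem_mk]
  apply le_antisymm
  · refine iSup_le fun p => ?_
    by_cases h : code n m k i = code n m p.1 p.2
    · obtain ⟨-, -, rfl, rfl⟩ := code_inj h
      exact inf_le_left
    · rw [beq_nNat_ne h, inf_bot_eq]; exact bot_le
  · exact le_iSup_of_le (k, i) (by rw [beq_refl, inf_top_eq])

theorem mem_code_yy_ne {n m n' m' : ℕ} (h : (n, m) ≠ (n', m')) (k : ℕ) (i : ZMod 2)
    (d : ℕ → ZMod 2) : Nm.mem (nNat (code n m k i)) (yy n' m' d) = ⊥ := by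
  rw [yy, mem_mk, eq_bot_iff]
  refine iSup_le fun p => ?_
  by_cases h' : code n m k i = code n' m' p.1 p.2
  · obtain ⟨h1, h2, -, -⟩ := code_inj h'
    exact absurd (by rw [h1, h2]) h
  · rw [beq_nNat_ne h', inf_bot_eq]

theorem le_bot_of_bits {t : Co} {i : ZMod 2} {a : CB} (h0 : a ⊓ bit t i ≤ ⊥)
    (h1 : a ⊓ bit t (i + 1) ≤ ⊥) : a ≤ ⊥ :=
  le_of_le_sup (by rw [bit_sup]; exact le_top) h0 h1

theorem beq_yy_ne {n m n' m' : ℕ} (h : (n, m) ≠ (n', m')) (d d' : ℕ → ZMod 2) :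
    beq (yy n m d) (yy n' m' d') = ⊥ := by
  rw [eq_bot_iff]
  have key : ∀ i, beq (yy n m d) (yy n' m' d') ⊓ bit (n, m, 0) (i + d 0) ≤ ⊥ := by
    intro i
    rw [← mem_code_yy_ne h 0 i d', ← mem_code_yy]
    exact mem_congr_right _ _ _
  refine le_bot_of_bits (t := (n, m, 0)) (i := 0 + d 0) (key 0) ?_
  have := key 1
  rwa [add_comm (1 : ZMod 2), ← zero_add (d 0)] at this

theorem beq_yy_same {n m : ℕ} {d d' : ℕ → ZMod 2} {k : ℕ} (h : d k ≠ d' k) :
    beq (yy n m d) (yy n m d') = ⊥ := by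
  rw [eq_bot_iff]
  have key : ∀ i, beq (yy n m d) (yy n m d') ⊓ bit (n, m, k) (i + d k) ≤ ⊥ := by
    intro i
    have h1 : beq (yy n m d) (yy n m d') ⊓ bit (n, m, k) (i + d k) ≤ bit (n, m, k) (i + d' k) := by
      rw [← mem_code_yy, ← mem_code_yy]
      exact mem_congr_right _ _ _
    have h2 : bit (n, m, k) (i + d k) ⊓ bit (n, m, k) (i + d' k) = ⊥ :=
      bit_inf fun h' => h (add_left_cancel h')
    rw [← h2]
    exact le_inf inf_le_right h1
  refine le_bot_of_bits (t := (n, m, k)) (i := 0 + d k) (key 0) ?_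
  have := key 1
  rwa [add_comm (1 : ZMod 2), ← zero_add (d k)] at this

theorem actN_yy (g : Cant) (n m : ℕ) (d : ℕ → ZMod 2) :
    SS.actN g (yy n m d) = yy n m (fun k => d k + g (n, m, k)) := by
  rw [yy, actN_mk, yy]
  congr 1
  · funext p; exact SS.actN_nNat g _
  · funext p
    show CB.act g (bit (n, m, p.1) (p.2 + d p.1)) = _
    rw [act_bit, add_assoc]

theorem mem_H (s : Finset (ℕ × ℕ) × Finset ℕ) (g : Cant) : g ∈ SS.H s ↔
    (∀ n m, ∃ j, Tail g n m j) ∧ (∀ t ∈ s.1, ∀ k, g (t.1, t.2, k) = 0) ∧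
    ∀ n ∈ s.2, ∀ m, Tail g n m 0 := Iff.rfl

theorem hs_yy (n m : ℕ) (d : ℕ → ZMod 2) : SS.HS (yy n m d) := by
  refine (SS.hs_iff _).2 ⟨⟨(({(n, m)} : Finset (ℕ × ℕ)), (∅ : Finset ℕ)), fun g hg => ?_⟩,
    fun p => SS.hs_nNat _⟩
  have hg' := (mem_H _ g).1 hg
  have h0 : ∀ k, g (n, m, k) = 0 := hg'.2.1 (n, m) (by simp)
  have : SS.actN g (yy n m d) = yy n m d := by
    refine (actN_yy g n m d).trans ?_
    simp [h0]
  rw [this, beq_refl]

/-- eventually constant sequences -/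
def Ev (j : ZMod 2) (d : ℕ → ZMod 2) : Prop := ∃ N, ∀ k, N ≤ k → d k = j

/-- name of the class modulo finite changes -/
noncomputable def xx (n m : ℕ) (j : ZMod 2) : Nm CB := mk {d : ℕ → ZMod 2 // Ev j d} (fun d => yy n m d.1) (fun _ => ⊤)

theorem mem_xx (z : Nm CB) (n m : ℕ) (j : ZMod 2) :
    Nm.mem z (xx n m j) = ⨆ d : {d : ℕ → ZMod 2 // Ev j d}, beq z (yy n m d.1) := by
  simp [xx, mem_mk]

theorem beq_xx_ne {n m n' m' : ℕ} {j j' : ZMod 2} (h : (n, m, j) ≠ (n', m', j')) :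
    beq (xx n m j) (xx n' m' j') = ⊥ := by
  have hc : Ev j (fun _ => j) := ⟨0, fun _ _ => rfl⟩
  rw [eq_bot_iff]
  have h1 : beq (xx n m j) (xx n' m' j') ≤ Nm.mem (yy n m fun _ => j) (xx n' m' j') := by
    refine mem_congr_right' le_rfl ?_
    rw [mem_xx]
    exact le_top.trans (le_iSup_of_le ⟨_, hc⟩ (beq_refl _).ge)
  refine h1.trans ?_
  rw [mem_xx]
  refine iSup_le fun d => le_of_eq ?_
  by_cases hnm : (n, m) = (n', m')
  · have hn : n = n' := congrArg Prod.fst hnm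
    have hm : m = m' := congrArg Prod.snd hnm
    subst hn; subst hm
    obtain ⟨N, hN⟩ := d.2
    refine beq_yy_same (k := N) ?_
    rw [hN N le_rfl]
    rintro rfl
    exact h rfl
  · exact beq_yy_ne hnm _ _

theorem actN_xx {g : Cant} {n m : ℕ} {i : ZMod 2} (hg : Tail g n m i) (j : ZMod 2) :
    beq (SS.actN g (xx n m j)) (xx n m (j + i)) = ⊤ := by
  apply beq_eq_top_of_forall_mem_eq
  intro z
  have e : Nm.mem z (SS.actN g (xx n m j)) =
      ⨆ d : {d : ℕ → ZMod 2 // Ev j d}, beq z (yy n m fun k => d.1 k + g (n, m, k)) := by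
    rw [xx, actN_mk, mem_mk]
    refine iSup_congr fun d => ?_
    rw [actN_yy]
    rw [map_top, top_inf_eq]
  rw [e, mem_xx]
  apply le_antisymm
  · refine iSup_le fun d => ?_
    refine le_iSup_of_le ⟨fun k => d.1 k + g (n, m, k), ?_⟩ le_rfl
    obtain ⟨N, hN⟩ := d.2
    obtain ⟨N', hN'⟩ := hg
    exact ⟨max N N', fun k hk => by
      show d.1 k + g (n, m, k) = _
      rw [hN k ((le_max_left _ _).trans hk), hN' k ((le_max_right _ _).trans hk)]⟩
  · refine iSup_le fun d => ?_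
    refine le_iSup_of_le ⟨fun k => d.1 k + g (n, m, k), ?_⟩ ?_
    · obtain ⟨N, hN⟩ := d.2
      obtain ⟨N', hN'⟩ := hg
      exact ⟨max N N', fun k hk => by
        show d.1 k + g (n, m, k) = _
        rw [hN k ((le_max_left _ _).trans hk), hN' k ((le_max_right _ _).trans hk),
          zmod_add_cancel]⟩
    · simp only [zmod_add_cancel]; exact le_rfl

theorem hs_xx (n m : ℕ) (j : ZMod 2) : SS.HS (xx n m j) := by
  refine (SS.hs_iff _).2 ⟨⟨((∅ : Finset (ℕ × ℕ)), ({n} : Finset ℕ)), fun g hg => ?_⟩,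
    fun p => hs_yy _ _ _⟩
  have hg' := (mem_H _ g).1 hg
  have h0 : Tail g n m 0 := hg'.2.2 n (by simp) m
  have := actN_xx h0 j
  rwa [add_zero] at this

/-! ### Points -/

/-- two complementary values for every coordinate -/
def IsPt (F : ℕ → ZMod 2 → CB) : Prop := ∀ m, F m 0 ⊓ F m 1 = ⊥ ∧ F m 0 ⊔ F m 1 = ⊤

theorem IsPt.inf {F : ℕ → ZMod 2 → CB} (h : IsPt F) (m : ℕ) {i j : ZMod 2} (hij : i ≠ j) :
    F m i ⊓ F m j = ⊥ := by
  rcases zmod_cases i with rfl | rfl <;> rcases zmod_cases j with rfl | rfl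
  · exact absurd rfl hij
  · exact (h m).1
  · rw [inf_comm]; exact (h m).1
  · exact absurd rfl hij

/-- name of a point -/
noncomputable def pt (n : ℕ) (F : ℕ → ZMod 2 → CB) : Nm CB :=
  mk (ℕ × ZMod 2) (fun p => xx n p.1 p.2) (fun p => F p.1 p.2)

theorem mem_xx_pt (n m : ℕ) (j : ZMod 2) (F : ℕ → ZMod 2 → CB) :
    Nm.mem (xx n m j) (pt n F) = F m j := by
  rw [pt, mem_mk]
  apply le_antisymm
  · refine iSup_le fun p => ?_
    by_cases h : (n, m, j) = (n, p.1, p.2)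
    · simp only [Prod.mk.injEq, true_and] at h
      obtain ⟨rfl, rfl⟩ := h
      exact inf_le_left
    · rw [beq_xx_ne h, inf_bot_eq]; exact bot_le
  · exact le_iSup_of_le (m, j) (by rw [beq_refl, inf_top_eq])

theorem mem_xx_pt_ne {n n' : ℕ} (h : n ≠ n') (m : ℕ) (j : ZMod 2) (F : ℕ → ZMod 2 → CB) :
    Nm.mem (xx n m j) (pt n' F) = ⊥ := by
  rw [pt, mem_mk, eq_bot_iff]
  refine iSup_le fun p => ?_
  rw [beq_xx_ne (fun h' => h (congrArg Prod.fst h')), inf_bot_eq]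

theorem actN_pt {g : Cant} {n : ℕ} {t : ℕ → ZMod 2} (hg : ∀ m, Tail g n m (t m))
    (F : ℕ → ZMod 2 → CB) :
    beq (SS.actN g (pt n F)) (pt n fun m j => CB.act g (F m (j + t m))) = ⊤ := by
  apply beq_eq_top_of_forall_mem_eq
  intro z
  rw [pt, actN_mk, mem_mk, pt, mem_mk]
  apply le_antisymm
  · refine iSup_le fun p => le_iSup_of_le (p.1, p.2 + t p.1) ?_
    rw [beq_eq_of_beq_top_right (actN_xx (hg p.1) p.2)]
    simp only [zmod_add_cancel]
    exact le_rfl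
  · refine iSup_le fun p => le_iSup_of_le (p.1, p.2 + t p.1) ?_
    simp only
    rw [beq_eq_of_beq_top_right (actN_xx (hg p.1) (p.2 + t p.1)), zmod_add_cancel]

/-- index type of the points of row `n` -/
def PtI (n : ℕ) : Type := {F : ℕ → ZMod 2 → CB // IsPt F ∧ SS.Symm (pt n F)}

/-- name of the compact set of row `n` -/
noncomputable def kk (n : ℕ) : Nm CB := mk (PtI n) (fun F => pt n F.1) (fun _ => ⊤)

theorem mem_kk (z : Nm CB) (n : ℕ) : Nm.mem z (kk n) = ⨆ F : PtI n, beq z (pt n F.1) := by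
  simp [kk, mem_mk]

theorem hs_pt {n : ℕ} (F : PtI n) : SS.HS (pt n F.1) :=
  (SS.hs_iff _).2 ⟨F.2.2, fun _ => hs_xx _ _ _⟩

theorem mem_pt_kk {n : ℕ} (F : PtI n) : Nm.mem (pt n F.1) (kk n) = ⊤ := by
  rw [mem_kk, eq_top_iff]; exact le_iSup_of_le F (beq_refl _).ge

theorem CB.act_inf_eq_bot {g : Cant} {a b : CB} (h : a ⊓ b = ⊥) : CB.act g a ⊓ CB.act g b = ⊥ := by
  rw [← map_inf, h, map_bot]

theorem CB.act_sup_eq_top {g : Cant} {a b : CB} (h : a ⊔ b = ⊤) : CB.act g a ⊔ CB.act g b = ⊤ := by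
  rw [← map_sup, h, map_top]

theorem isPt_act {g : Cant} {t : ℕ → ZMod 2} {F : ℕ → ZMod 2 → CB} (h : IsPt F) :
    IsPt (fun m j => CB.act g (F m (j + t m))) := by
  intro m
  rcases zmod_cases (t m) with ht | ht
  · simp only [ht, add_zero]
    exact ⟨CB.act_inf_eq_bot (h m).1, CB.act_sup_eq_top (h m).2⟩
  · simp only [ht, zero_add, show (1 : ZMod 2) + 1 = 0 from rfl]
    rw [inf_comm, sup_comm]
    exact ⟨CB.act_inf_eq_bot (h m).1, CB.act_sup_eq_top (h m).2⟩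

theorem actN_kk_le {g : Cant} {n : ℕ} (hg : ∀ m, ∃ j, Tail g n m j) (z : Nm CB) :
    Nm.mem z (SS.actN g (kk n)) ≤ Nm.mem z (kk n) := by
  choose t ht using hg
  rw [kk, actN_mk, mem_mk, ← kk, mem_kk]
  refine iSup_le fun F => ?_
  have h1 := actN_pt ht F.1
  refine le_iSup_of_le ⟨fun m j => CB.act g (F.1 m (j + t m)), isPt_act F.2.1,
    SS.symm_of_beq_top h1 (SS.symm_actN g F.2.2)⟩ ?_
  rw [beq_eq_of_beq_top_right h1]
  exact inf_le_right

theorem Tail.neg {g : Cant} {n m : ℕ} {j : ZMod 2} (h : Tail g n m j) : Tail (-g) n m (-j) := by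
  obtain ⟨N, hN⟩ := h
  exact ⟨N, fun k hk => by rw [Pi.neg_apply, hN k hk]⟩

theorem actN_kk {g : Cant} {n : ℕ} (hg : ∀ m, ∃ j, Tail g n m j) :
    beq (SS.actN g (kk n)) (kk n) = ⊤ := by
  apply beq_eq_top_of_forall_mem_eq
  intro z
  apply le_antisymm (actN_kk_le hg z)
  have h1 : ∀ m, ∃ j, Tail (-g) n m j := fun m => by
    obtain ⟨j, hj⟩ := hg m; exact ⟨-j, hj.neg⟩
  have h2 := actN_kk_le h1 (SS.actN (-g) z)
  rw [SS.mem_actN (-g) z (kk n)] at h2
  rw [SS.mem_actN_right]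
  have h3 := (SS.act g).monotone h2
  rw [← SS.act_add, add_neg_cancel, SS.act_zero] at h3
  exact h3

theorem hs_kk (n : ℕ) : SS.HS (kk n) :=
  (SS.hs_iff _).2 ⟨⟨((∅ : Finset (ℕ × ℕ)), (∅ : Finset ℕ)), fun g hg =>
    actN_kk (((mem_H _ g).1 hg).1 n)⟩, fun F => hs_pt F⟩

/-! ### Basic open sets -/

/-- the point `z` passes through the node `σ` -/
noncomputable def Ph (n : ℕ) : List (ZMod 2) → Nm CB → CB
  | [], _ => ⊤
  | j :: σ, z => Nm.mem (xx n σ.length j) z ⊓ Ph n σ z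

theorem cong_Ph (n : ℕ) (σ : List (ZMod 2)) : Cong (Ph n σ) := by
  induction σ with
  | nil => intro x y; exact le_top
  | cons j σ ih =>
    intro x y
    exact le_inf (mem_congr_right' inf_le_left (inf_le_right.trans inf_le_left))
      (ih.le inf_le_left (inf_le_right.trans inf_le_right))

/-- name of the basic open set of row `n` given by the node `σ` -/
noncomputable def cyl (n : ℕ) (σ : List (ZMod 2)) : Nm CB := sep (kk n) (Ph n σ)

theorem mem_cyl (z : Nm CB) (n : ℕ) (σ : List (ZMod 2)) :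
    Nm.mem z (cyl n σ) = Nm.mem z (kk n) ⊓ Ph n σ z := mem_sep (cong_Ph n σ) _ _

/-- twisting a node -/
def tw (t : ℕ → ZMod 2) : List (ZMod 2) → List (ZMod 2)
  | [] => []
  | j :: σ => (j + t σ.length) :: tw t σ

theorem length_tw (t : ℕ → ZMod 2) (σ : List (ZMod 2)) : (tw t σ).length = σ.length := by
  induction σ with
  | nil => rfl
  | cons j σ ih => simp [tw, ih]

theorem tw_tw (t : ℕ → ZMod 2) (σ : List (ZMod 2)) : tw t (tw t σ) = σ := by
  induction σ with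
  | nil => rfl
  | cons j σ ih => simp [tw, ih, length_tw, zmod_add_cancel]

theorem tw_zero (σ : List (ZMod 2)) : tw (fun _ => 0) σ = σ := by
  induction σ with
  | nil => rfl
  | cons j σ ih => simp [tw, ih]

theorem Ph_tw {g : Cant} {n : ℕ} {t : ℕ → ZMod 2} (hg : ∀ m, Tail g n m (t m))
    (σ : List (ZMod 2)) (z : Nm CB) : Ph n (tw t σ) (SS.actN g z) = SS.act g (Ph n σ z) := by
  induction σ with
  | nil => exact (map_top _).symm
  | cons j σ ih =>
    rw [tw, Ph, Ph, ih, map_inf, length_tw, ← SS.mem_actN,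
      mem_eq_of_beq_top_left (actN_xx (hg σ.length) j)]

theorem actN_cyl {g : Cant} {n : ℕ} {t : ℕ → ZMod 2} (hg : ∀ m, Tail g n m (t m))
    (σ : List (ZMod 2)) : beq (SS.actN g (cyl n σ)) (cyl n (tw t σ)) = ⊤ := by
  apply beq_eq_top_of_forall_mem_eq
  intro z
  rw [mem_cyl, SS.mem_actN_right, mem_cyl, map_inf, ← SS.mem_actN, SS.actN_neg_cancel,
    mem_eq_of_beq_top_right (actN_kk fun m => ⟨t m, hg m⟩), ← Ph_tw hg, SS.actN_neg_cancel]

theorem hs_cyl (n : ℕ) (σ : List (ZMod 2)) : SS.HS (cyl n σ) := by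
  refine (SS.hs_iff _).2 ⟨⟨((∅ : Finset (ℕ × ℕ)), ({n} : Finset ℕ)), fun g hg => ?_⟩,
    fun F => hs_pt F⟩
  have hg' := (mem_H _ g).1 hg
  have h0 : ∀ m, Tail g n m 0 := hg'.2.2 n (by simp)
  have := actN_cyl (t := fun _ => 0) h0 σ
  rwa [tw_zero] at this

/-- name of the neighbourhood of the point at infinity -/
noncomputable def ww (n : ℕ) : Nm CB :=
  mk (Option (Σ k : {k : ℕ // n ≤ k}, PtI k.1))
    (fun o => match o with | none => nEmpty | some s => pt s.1.1 s.2.1) (fun _ => ⊤)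

theorem mem_ww (z : Nm CB) (n : ℕ) :
    Nm.mem z (ww n) = beq z nEmpty ⊔ ⨆ k : {k : ℕ // n ≤ k}, Nm.mem z (kk k.1) := by
  rw [ww, mem_mk, iSup_option]
  simp only [top_inf_eq]
  congr 1
  rw [iSup_sigma]
  exact iSup_congr fun k => (mem_kk z k.1).symm

theorem actN_ww {g : Cant} (hg : ∀ n m, ∃ j, Tail g n m j) (n : ℕ) :
    beq (SS.actN g (ww n)) (ww n) = ⊤ := by
  apply beq_eq_top_of_forall_mem_eq
  intro z
  rw [SS.mem_actN_right, mem_ww, mem_ww, map_sup, OrderIso.map_iSup]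
  have h1 : SS.act g (beq (SS.actN (-g) z) nEmpty) = beq z nEmpty := by
    rw [← SS.beq_actN, SS.actN_neg_cancel, SS.actN_nEmpty]
  have h2 : ∀ k : {k : ℕ // n ≤ k}, SS.act g (Nm.mem (SS.actN (-g) z) (kk k.1)) =
      Nm.mem z (kk k.1) := by
    intro k
    rw [← SS.mem_actN, SS.actN_neg_cancel, mem_eq_of_beq_top_right (actN_kk (hg k.1))]
  rw [h1]
  simp only [h2]

theorem hs_ww (n : ℕ) : SS.HS (ww n) := by
  refine (SS.hs_iff _).2 ⟨⟨((∅ : Finset (ℕ × ℕ)), (∅ : Finset ℕ)), fun g hg =>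
    actN_ww ((mem_H _ g).1 hg).1 n⟩, ?_⟩
  rintro (_ | s)
  · exact SS.hs_nEmpty
  · exact hs_pt s.2

/-! ### The base -/

/-- name of the base -/
noncomputable def bb : Nm CB :=
  mk ((ℕ × List (ZMod 2)) ⊕ ℕ) (Sum.elim (fun p => cyl p.1 p.2) ww) (fun _ => ⊤)

theorem mem_bb (z : Nm CB) : Nm.mem z bb =
    (⨆ p : ℕ × List (ZMod 2), beq z (cyl p.1 p.2)) ⊔ ⨆ n, beq z (ww n) := by
  rw [bb, mem_mk, iSup_sum]
  simp only [Sum.elim_inl, Sum.elim_inr, top_inf_eq]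

/-- name of the `k`-th finite piece of the base -/
noncomputable def bbk (k : ℕ) : Nm CB :=
  mk (({n : ℕ // n ≤ k} × {σ : List (ZMod 2) // σ.length ≤ k}) ⊕ {n : ℕ // n ≤ k})
    (Sum.elim (fun p => cyl p.1.1 p.2.1) (fun n => ww n.1)) (fun _ => ⊤)

theorem mem_bbk (z : Nm CB) (k : ℕ) : Nm.mem z (bbk k) =
    (⨆ p : {n : ℕ // n ≤ k} × {σ : List (ZMod 2) // σ.length ≤ k}, beq z (cyl p.1.1 p.2.1)) ⊔
      ⨆ n : {n : ℕ // n ≤ k}, beq z (ww n.1) := by
  rw [bbk, mem_mk, iSup_sum]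
  simp only [Sum.elim_inl, Sum.elim_inr, top_inf_eq]

theorem beq_act_right {g : Cant} {x y : Nm CB} (h : beq (SS.actN g x) y = ⊤) (z : Nm CB) :
    SS.act g (beq (SS.actN (-g) z) x) = beq z y := by
  rw [← SS.beq_actN, SS.actN_neg_cancel, beq_eq_of_beq_top_right h]

theorem actN_bbk {g : Cant} (hg : ∀ n m, ∃ j, Tail g n m j) (k : ℕ) :
    beq (SS.actN g (bbk k)) (bbk k) = ⊤ := by
  choose t ht using hg
  apply beq_eq_top_of_forall_mem_eq
  intro z
  rw [SS.mem_actN_right, mem_bbk, mem_bbk, map_sup, OrderIso.map_iSup, OrderIso.map_iSup]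
  congr 1
  · simp only [beq_act_right (actN_cyl (ht _) _)]
    apply le_antisymm
    · refine iSup_le fun p => le_iSup_of_le (p.1, ⟨tw (t p.1.1) p.2.1, ?_⟩) le_rfl
      rw [length_tw]; exact p.2.2
    · refine iSup_le fun p => le_iSup_of_le (p.1, ⟨tw (t p.1.1) p.2.1, ?_⟩) ?_
      · rw [length_tw]; exact p.2.2
      · simp only [tw_tw]; exact le_rfl
  · refine iSup_congr fun n => beq_act_right (actN_ww (fun n m => ⟨t n m, ht n m⟩) _) z

theorem hs_bbk (k : ℕ) : SS.HS (bbk k) := by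
  refine (SS.hs_iff _).2 ⟨⟨((∅ : Finset (ℕ × ℕ)), (∅ : Finset ℕ)), fun g hg =>
    actN_bbk ((mem_H _ g).1 hg).1 k⟩, ?_⟩
  rintro (p | n)
  · exact hs_cyl _ _
  · exact hs_ww _

theorem actN_bb {g : Cant} (hg : ∀ n m, ∃ j, Tail g n m j) :
    beq (SS.actN g bb) bb = ⊤ := by
  choose t ht using hg
  apply beq_eq_top_of_forall_mem_eq
  intro z
  rw [SS.mem_actN_right, mem_bb, mem_bb, map_sup, OrderIso.map_iSup, OrderIso.map_iSup]
  congr 1
  · simp only [beq_act_right (actN_cyl (ht _) _)]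
    apply le_antisymm
    · exact iSup_le fun p => le_iSup_of_le (p.1, tw (t p.1) p.2) le_rfl
    · refine iSup_le fun p => le_iSup_of_le (p.1, tw (t p.1) p.2) ?_
      simp only [tw_tw]; exact le_rfl
  · refine iSup_congr fun n => beq_act_right (actN_ww (fun n m => ⟨t n m, ht n m⟩) _) z

theorem hs_bb : SS.HS bb := by
  refine (SS.hs_iff _).2 ⟨⟨((∅ : Finset (ℕ × ℕ)), (∅ : Finset ℕ)), fun g hg =>
    actN_bb ((mem_H _ g).1 hg).1⟩, ?_⟩
  rintro (p | n)
  · exact hs_cyl _ _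
  · exact hs_ww _

/-- ordered pair -/
def nOPair {B : Type} [CompleteBooleanAlgebra B] (x y : Nm B) : Nm B := nPair (nPair x x) (nPair x y)

/-- name of the function `k ↦ bbk k` -/
noncomputable def ff : Nm CB := mk ℕ (fun k => nOPair (nNat k) (bbk k)) (fun _ => ⊤)

theorem hs_nOPair {x y : Nm CB} (hx : SS.HS x) (hy : SS.HS y) : SS.HS (nOPair x y) :=
  SS.hs_nPair (SS.hs_nPair hx hx) (SS.hs_nPair hx hy)

theorem mem_ff (z : Nm CB) : Nm.mem z ff = ⨆ k, beq z (nOPair (nNat k) (bbk k)) := by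
  simp [ff, mem_mk]

theorem hs_ff : SS.HS ff := by
  refine (SS.hs_iff _).2 ⟨⟨((∅ : Finset (ℕ × ℕ)), (∅ : Finset ℕ)), fun g hg => ?_⟩,
    fun k => hs_nOPair (SS.hs_nNat k) (hs_bbk k)⟩
  apply beq_eq_top_of_forall_mem_eq
  intro z
  rw [SS.mem_actN_right, mem_ff, mem_ff, OrderIso.map_iSup]
  refine iSup_congr fun k => beq_act_right ?_ z
  rw [nOPair, SS.actN_nPair, SS.actN_nPair, SS.actN_nPair, SS.actN_nNat]
  exact beq_nPair_top (beq_refl _) (beq_nPair_top (beq_refl _)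
    (actN_bbk ((mem_H _ g).1 hg).1 k))

end Pool.Agent.SymZF
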