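import Pool.Agent.SymZF.Defs

/-!
# Elementary facts in arbitrary models of ZF
-/

set_option autoImplicit false

namespace Pool.Agent.SymZF

variable {M : Type*} {E : M → M → Prop}

theorem IsPair.mem_left {a b p : M} (h : IsPair E a b p) : E a p := (h a).2 (Or.inl rfl)
theorem IsPair.mem_right {a b p : M} (h : IsPair E a b p) : E b p := (h b).2 (Or.inr rfl)

theorem IsPair.inj_single {a b b' p : M} (h : IsPair E a a p) (h' : IsPair E b b' p) : a = b ∧ a = b' := by
  have h1 := (h b).1 h'.mem_left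
  have h2 := (h b').1 h'.mem_right
  simp only [or_self] at h1 h2
  exact ⟨h1.symm, h2.symm⟩

theorem IsPair.right_inj {a b b' p : M} (h : IsPair E a b p) (h' : IsPair E a b' p) : b = b' := by
  rcases (h b').1 h'.mem_right with h1 | h1
  · subst h1
    rcases (h' b).1 h.mem_right with h2 | h2 <;> exact h2
  · exact h1.symm

theorem IsZF.pair_unique (hE : IsZF E) {a b p q : M} (h : IsPair E a b p) (h' : IsPair E a b q) :
    p = q := hE.ext _ _ fun z => (h z).trans (h' z).symm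

theorem opair_inj {a b a' b' p : M} (h : IsOPair E a b p) (h' : IsOPair E a' b' p) :
    a = a' ∧ b = b' := by
  obtain ⟨u, v, hu, hv, hp⟩ := h
  obtain ⟨u', v', hu', hv', hp'⟩ := h'
  have ha : a = a' := by
    rcases (hp' u).1 hp.mem_left with h1 | h1
    · subst h1; exact (hu.inj_single hu').1
    · subst h1; exact (hu.inj_single hv').1
  subst ha
  refine ⟨rfl, ?_⟩
  rcases (hp' v).1 hp.mem_right with h1 | h1
  · subst h1
    -- `v = {a}` so `b = a`
    have hb : a = b := (hu'.inj_single hv).2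
    rcases (hp v').1 hp'.mem_right with h2 | h2
    · subst h2; rw [← hb]; exact (hu.inj_single hv').2
    · subst h2; rw [← hb]; exact (hu'.inj_single hv').2
  · subst h1; exact hv.right_inj hv'

theorem IsZF.exists_opair (hE : IsZF E) (a b : M) : ∃ p, IsOPair E a b p := by
  obtain ⟨u, hu⟩ := hE.pairing a a
  obtain ⟨v, hv⟩ := hE.pairing a b
  obtain ⟨p, hp⟩ := hE.pairing u v
  exact ⟨p, u, v, hu, hv, hp⟩

theorem IsZF.opair_unique (hE : IsZF E) {a b p q : M} (h : IsOPair E a b p)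
    (h' : IsOPair E a b q) : p = q := by
  obtain ⟨u, v, hu, hv, hp⟩ := h
  obtain ⟨u', v', hu', hv', hp'⟩ := h'
  have h1 := hE.pair_unique hu hu'
  have h2 := hE.pair_unique hv hv'
  subst h1; subst h2
  exact hE.pair_unique hp hp'

theorem IsZF.exists_union2 (hE : IsZF E) (x y : M) : ∃ z, ∀ w, E w z ↔ E w x ∨ E w y := by
  obtain ⟨p, hp⟩ := hE.pairing x y
  obtain ⟨z, hz⟩ := hE.union p
  refine ⟨z, fun w => ?_⟩
  rw [hz]
  constructor
  · rintro ⟨u, hu, hw⟩
    rcases (hp u).1 hu with rfl | rfl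
    · exact Or.inl hw
    · exact Or.inr hw
  · rintro (h | h)
    · exact ⟨x, (hp x).2 (Or.inl rfl), h⟩
    · exact ⟨y, (hp y).2 (Or.inr rfl), h⟩

theorem IsZF.exists_insert (hE : IsZF E) (S a : M) : ∃ z, ∀ w, E w z ↔ E w S ∨ w = a := by
  obtain ⟨p, hp⟩ := hE.pairing a a
  obtain ⟨z, hz⟩ := hE.exists_union2 S p
  refine ⟨z, fun w => ?_⟩
  rw [hz, hp, or_self]

theorem IsZF.not_mem_self (hE : IsZF E) (x : M) : ¬ E x x := by
  intro h
  obtain ⟨p, hp⟩ := hE.pairing x x
  obtain ⟨y, hy, hy'⟩ := hE.foundation p ⟨x, (hp x).2 (Or.inl rfl)⟩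
  have hyx : y = x := by
    have := (hp y).1 hy
    rwa [or_self] at this
  subst hyx
  exact hy' y hy h

theorem IsZF.empty_unique (hE : IsZF E) {a b : M} (ha : IsEmptySet E a) (hb : IsEmptySet E b) :
    a = b := hE.ext _ _ fun z => ⟨fun h => absurd h (ha z), fun h => absurd h (hb z)⟩

theorem IsZF.exists_empty (hE : IsZF E) : ∃ e : M, IsEmptySet E e := by
  obtain ⟨w, ⟨e, he, -⟩, -⟩ := hE.infinity
  exact ⟨e, he⟩

theorem isFinite_of_empty (hE : IsZF E) (hw : ∃ w : M, IsOmega E w) {S : M}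
    (hS : IsEmptySet E S) : IsFinite E S := by
  obtain ⟨w, hw⟩ := hw
  obtain ⟨e, he, hew⟩ := hw.1.1
  have : S = e := hE.empty_unique hS he
  subst this
  refine ⟨w, S, hw, hew, S, ⟨fun p hp => absurd hp (hS p), fun x hx => absurd hx (hS x)⟩,
    fun a b hab => ?_, fun b hb => absurd hb (hS b)⟩
  obtain ⟨p, -, hp⟩ := hab
  exact absurd hp (hS p)

theorem isFinite_insert (hE : IsZF E) {S a S' : M} (hS : IsFinite E S) (ha : ¬ E a S)
    (hS' : ∀ z, E z S' ↔ E z S ∨ z = a) : IsFinite E S' := by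
  obtain ⟨w, n, hw, hn, f, hf, hfS, hfb⟩ := hS
  obtain ⟨s, hs, hsw⟩ := hw.1.2 n hn
  obtain ⟨p, hp⟩ := hE.exists_opair n a
  obtain ⟨f', hf'⟩ := hE.exists_insert f p
  have hnn := hE.not_mem_self n
  -- membership in the new function
  have hmaps : ∀ x y, Maps E f' x y ↔ Maps E f x y ∨ (x = n ∧ y = a) := by
    intro x y
    constructor
    · rintro ⟨q, hq, hqf⟩
      rcases (hf' q).1 hqf with h | h
      · exact Or.inl ⟨q, hq, h⟩
      · subst h; exact Or.inr (opair_inj hq hp)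
    · rintro (⟨q, hq, hqf⟩ | ⟨rfl, rfl⟩)
      · exact ⟨q, hq, (hf' q).2 (Or.inl hqf)⟩
      · exact ⟨p, hp, (hf' p).2 (Or.inr rfl)⟩
  have hdom : ∀ x y, Maps E f x y → E x n := by
    rintro x y ⟨q, hq, hqf⟩
    obtain ⟨x', y', hx', hq'⟩ := hf.1 q hqf
    rwa [(opair_inj hq hq').1]
  refine ⟨w, s, hw, hsw, f', ⟨?_, ?_⟩, ?_, ?_⟩
  · intro q hq
    rcases (hf' q).1 hq with h | h
    · obtain ⟨x, y, hx, hxy⟩ := hf.1 q h
      exact ⟨x, y, (hs x).2 (Or.inl hx), hxy⟩
    · subst h; exact ⟨n, a, (hs n).2 (Or.inr rfl), hp⟩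
  · intro x hx
    by_cases hxn : x = n
    · subst hxn
      refine ⟨a, (hmaps _ _).2 (Or.inr ⟨rfl, rfl⟩), fun y hy => ?_⟩
      rcases (hmaps _ _).1 hy with h | h
      · exact absurd (hdom _ _ h) hnn
      · exact h.2
    · have hx' : E x n := ((hs x).1 hx).resolve_right hxn
      obtain ⟨y, hy, hy'⟩ := hf.2 x hx'
      refine ⟨y, (hmaps _ _).2 (Or.inl hy), fun z hz => ?_⟩
      rcases (hmaps _ _).1 hz with h | h
      · exact hy' z h
      · exact absurd h.1 hxn
  · intro x y hxy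
    rcases (hmaps _ _).1 hxy with h | h
    · exact (hS' y).2 (Or.inl (hfS x y h))
    · exact (hS' y).2 (Or.inr h.2)
  · intro b hb
    rcases (hS' b).1 hb with h | h
    · obtain ⟨x, hx, hx'⟩ := hfb b h
      refine ⟨x, (hmaps _ _).2 (Or.inl hx), fun z hz => ?_⟩
      rcases (hmaps _ _).1 hz with h' | h'
      · exact hx' z h'
      · exact absurd (h'.2 ▸ h) ha
    · subst h
      refine ⟨n, (hmaps _ _).2 (Or.inr ⟨rfl, rfl⟩), fun z hz => ?_⟩
      rcases (hmaps _ _).1 hz with h' | h'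
      · exact absurd (hfS _ _ h') ha
      · exact h'.1

/-- every externally finite collection is a finite set of the model -/
theorem exists_finite_set (hE : IsZF E) (hw : ∃ w : M, IsOmega E w) (s : Set M) (hs : s.Finite) :
    ∃ S, (∀ z, E z S ↔ z ∈ s) ∧ IsFinite E S := by
  induction s, hs using Set.Finite.induction_on with
  | empty =>
    obtain ⟨e, he⟩ := hE.exists_empty
    exact ⟨e, fun z => ⟨fun h => absurd h (he z), fun h => absurd h (Set.notMem_empty z)⟩,
      isFinite_of_empty hE hw he⟩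
  | @insert a s ha _ ih =>
    obtain ⟨S, hS, hfin⟩ := ih
    obtain ⟨S', hS'⟩ := hE.exists_insert S a
    refine ⟨S', fun z => ?_, isFinite_insert hE hfin (fun h => ha ((hS a).1 h)) hS'⟩
    rw [hS', hS, Set.mem_insert_iff, or_comm]

theorem isFinite_of_finite (hE : IsZF E) (hw : ∃ w : M, IsOmega E w) {S : M}
    (hS : {z | E z S}.Finite) : IsFinite E S := by
  obtain ⟨S', hS', hfin⟩ := exists_finite_set hE hw _ hS
  rwa [hE.ext S S' fun z => (hS' z).symm]

/-- equipotence inside the model gives external bounds -/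
theorem encard_le_of_equipotent {a x : M} (h : Equipotent E a x) :
    {z | E z x}.encard ≤ {z | E z a}.encard := by
  obtain ⟨f, hf, hfx, hfb⟩ := h
  have hch : ∀ b : {z // E z x}, ∃ a' : {z // E z a}, Maps E f a'.1 b.1 := by
    intro b
    obtain ⟨a', ha', -⟩ := hfb b.1 b.2
    obtain ⟨q, hq, hqf⟩ := ha'
    obtain ⟨x', y', hx', hq'⟩ := hf.1 q hqf
    refine ⟨⟨a', ?_⟩, q, hq, hqf⟩
    rwa [(opair_inj hq hq').1]
  choose g hg using hch
  have hinj : Function.Injective g := by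
    intro b b' hbb
    apply Subtype.ext
    have h1 := hg b
    rw [hbb] at h1
    obtain ⟨y, -, hy'⟩ := hf.2 (g b').1 (g b').2
    rw [hy' _ h1, hy' _ (hg b')]
  have : ENat.card {z // E z x} ≤ ENat.card {z // E z a} :=
    ENat.card_le_card_of_injective hinj
  exact this

end Pool.Agent.SymZF
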