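import Pool.Agent.SymZF.Model
import Pool.Agent.SymZF.ZFBasic
import Pool.Agent.SymZF.Names

/-!
# From Boolean values to the two valued models and back
-/

set_option autoImplicit false

namespace Pool.Agent.SymZF

open Nm Fm SymSys

section gen
variable {B : Type} [CompleteBooleanAlgebra B] (S : SymSys B)

namespace SymSys

/-- class of a hereditarily symmetric name -/
def Cl (U : Uf B) (x : Nm B) (h : S.HS x) : S.M U := cls U ⟨x, loc_of _ _ h⟩

theorem mem_Cl (U : Uf B) {x y : Nm B} (hx : S.HS x) (hy : S.HS y) :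
    Mem U (S.Cl U x hx) (S.Cl U y hy) ↔ U.T (Nm.mem x y) := Iff.rfl

theorem mem_cls_Cl (U : Uf B) (x : LNm S.HS) {y : Nm B} (hy : S.HS y) :
    Mem U (cls U x) (S.Cl U y hy) ↔ U.T (Nm.mem x.1 y) := Iff.rfl

theorem Cl_eq (U : Uf B) {x y : Nm B} (hx : S.HS x) (hy : S.HS y) :
    S.Cl U x hx = S.Cl U y hy ↔ U.T (beq x y) := cls_eq_iff U _ _

theorem cls_eq_Cl (U : Uf B) (x : LNm S.HS) {y : Nm B} (hy : S.HS y) :
    cls U x = S.Cl U y hy ↔ U.T (beq x.1 y) := cls_eq_iff U _ _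

variable {S}

theorem sat_iff_T (U : Uf B) (φ : Fm) {v : ℕ → Nm B} (hv : ∀ i, S.HS (v i)) :
    Sat (Mem U) φ (fun i => S.Cl U (v i) (hv i)) ↔ U.T (bval S.HS φ v) :=
  los U S.hne φ fun i => ⟨v i, loc_of _ _ (hv i)⟩

theorem le_bval {p : B} {φ : Fm} {v : ℕ → Nm B} (hv : ∀ i, S.HS (v i))
    (h : ∀ U : Uf B, U.T p → Sat (Mem U) φ (fun i => S.Cl U (v i) (hv i))) :
    p ≤ bval S.HS φ v :=
  le_bval_of_forall S.hne (fun i => (⟨v i, loc_of _ _ (hv i)⟩ : LNm S.HS)) h

theorem bval_le_bval {φ ψ : Fm} {v w : ℕ → Nm B} (hv : ∀ i, S.HS (v i)) (hw : ∀ i, S.HS (w i))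
    (h : ∀ U : Uf B, Sat (Mem U) φ (fun i => S.Cl U (v i) (hv i)) →
      Sat (Mem U) ψ (fun i => S.Cl U (w i) (hw i))) :
    bval S.HS φ v ≤ bval S.HS ψ w :=
  le_bval hw fun U hU => h U ((sat_iff_T U φ hv).2 hU)

theorem hs_push {x : Nm B} {v : ℕ → Nm B} (hx : S.HS x) (hv : ∀ i, S.HS (v i)) :
    ∀ i, S.HS (push x v i) := by
  intro i
  cases i with
  | zero => exact hx
  | succ k => exact hv k

variable (S)

/-- the constant assignment -/
def e0 : ℕ → Nm B := fun _ => nEmpty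

theorem hs_e0 : ∀ i, S.HS (e0 i) := fun _ => S.hs_nEmpty

theorem le_of_forall_T {a b : B} (h : ∀ U : Uf B, U.T a → U.T b) : a ≤ b := by
  by_contra hcon
  have hne' : a ⊓ bᶜ ≠ ⊥ := by
    intro h0
    exact hcon (by rwa [← disjoint_iff, disjoint_compl_right_iff] at h0)
  obtain ⟨U, hU⟩ := Uf.exists_T hne'
  rw [U.T_inf, U.T_compl] at hU
  exact hU.2 (h U hU.1)

/-! ### The empty set and `ω` -/

theorem isEmptySet_Cl (U : Uf B) : IsEmptySet (Mem U) (S.Cl U nEmpty S.hs_nEmpty) := by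
  intro m
  obtain ⟨x, rfl⟩ := cls_surj U m
  rw [mem_cls_Cl, mem_nEmpty]
  exact U.bot

theorem mem_Cl_nNat_succ (U : Uf B) (n : ℕ) (m : S.M U) :
    Mem U m (S.Cl U (nNat (n + 1)) (S.hs_nNat _)) ↔
      Mem U m (S.Cl U (nNat n) (S.hs_nNat _)) ∨ m = S.Cl U (nNat n) (S.hs_nNat _) := by
  obtain ⟨x, rfl⟩ := cls_surj U m
  rw [mem_cls_Cl, mem_cls_Cl, cls_eq_Cl, mem_nNat_succ, U.T_sup]

theorem mem_nNat_nOmega (n : ℕ) : Nm.mem (nNat n : Nm B) nOmega = ⊤ := by
  rw [mem_nOmega, eq_top_iff]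
  exact le_iSup_of_le n (beq_refl _).ge

theorem isInductive_omega (U : Uf B) : IsInductive (Mem U) (S.Cl U nOmega S.hs_nOmega) := by
  constructor
  · refine ⟨S.Cl U nEmpty S.hs_nEmpty, S.isEmptySet_Cl U, ?_⟩
    rw [mem_Cl, show (nEmpty : Nm B) = nNat 0 from rfl, mem_nNat_nOmega]
    exact U.top
  · have h1 := bval_all_mem S.HS (ex (Fm.and (fSucc 1 0) (Fm.mem 0 2))) (push nOmega e0) 0
      (fun n => S.hs_nNat n)
    have h2 : bval S.HS (all (imp (Fm.mem 0 (0 + 1)) (ex (Fm.and (fSucc 1 0) (Fm.mem 0 2)))))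
        (push nOmega e0) = ⊤ := by
      rw [h1, iInf_eq_top]
      intro (n : ℕ)
      rw [himp_eq_top_iff]
      refine le_top.trans (ge_of_eq ?_)
      refine bval_ex_eq_top (nNat (n + 1)) (S.hs_nNat _) ?_
      rw [eq_top_iff]
      refine le_bval (hs_push (S.hs_nNat _) (hs_push (S.hs_nNat n)
        (hs_push S.hs_nOmega S.hs_e0))) fun U _ => ?_
      simp only [sat_and, sat_fSucc, sat_mem]
      refine ⟨fun m => S.mem_Cl_nNat_succ U n m, ?_⟩
      show Mem U (S.Cl U (nNat (n + 1)) (S.hs_nNat _)) (S.Cl U nOmega S.hs_nOmega)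
      rw [mem_Cl, mem_nNat_nOmega]
      exact U.top
    have h3 := (sat_iff_T U _ (hs_push S.hs_nOmega S.hs_e0)).2 (by rw [h2]; exact U.top)
    simp only [sat_all, sat_imp, sat_mem, sat_ex, sat_and, sat_fSucc, push_zero, push_one,
      push_two] at h3
    exact h3

theorem isOmega_omega (U : Uf B) : IsOmega (Mem U) (S.Cl U nOmega S.hs_nOmega) := by
  refine ⟨S.isInductive_omega U, ?_⟩
  have key : ∀ I, S.HS I → bval S.HS (imp (fInd 0) (fSubs 1 0)) (push I (push nOmega e0)) = ⊤ := by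
    intro I hI
    rw [bval_imp, himp_eq_top_iff]
    have hstep : ∀ n : ℕ, bval S.HS (fInd 0) (push I (push nOmega e0)) ≤ Nm.mem (nNat n) I := by
      intro n
      have hv := hs_push hI (hs_push S.hs_nOmega S.hs_e0)
      induction n with
      | zero =>
        apply le_of_forall_T
        intro U hU
        have h1 := (sat_iff_T U _ hv).2 hU
        rw [sat_fInd] at h1
        obtain ⟨⟨e, he, heI⟩, -⟩ := h1
        have : e = S.Cl U nEmpty S.hs_nEmpty :=
          (S.isZF U).empty_unique he (S.isEmptySet_Cl U)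
        subst this
        exact heI
      | succ n ih =>
        apply le_of_forall_T
        intro U hU
        have h1 := (sat_iff_T U _ hv).2 hU
        rw [sat_fInd] at h1
        have h2 : Mem U (S.Cl U (nNat n) (S.hs_nNat n)) (S.Cl U I hI) := U.mono ih hU
        obtain ⟨s, hs, hsI⟩ := h1.2 _ h2
        have : s = S.Cl U (nNat (n + 1)) (S.hs_nNat _) := by
          apply (S.isZF U).ext
          intro z
          rw [hs, S.mem_Cl_nNat_succ U n z]
        subst this
        exact hsI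
    have h1 : (bval S.HS (fSubs 1 0) (push I (push nOmega e0))) =
        ⨅ n : ℕ, Nm.mem (nNat n) I := by
      have h2 := bval_all_mem S.HS (Fm.mem 0 1) (push I (push nOmega e0)) 1
        (fun n => S.hs_nNat n)
      rw [fSubs]
      refine h2.trans ?_
      refine iInf_congr fun (n : ℕ) => ?_
      exact top_himp
    rw [h1]
    exact le_iInf hstep
  have h2 : bval S.HS (all (imp (fInd 0) (fSubs 1 0))) (push nOmega e0) = ⊤ :=
    bval_all_eq_top fun I hI => key I hI
  have h3 := (sat_iff_T U _ (hs_push S.hs_nOmega S.hs_e0)).2 (by rw [h2]; exact U.top)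
  simp only [sat_all, sat_imp, sat_fInd, sat_fSubs, push_zero, push_one] at h3
  exact h3

theorem omega_unique {M : Type*} {E : M → M → Prop} (hE : IsZF E) {w w' : M} (h : IsOmega E w)
    (h' : IsOmega E w') : w = w' :=
  hE.ext _ _ fun z => ⟨h.2 w' h'.1 z, h'.2 w h.1 z⟩

theorem exists_omega (U : Uf B) : ∃ w : S.M U, IsOmega (Mem U) w := ⟨_, S.isOmega_omega U⟩

/-- a finite set is equipotent to a standard natural number -/
theorem bval_finite_le (x : ℕ) {v : ℕ → Nm B} (hv : ∀ i, S.HS (v i)) :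
    bval S.HS (fFinite x) v ≤ ⨆ k, bval S.HS (fEquip 0 (x + 1)) (push (nNat k) v) := by
  rw [fFinite, bval_ex]
  refine iSup_le fun w => ?_
  rw [bval_ex]
  refine iSup_le fun n => ?_
  rw [bval_and, bval_and]
  have hw : bval S.HS (fOmega 1) (push n.1 (push w.1 v)) ≤ beq w.1 nOmega := by
    apply le_of_forall_T
    intro U hU
    have h1 := (sat_iff_T U _ (hs_push n.2 (hs_push w.2 hv))).2 hU
    rw [sat_fOmega] at h1
    have h2 : S.Cl U w.1 w.2 = S.Cl U nOmega S.hs_nOmega :=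
      omega_unique (S.isZF U) h1 (S.isOmega_omega U)
    rwa [Cl_eq] at h2
  have h1 : bval S.HS (fOmega 1) (push n.1 (push w.1 v)) ⊓
      (bval S.HS (Fm.mem 0 1) (push n.1 (push w.1 v)) ⊓
        bval S.HS (fEquip 0 (x + 2)) (push n.1 (push w.1 v))) ≤ ⨆ k : ℕ, beq n.1 (nNat k) := by
    rw [← mem_nOmega]
    exact mem_congr_right' (inf_le_left.trans hw) (inf_le_right.trans inf_le_left)
  refine le_of_le_iSup h1 fun k => le_iSup_of_le k ?_
  have h2 : bval S.HS (fEquip 0 (x + 2)) (push (nNat k) (push w.1 v)) ≤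
      bval S.HS (fEquip 0 (x + 1)) (push (nNat k) v) := by
    refine bval_le_bval (hs_push (S.hs_nNat k) (hs_push w.2 hv)) (hs_push (S.hs_nNat k) hv)
      fun U h => ?_
    rw [sat_fEquip] at h ⊢
    exact h
  refine le_trans ?_ h2
  exact (bval_cong_push S.HS (fEquip 0 (x + 2)) (push w.1 v)).le (x := n.1) inf_le_right
    (inf_le_left.trans (inf_le_right.trans inf_le_right))

theorem encard_nNat_le (U : Uf B) (k : ℕ) :
    {z | Mem U z (S.Cl U (nNat k) (S.hs_nNat k))}.encard ≤ k := by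
  induction k with
  | zero =>
    have : {z | Mem U z (S.Cl U (nNat 0) (S.hs_nNat 0))} = ∅ := by
      ext z
      simp only [Set.mem_setOf_eq, Set.mem_empty_iff_false, iff_false]
      exact S.isEmptySet_Cl U z
    rw [this]; simp
  | succ k ih =>
    have : {z | Mem U z (S.Cl U (nNat (k + 1)) (S.hs_nNat (k + 1)))} =
        insert (S.Cl U (nNat k) (S.hs_nNat k)) {z | Mem U z (S.Cl U (nNat k) (S.hs_nNat k))} := by
      ext z
      simp only [Set.mem_setOf_eq, Set.mem_insert_iff]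
      rw [S.mem_Cl_nNat_succ U k z, or_comm]
    rw [this]
    refine (Set.encard_insert_le _ _).trans ?_
    rw [Nat.cast_add, Nat.cast_one]
    exact add_le_add ih le_rfl

/-- if `x` is equipotent to a standard natural number then it is externally finite -/
theorem encard_le_of_equip (U : Uf B) (k : ℕ) {m : S.M U}
    (h : Equipotent (Mem U) (S.Cl U (nNat k) (S.hs_nNat k)) m) :
    {z | Mem U z m}.encard ≤ k :=
  (encard_le_of_equipotent h).trans (S.encard_nNat_le U k)

theorem subs_Cl (U : Uf B) {x y : Nm B} (hx : S.HS x) (hy : S.HS y)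
    (h : ∀ z, Nm.mem z x ≤ Nm.mem z y) : Subs (Mem U) (S.Cl U x hx) (S.Cl U y hy) := by
  intro m hm
  obtain ⟨z, rfl⟩ := cls_surj U m
  exact U.mono (h z.1) hm

theorem isOPair_Cl (U : Uf B) {x y : Nm B} (hx : S.HS x) (hy : S.HS y)
    (hp : S.HS (nOPair x y)) :
    IsOPair (Mem U) (S.Cl U x hx) (S.Cl U y hy) (S.Cl U (nOPair x y) hp) := by
  refine ⟨S.Cl U (nPair x x) (S.hs_nPair hx hx), S.Cl U (nPair x y) (S.hs_nPair hx hy), ?_, ?_, ?_⟩
  all_goals
    intro m
    obtain ⟨z, rfl⟩ := cls_surj U m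
    simp only [mem_cls_Cl, cls_eq_Cl]
    first
      | rw [nOPair, mem_nPair, U.T_sup]
      | rw [mem_nPair, U.T_sup]

end SymSys

end gen

end Pool.Agent.SymZF
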