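import Pool.Agent.SymZF.Sym

/-!
# The Cohen algebra on `2 ^ (ℕ × ℕ × ℕ)`
-/

set_option autoImplicit false

namespace Pool.Agent.SymZF

open TopologicalSpace Heyting

section Reg
variable {α : Type*} [Order.Frame α]

/-- the regular elements of a frame form a complete Boolean algebra -/
noncomputable abbrev regCBA : CompleteBooleanAlgebra (Heyting.Regular α) :=
  { (inferInstance : BooleanAlgebra (Heyting.Regular α)) with
    sSup := fun s => Heyting.Regular.toRegular (sSup ((fun a : Heyting.Regular α => (a : α)) '' s))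
    sInf := fun s => ⟨sInf ((fun a : Heyting.Regular α => (a : α)) '' s), by
      refine le_antisymm ?_ le_compl_compl
      refine le_sInf ?_
      rintro _ ⟨a, ha, rfl⟩
      have h1 : sInf ((fun a : Heyting.Regular α => (a : α)) '' s) ≤ (a : α) := sInf_le ⟨a, ha, rfl⟩
      exact (compl_le_compl (compl_le_compl h1)).trans_eq a.2⟩
    isLUB_sSup := by
      intro s
      constructor
      · intro a ha
        refine Heyting.Regular.coe_le_coe.1 ?_
        refine le_trans ?_ le_compl_compl
        exact le_sSup ⟨a, ha, rfl⟩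
      · intro b hb
        refine Heyting.Regular.coe_le_coe.1 ?_
        show (sSup ((fun a : Heyting.Regular α => (a : α)) '' s))ᶜᶜ ≤ (b : α)
        have hb' : (b : α)ᶜᶜ = (b : α) := b.2
        rw [← hb']
        refine compl_le_compl (compl_le_compl (sSup_le ?_))
        rintro _ ⟨a, ha, rfl⟩
        exact hb ha
    isGLB_sInf := by
      intro s
      constructor
      · intro a ha
        refine Heyting.Regular.coe_le_coe.1 ?_
        exact sInf_le ⟨a, ha, rfl⟩
      · intro b hb
        refine Heyting.Regular.coe_le_coe.1 ?_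
        refine le_sInf ?_
        rintro _ ⟨a, ha, rfl⟩
        exact hb ha }

end Reg

/-- coordinates -/
abbrev Co : Type := ℕ × ℕ × ℕ

/-- the Cantor space of functions on the coordinates -/
abbrev Cant : Type := Co → ZMod 2

/-- the regular open algebra -/
def CB : Type := Heyting.Regular (Opens Cant)

noncomputable instance : CompleteBooleanAlgebra CB := regCBA (α := Opens Cant)

/-- the underlying open set -/
def CB.op (a : CB) : Opens Cant := Heyting.Regular.val a

theorem CB.le_iff {a b : CB} : a ≤ b ↔ a.op ≤ b.op := Iff.rfl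
theorem CB.op_inj {a b : CB} (h : a.op = b.op) : a = b := Subtype.ext h
theorem CB.op_compl_compl (a : CB) : a.opᶜᶜ = a.op := a.2
theorem CB.op_inf (a b : CB) : (a ⊓ b).op = a.op ⊓ b.op := rfl
theorem CB.op_bot : (⊥ : CB).op = ⊥ := rfl
theorem CB.op_top : (⊤ : CB).op = ⊤ := rfl
theorem CB.op_compl (a : CB) : aᶜ.op = a.opᶜ := rfl

/-- order automorphisms of the regular open algebra -/
def CB.congr (e : Opens Cant ≃o Opens Cant) : CB ≃o CB where
  toFun a := ⟨e a.op, by
    show (e a.op)ᶜᶜ = e a.op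
    rw [← map_compl e, ← map_compl e, a.op_compl_compl]⟩
  invFun a := ⟨e.symm a.op, by
    show (e.symm a.op)ᶜᶜ = e.symm a.op
    rw [← map_compl e.symm, ← map_compl e.symm, a.op_compl_compl]⟩
  left_inv a := CB.op_inj (e.symm_apply_apply a.op)
  right_inv a := CB.op_inj (e.apply_symm_apply a.op)
  map_rel_iff' := e.le_iff_le

theorem CB.congr_op (e : Opens Cant ≃o Opens Cant) (a : CB) : (CB.congr e a).op = e a.op := rfl

/-- translation of the Cantor space -/
def CB.act (g : Cant) : CB ≃o CB := CB.congr (Homeomorph.addRight g).opensCongr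

theorem CB.mem_act (g : Cant) (a : CB) (w : Cant) : w ∈ (CB.act g a).op ↔ w - g ∈ a.op := by
  rw [CB.act, CB.congr_op, sub_eq_add_neg]
  exact Iff.rfl

theorem CB.ext_op {a b : CB} (h : ∀ w, w ∈ a.op ↔ w ∈ b.op) : a = b :=
  CB.op_inj (by ext w; exact h w)

theorem CB.act_zero (a : CB) : CB.act 0 a = a :=
  CB.ext_op fun w => by rw [CB.mem_act, sub_zero]

theorem CB.act_add (g h : Cant) (a : CB) : CB.act (g + h) a = CB.act g (CB.act h a) :=
  CB.ext_op fun w => by rw [CB.mem_act, CB.mem_act, CB.mem_act, sub_sub]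

/-- clopen sets given by one coordinate -/
def cy (t : Co) (i : ZMod 2) : Opens Cant :=
  ⟨(fun w : Cant => w t) ⁻¹' {i}, (isOpen_discrete ({i} : Set (ZMod 2))).preimage
    (continuous_apply (A := fun _ : Co => ZMod 2) t)⟩

theorem mem_cy (t : Co) (i : ZMod 2) (w : Cant) : w ∈ cy t i ↔ w t = i := Iff.rfl

theorem isCompl_cy (t : Co) (i : ZMod 2) : IsCompl (cy t i) (cy t (i + 1)) := by
  constructor
  · rw [disjoint_iff]
    ext w
    simp only [Opens.coe_inf, Set.mem_inter_iff, SetLike.mem_coe, mem_cy, Opens.coe_bot,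
      Set.mem_empty_iff_false, iff_false, not_and]
    intro h h'
    rw [h] at h'
    revert h'
    generalize i = i
    revert i
    decide
  · rw [codisjoint_iff]
    ext w
    simp only [Opens.coe_sup, Set.mem_union, SetLike.mem_coe, mem_cy, Opens.coe_top, Set.mem_univ,
      iff_true]
    generalize w t = a
    revert a i
    decide

/-- the basic elements -/
def bit (t : Co) (i : ZMod 2) : CB :=
  ⟨cy t i, by
    show (cy t i)ᶜᶜ = cy t i
    rw [(isCompl_cy t i).compl_eq, (isCompl_cy t i).symm.compl_eq]⟩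

theorem mem_bit (t : Co) (i : ZMod 2) (w : Cant) : w ∈ (bit t i).op ↔ w t = i := Iff.rfl

theorem bit_compl (t : Co) (i : ZMod 2) : (bit t i)ᶜ = bit t (i + 1) :=
  CB.op_inj (isCompl_cy t i).compl_eq

theorem act_bit (g : Cant) (t : Co) (i : ZMod 2) : CB.act g (bit t i) = bit t (i + g t) :=
  CB.ext_op fun w => by
    rw [CB.mem_act, mem_bit, mem_bit, Pi.sub_apply, sub_eq_iff_eq_add]

theorem CB.exists_mem {a : CB} (h : a ≠ ⊥) : ∃ w, w ∈ a.op := by
  by_contra hcon
  push Not at hcon
  exact h (CB.ext_op fun w => ⟨fun hw => absurd hw (hcon w), fun hw => absurd hw (by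
    rw [CB.op_bot]; exact id)⟩)

theorem CB.ne_bot_of_mem {a : CB} {w : Cant} (h : w ∈ a.op) : a ≠ ⊥ := by
  rintro rfl
  rw [CB.op_bot] at h
  exact h

theorem mem_finset_inf (F : Finset Co) (f : Co → CB) (w : Cant) :
    w ∈ (F.inf f).op ↔ ∀ t ∈ F, w ∈ (f t).op := by
  classical
  induction F using Finset.induction_on with
  | empty =>
    simp only [Finset.inf_empty, Finset.notMem_empty, false_imp_iff, implies_true, iff_true]
    rw [CB.op_top]; trivial
  | insert a s _ ih =>
    rw [Finset.inf_insert, CB.op_inf]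
    simp only [Finset.mem_insert, forall_eq_or_imp, ← ih]
    exact Iff.rfl

/-- density of cylinders -/
theorem exists_cylinder {p : CB} (hp : p ≠ ⊥) :
    ∃ (F : Finset Co) (q : CB), q ≠ ⊥ ∧ q ≤ p ∧ ∀ g : Cant, (∀ t ∈ F, g t = 0) → CB.act g q = q := by
  obtain ⟨w, hw⟩ := CB.exists_mem hp
  obtain ⟨F, u, hu, hF⟩ := isOpen_pi_iff.1 p.op.isOpen w hw
  refine ⟨F, F.inf fun t => bit t (w t), ?_, ?_, ?_⟩
  · exact CB.ne_bot_of_mem (w := w) ((mem_finset_inf F _ w).2 fun t _ => rfl)
  · rw [CB.le_iff]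
    intro w' hw'
    apply hF
    intro t ht
    have := (mem_finset_inf F _ w').1 hw' t ht
    rw [mem_bit] at this
    rw [this]
    exact (hu t ht).2
  · intro g hg
    rw [map_finset_inf]
    refine Finset.inf_congr rfl fun t ht => ?_
    rw [Function.comp_apply, act_bit, hg t ht, add_zero]

/-- the row `(n, m)` of `g` is eventually equal to `j` -/
def Tail (g : Cant) (n m : ℕ) (j : ZMod 2) : Prop := ∃ N, ∀ k, N ≤ k → g (n, m, k) = j

theorem Tail.unique {g : Cant} {n m : ℕ} {i j : ZMod 2} (h : Tail g n m i) (h' : Tail g n m j) :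
    i = j := by
  obtain ⟨N, hN⟩ := h
  obtain ⟨N', hN'⟩ := h'
  rw [← hN (max N N') (le_max_left _ _), hN' _ (le_max_right _ _)]

/-- the symmetric system -/
noncomputable abbrev SS : SymSys CB where
  G := Cant
  grp := inferInstance
  act := CB.act
  act_zero := CB.act_zero
  act_add := CB.act_add
  K := Finset (ℕ × ℕ) × Finset ℕ
  H := fun s => {g | (∀ n m, ∃ j, Tail g n m j) ∧ (∀ t ∈ s.1, ∀ k, g (t.1, t.2, k) = 0) ∧
    ∀ n ∈ s.2, ∀ m, Tail g n m 0}
  k₀ := (∅, ∅)
  dir := by
    classical
    rintro ⟨e, a⟩ ⟨e', a'⟩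
    refine ⟨(e ∪ e', a ∪ a'), ?_, ?_⟩
    · rintro g ⟨h1, h2, h3⟩
      exact ⟨h1, fun t ht => h2 t (Finset.mem_union_left _ ht),
        fun n hn => h3 n (Finset.mem_union_left _ hn)⟩
    · rintro g ⟨h1, h2, h3⟩
      exact ⟨h1, fun t ht => h2 t (Finset.mem_union_right _ ht),
        fun n hn => h3 n (Finset.mem_union_right _ hn)⟩

end Pool.Agent.SymZF
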