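import Mathlib

/-!
# Models of ZF and set theoretic topology inside them

All notions are plain first order notions over a structure `(M, E)`, where `E x y` means that
`x` is an element of `y`.
-/

set_option autoImplicit false

namespace Pool.Agent.SymZF

/-- First order formulas in the language with membership and equality, written with de Bruijn
indices: inside a quantifier the variable `0` is the quantified one, and variable `k + 1` is what
was variable `k` outside of it. -/
inductive Fm : Type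
  | mem (i j : ℕ) : Fm
  | eq (i j : ℕ) : Fm
  | neg (φ : Fm) : Fm
  | and (φ ψ : Fm) : Fm
  | all (φ : Fm) : Fm

/-- `push x v` is the assignment which sends variable `0` to `x` and variable `k + 1` to `v k`. -/
def push {M : Type*} (x : M) (v : ℕ → M) (n : ℕ) : M := Nat.casesOn n x v

/-- Tarski satisfaction of a formula in the structure `(M, E)` under an assignment. It is defined
by recursion on the formula, with the clauses `Sat.mem_iff`, ..., `Sat.all_iff` below. -/
def Sat {M : Type*} (E : M → M → Prop) (φ : Fm) : (ℕ → M) → Prop :=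
  Fm.rec (motive := fun _ => (ℕ → M) → Prop) (fun i j v => E (v i) (v j))
    (fun i j v => v i = v j) (fun _ s v => ¬ s v) (fun _ _ s t v => s v ∧ t v)
    (fun _ s v => ∀ x, s (push x v)) φ

section clauses
variable {M : Type*} (E : M → M → Prop)

theorem Sat.mem_iff (i j : ℕ) (v : ℕ → M) : Sat E (.mem i j) v ↔ E (v i) (v j) := Iff.rfl
theorem Sat.eq_iff (i j : ℕ) (v : ℕ → M) : Sat E (.eq i j) v ↔ v i = v j := Iff.rfl
theorem Sat.neg_iff (φ : Fm) (v : ℕ → M) : Sat E (.neg φ) v ↔ ¬ Sat E φ v := Iff.rfl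
theorem Sat.and_iff (φ ψ : Fm) (v : ℕ → M) :
    Sat E (.and φ ψ) v ↔ Sat E φ v ∧ Sat E ψ v := Iff.rfl
theorem Sat.all_iff (φ : Fm) (v : ℕ → M) :
    Sat E (.all φ) v ↔ ∀ x, Sat E φ (push x v) := Iff.rfl

end clauses

/-- `(M, E)` is a model of Zermelo-Fraenkel set theory ZF (without choice). Separation and
replacement are the usual schemes: one instance for every first order formula `φ` and every
assignment `v` of parameters. -/
structure IsZF {M : Type*} (E : M → M → Prop) : Prop where
  /-- extensionality -/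
  ext : ∀ x y, (∀ z, E z x ↔ E z y) → x = y
  /-- foundation -/
  foundation : ∀ x, (∃ y, E y x) → ∃ y, E y x ∧ ∀ z, E z x → ¬ E z y
  /-- pairing -/
  pairing : ∀ x y, ∃ z, ∀ w, E w z ↔ w = x ∨ w = y
  /-- union -/
  union : ∀ x, ∃ z, ∀ w, E w z ↔ ∃ y, E y x ∧ E w y
  /-- power set -/
  powerset : ∀ x, ∃ z, ∀ w, E w z ↔ ∀ u, E u w → E u x
  /-- infinity -/
  infinity : ∃ w, (∃ e, (∀ z, ¬ E z e) ∧ E e w) ∧
    ∀ n, E n w → ∃ s, (∀ z, E z s ↔ E z n ∨ z = n) ∧ E s w
  /-- separation scheme -/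
  separation : ∀ (φ : Fm) (v : ℕ → M) (a : M), ∃ b, ∀ x, E x b ↔ E x a ∧ Sat E φ (push x v)
  /-- replacement scheme -/
  replacement : ∀ (φ : Fm) (v : ℕ → M) (a : M),
    (∀ x, E x a → ∃! y, Sat E φ (push y (push x v))) →
      ∃ b, ∀ y, E y b ↔ ∃ x, E x a ∧ Sat E φ (push y (push x v))

section Notions
variable {M : Type*} (E : M → M → Prop)

/-- `e` is the empty set. -/
def IsEmptySet (e : M) : Prop := ∀ z, ¬ E z e

/-- `x` is a subset of `y`. -/
def Subs (x y : M) : Prop := ∀ z, E z x → E z y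

/-- `p` is the unordered pair `{a, b}`. -/
def IsPair (a b p : M) : Prop := ∀ z, E z p ↔ z = a ∨ z = b

/-- `p` is the (Kuratowski) ordered pair `(a, b) = {{a}, {a, b}}`. -/
def IsOPair (a b p : M) : Prop := ∃ u v, IsPair E a a u ∧ IsPair E a b v ∧ IsPair E u v p

/-- `s` is the successor `n ∪ {n}` of `n`. -/
def IsSucc (n s : M) : Prop := ∀ z, E z s ↔ E z n ∨ z = n

/-- `w` contains the empty set and is closed under successors. -/
def IsInductive (w : M) : Prop :=
  (∃ e, IsEmptySet E e ∧ E e w) ∧ ∀ n, E n w → ∃ s, IsSucc E n s ∧ E s w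

/-- `w` is the set `ω` of natural numbers: the least inductive set. -/
def IsOmega (w : M) : Prop := IsInductive E w ∧ ∀ I, IsInductive E I → Subs E w I

/-- The ordered pair `(a, b)` is an element of `f`. -/
def Maps (f a b : M) : Prop := ∃ p, IsOPair E a b p ∧ E p f

/-- `f` is a function (a set of ordered pairs) with domain `A`. -/
def IsFunOn (f A : M) : Prop :=
  (∀ p, E p f → ∃ x y, E x A ∧ IsOPair E x y p) ∧ ∀ x, E x A → ∃! y, Maps E f x y

/-- There is a bijection (a set of ordered pairs) from `x` onto `y`. -/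
def Equipotent (x y : M) : Prop :=
  ∃ f, IsFunOn E f x ∧ (∀ a b, Maps E f a b → E b y) ∧ ∀ b, E b y → ∃! a, Maps E f a b

/-- `x` is finite: equipotent to a member of `ω`. -/
def IsFinite (x : M) : Prop := ∃ w n, IsOmega E w ∧ E n w ∧ Equipotent E n x

/-- `S` is a cuf set: the union of the values of a function with domain `ω` all of whose values are
finite. -/
def IsCuf (S : M) : Prop :=
  ∃ w F, IsOmega E w ∧ IsFunOn E F w ∧ (∀ n y, Maps E F n y → IsFinite E y) ∧
    ∀ z, E z S ↔ ∃ n y, Maps E F n y ∧ E z y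

/-- `τ` is a topology on the set `X`. -/
def IsTopology (X τ : M) : Prop :=
  (∀ U, E U τ → Subs E U X) ∧ (∀ e, IsEmptySet E e → E e τ) ∧ E X τ ∧
  (∀ S, Subs E S τ → ∀ u, (∀ z, E z u ↔ ∃ U, E U S ∧ E z U) → E u τ) ∧
  (∀ U V, E U τ → E V τ → ∀ w, (∀ z, E z w ↔ E z U ∧ E z V) → E w τ)

/-- The space `(X, τ)` is Hausdorff. -/
def IsHausdorff (X τ : M) : Prop :=
  ∀ x y, E x X → E y X → x ≠ y →
    ∃ U V, E U τ ∧ E V τ ∧ E x U ∧ E y V ∧ ∀ z, ¬ (E z U ∧ E z V)

/-- The space `(X, τ)` is compact: every open cover has a finite subcover. -/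
def IsCompactSpace (X τ : M) : Prop :=
  ∀ S, Subs E S τ → (∀ x, E x X → ∃ U, E U S ∧ E x U) →
    ∃ T, Subs E T S ∧ IsFinite E T ∧ ∀ x, E x X → ∃ U, E U T ∧ E x U

/-- `B` is a base of the topology `τ`. -/
def IsBase (τ B : M) : Prop :=
  Subs E B τ ∧ ∀ U, E U τ → ∀ x, E x U → ∃ V, E V B ∧ E x V ∧ Subs E V U

/-- The topology `τ` has a base which is a cuf set. -/
def HasCufBase (τ : M) : Prop := ∃ B, IsBase E τ B ∧ IsCuf E B

/-- `C` is a closed subset of the space `(X, τ)`. -/
def IsClosedSubset (X τ C : M) : Prop :=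
  Subs E C X ∧ ∃ U, E U τ ∧ ∀ z, E z U ↔ E z X ∧ ¬ E z C

/-- The space `(X, τ)` is weakly Loeb: there is a function `f` whose domain is the set `A` of all
non-empty closed subsets of `X`, and `f` sends every `C` in `A` to a non-empty finite subset of
`C`. -/
def IsWeaklyLoeb (X τ : M) : Prop :=
  ∃ A f, (∀ C, E C A ↔ IsClosedSubset E X τ C ∧ ∃ z, E z C) ∧ IsFunOn E f A ∧
    ∀ C y, Maps E f C y → Subs E y C ∧ (∃ z, E z y) ∧ IsFinite E y

end Notions

end Pool.Agent.SymZF
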