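import Pool.Agent.SymZF.Defs

/-!
# Formulas expressing the notions of `Defs`
-/

set_option autoImplicit false

namespace Pool.Agent.SymZF

section push
variable {M : Type*}
@[simp] theorem push_zero (x : M) (v : ℕ → M) : push x v 0 = x := rfl
@[simp] theorem push_succ (x : M) (v : ℕ → M) (k : ℕ) : push x v (k + 1) = v k := rfl
@[simp] theorem push_one (x : M) (v : ℕ → M) : push x v 1 = v 0 := rfl
@[simp] theorem push_two (x : M) (v : ℕ → M) : push x v 2 = v 1 := rfl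
@[simp] theorem push_three (x : M) (v : ℕ → M) : push x v 3 = v 2 := rfl
@[simp] theorem push_four (x : M) (v : ℕ → M) : push x v 4 = v 3 := rfl
@[simp] theorem push_five (x : M) (v : ℕ → M) : push x v 5 = v 4 := rfl
@[simp] theorem push_six (x : M) (v : ℕ → M) : push x v 6 = v 5 := rfl

theorem push_map {N : Type*} (g : M → N) (x : M) (v : ℕ → M) :
    push (g x) (fun i => g (v i)) = fun i => g (push x v i) := by
  funext i; cases i <;> rfl
end push

namespace Fm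

/-- lift a renaming under a binder -/
def lift (r : ℕ → ℕ) : ℕ → ℕ
  | 0 => 0
  | k + 1 => r k + 1

/-- renaming of variables -/
def ren : (ℕ → ℕ) → Fm → Fm
  | r, .mem i j => .mem (r i) (r j)
  | r, .eq i j => .eq (r i) (r j)
  | r, .neg φ => .neg (ren r φ)
  | r, .and φ ψ => .and (ren r φ) (ren r ψ)
  | r, .all φ => .all (ren (lift r) φ)

/-- bound on the free variables -/
def bd : Fm → ℕ
  | .mem i j => max i j + 1
  | .eq i j => max i j + 1
  | .neg φ => bd φ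
  | .and φ ψ => max (bd φ) (bd ψ)
  | .all φ => bd φ

def imp (φ ψ : Fm) : Fm := neg (and φ (neg ψ))
def or (φ ψ : Fm) : Fm := neg (and (neg φ) (neg ψ))
def iff (φ ψ : Fm) : Fm := and (imp φ ψ) (imp ψ φ)
def ex (φ : Fm) : Fm := neg (all (neg φ))

end Fm

open Fm

theorem push_lift {M : Type*} (x : M) (v : ℕ → M) (r : ℕ → ℕ) :
    (fun i => push x v (lift r i)) = push x (fun i => v (r i)) := by
  funext i; cases i <;> rfl

section Sat
variable {M : Type*} {E : M → M → Prop}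

@[simp] theorem sat_mem (i j : ℕ) (v : ℕ → M) : Sat E (mem i j) v ↔ E (v i) (v j) := Iff.rfl
@[simp] theorem sat_eq (i j : ℕ) (v : ℕ → M) : Sat E (eq i j) v ↔ v i = v j := Iff.rfl
@[simp] theorem sat_neg (φ : Fm) (v : ℕ → M) : Sat E (neg φ) v ↔ ¬ Sat E φ v := Iff.rfl
@[simp] theorem sat_and (φ ψ : Fm) (v : ℕ → M) :
    Sat E (and φ ψ) v ↔ Sat E φ v ∧ Sat E ψ v := Iff.rfl
@[simp] theorem sat_all (φ : Fm) (v : ℕ → M) :
    Sat E (all φ) v ↔ ∀ x, Sat E φ (push x v) := Iff.rfl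
@[simp] theorem sat_imp (φ ψ : Fm) (v : ℕ → M) :
    Sat E (imp φ ψ) v ↔ (Sat E φ v → Sat E ψ v) := by
  simp [imp]
@[simp] theorem sat_or (φ ψ : Fm) (v : ℕ → M) :
    Sat E (or φ ψ) v ↔ (Sat E φ v ∨ Sat E ψ v) := by
  simp [Fm.or]; tauto
@[simp] theorem sat_iff (φ ψ : Fm) (v : ℕ → M) :
    Sat E (iff φ ψ) v ↔ (Sat E φ v ↔ Sat E ψ v) := by
  simp [iff]; tauto
@[simp] theorem sat_ex (φ : Fm) (v : ℕ → M) :
    Sat E (ex φ) v ↔ ∃ x, Sat E φ (push x v) := by
  simp [ex]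

theorem sat_ren (φ : Fm) : ∀ (r : ℕ → ℕ) (v : ℕ → M),
    Sat E (ren r φ) v ↔ Sat E φ (fun i => v (r i)) := by
  induction φ with
  | mem i j => intro r v; rfl
  | eq i j => intro r v; rfl
  | neg φ ih => intro r v; simp only [ren, sat_neg, ih]
  | and φ ψ ih1 ih2 => intro r v; simp only [ren, sat_and, ih1, ih2]
  | all φ ih => intro r v; simp only [ren, sat_all, ih, push_lift]

end Sat

/-! ### Formulas -/

def fEmpty (i : ℕ) : Fm := all (neg (mem 0 (i + 1)))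
def fSubs (i j : ℕ) : Fm := all (imp (mem 0 (i + 1)) (mem 0 (j + 1)))
def fPair (a b p : ℕ) : Fm := all (iff (mem 0 (p + 1)) (or (eq 0 (a + 1)) (eq 0 (b + 1))))
def fOPair (a b p : ℕ) : Fm :=
  ex (ex (and (fPair (a + 2) (a + 2) 1) (and (fPair (a + 2) (b + 2) 0) (fPair 1 0 (p + 2)))))
def fSucc (n s : ℕ) : Fm := all (iff (mem 0 (s + 1)) (or (mem 0 (n + 1)) (eq 0 (n + 1))))
def fInd (w : ℕ) : Fm :=
  and (ex (and (fEmpty 0) (mem 0 (w + 1))))
    (all (imp (mem 0 (w + 1)) (ex (and (fSucc 1 0) (mem 0 (w + 2))))))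
def fOmega (w : ℕ) : Fm := and (fInd w) (all (imp (fInd 0) (fSubs (w + 1) 0)))
def fMaps (f a b : ℕ) : Fm := ex (and (fOPair (a + 1) (b + 1) 0) (mem 0 (f + 1)))
/-- unique existence -/
def exU (φ : Fm) : Fm := ex (and φ (all (imp (ren (lift (· + 1)) φ) (eq 0 1))))
def fFunOn (f A : ℕ) : Fm :=
  and (all (imp (mem 0 (f + 1)) (ex (ex (and (mem 1 (A + 3)) (fOPair 1 0 2))))))
    (all (imp (mem 0 (A + 1)) (exU (fMaps (f + 2) 1 0))))
def fEquip (x y : ℕ) : Fm :=
  ex (and (fFunOn 0 (x + 1)) (and (all (all (imp (fMaps 2 1 0) (mem 0 (y + 3)))))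
    (all (imp (mem 0 (y + 2)) (exU (fMaps 2 0 1))))))
def fFinite (x : ℕ) : Fm :=
  ex (ex (and (fOmega 1) (and (mem 0 1) (fEquip 0 (x + 2)))))

section
variable {M : Type*} {E : M → M → Prop}

@[simp] theorem sat_fEmpty (i : ℕ) (v : ℕ → M) : Sat E (fEmpty i) v ↔ IsEmptySet E (v i) := by
  simp [fEmpty, IsEmptySet]
@[simp] theorem sat_fSubs (i j : ℕ) (v : ℕ → M) :
    Sat E (fSubs i j) v ↔ Subs E (v i) (v j) := by
  simp [fSubs, Subs]
@[simp] theorem sat_fPair (a b p : ℕ) (v : ℕ → M) :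
    Sat E (fPair a b p) v ↔ IsPair E (v a) (v b) (v p) := by
  simp [fPair, IsPair]
@[simp] theorem sat_fOPair (a b p : ℕ) (v : ℕ → M) :
    Sat E (fOPair a b p) v ↔ IsOPair E (v a) (v b) (v p) := by
  simp [fOPair, IsOPair]
@[simp] theorem sat_fSucc (n s : ℕ) (v : ℕ → M) :
    Sat E (fSucc n s) v ↔ IsSucc E (v n) (v s) := by
  simp [fSucc, IsSucc]
@[simp] theorem sat_fInd (w : ℕ) (v : ℕ → M) :
    Sat E (fInd w) v ↔ IsInductive E (v w) := by
  simp [fInd, IsInductive]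
@[simp] theorem sat_fOmega (w : ℕ) (v : ℕ → M) :
    Sat E (fOmega w) v ↔ IsOmega E (v w) := by
  simp [fOmega, IsOmega]
@[simp] theorem sat_fMaps (f a b : ℕ) (v : ℕ → M) :
    Sat E (fMaps f a b) v ↔ Maps E (v f) (v a) (v b) := by
  simp [fMaps, Maps]
theorem sat_exU (φ : Fm) (v : ℕ → M) :
    Sat E (exU φ) v ↔ ∃! x, Sat E φ (push x v) := by
  simp only [exU, sat_ex, sat_and, sat_all, sat_imp, sat_ren, sat_eq, push_zero, push_one]
  have : ∀ x y : M, (fun i => push y (push x v) (lift (· + 1) i)) = push y v := by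
    intro x y; funext i; cases i <;> rfl
  simp only [this]
  rfl
@[simp] theorem sat_fFunOn (f A : ℕ) (v : ℕ → M) :
    Sat E (fFunOn f A) v ↔ IsFunOn E (v f) (v A) := by
  simp [fFunOn, IsFunOn, sat_exU]
@[simp] theorem sat_fEquip (x y : ℕ) (v : ℕ → M) :
    Sat E (fEquip x y) v ↔ Equipotent E (v x) (v y) := by
  simp [fEquip, Equipotent, sat_exU]
@[simp] theorem sat_fFinite (x : ℕ) (v : ℕ → M) :
    Sat E (fFinite x) v ↔ IsFinite E (v x) := by
  simp [fFinite, IsFinite]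
end

end Pool.Agent.SymZF
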