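import Pool.Agent.SymZF.Sym

/-!
# The quotients of the symmetric model are models of ZF
-/

set_option autoImplicit false

namespace Pool.Agent.SymZF

open Nm Fm SymSys

variable {B : Type} [CompleteBooleanAlgebra B] (S : SymSys B)

namespace SymSys

/-- The two valued model. -/
abbrev M (U : Uf B) : Type 1 := Mod S.HS U

theorem sat_valid (U : Uf B) {φ : Fm} (h : S.Valid φ) (v : ℕ → S.M U) :
    Sat (Mem U) φ v := sat_of_bval_top U S.hne φ h v

theorem collection (U : Uf B) (φ : Fm) (v : ℕ → S.M U) (a : S.M U)
    (h : ∀ x, Mem U x a → ∃ y, Sat (Mem U) φ (push y (push x v))) :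
    ∃ b, ∀ x, Mem U x a → ∃ y, Mem U y b ∧ Sat (Mem U) φ (push y (push x v)) := by
  have h1 := S.sat_valid U (valid_col (S := S) φ) (push a v)
  rw [fCol] at h1
  simp only [sat_imp, sat_all, sat_ex, sat_and, sat_mem, sat_ren, push_zero, push_one,
    push_two] at h1
  have e1 : ∀ x y : S.M U, (fun i => push y (push x (push a v)) (rB i)) = push y (push x v) := by
    intro x y; funext i
    match i with
    | 0 => rfl
    | 1 => rfl
    | k + 2 => rfl
  have e2 : ∀ x y b : S.M U, (fun i => push y (push x (push b (push a v))) (rC i)) = push y (push x v) := by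
    intro x y b; funext i
    match i with
    | 0 => rfl
    | 1 => rfl
    | k + 2 => rfl
  simp only [e1, e2] at h1
  exact h1 h

theorem isZF (U : Uf B) : IsZF (Mem (D := S.HS) U) := by
  have hsep : ∀ (φ : Fm) (v : ℕ → S.M U) (a : S.M U), ∃ b, ∀ x, Mem U x b ↔
      Mem U x a ∧ Sat (Mem U) φ (push x v) := by
    intro φ v a
    have h1 := S.sat_valid U (valid_sep (S := S) φ) (push a v)
    rw [fSep] at h1
    simp only [sat_ex, sat_all, sat_iff, sat_and, sat_mem, sat_ren, push_zero, push_one,
      push_two] at h1
    have e1 : ∀ x b : S.M U, (fun i => push x (push b (push a v)) (rA i)) = push x v := by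
      intro x b; funext i
      cases i <;> rfl
    simp only [e1] at h1
    exact h1
  refine
    { ext := ?_, foundation := ?_, pairing := ?_, union := ?_, powerset := ?_, infinity := ?_,
      separation := hsep, replacement := ?_ }
  · intro x y h
    have h1 := S.sat_valid U (valid_ext (S := S)) (push x (push y fun _ => x))
    simp only [sat_imp, sat_all, sat_iff, sat_mem, sat_eq, push_zero, push_one, push_two] at h1
    exact h1 h
  · intro x h
    have h1 := S.sat_valid U (valid_foundation (S := S)) (push x fun _ => x)
    simp only [sat_imp, sat_all, sat_ex, sat_and, sat_neg, sat_mem, push_zero, push_one,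
      push_two] at h1
    exact h1 h
  · intro x y
    have h1 := S.sat_valid U (valid_pairing (S := S)) (push x (push y fun _ => x))
    simp only [sat_ex, sat_all, sat_iff, sat_or, sat_mem, sat_eq, push_zero, push_one, push_two,
      push_three] at h1
    exact h1
  · intro x
    have h1 := S.sat_valid U (valid_union (S := S)) (push x fun _ => x)
    simp only [sat_ex, sat_all, sat_iff, sat_and, sat_mem, push_zero, push_one, push_two,
      push_three] at h1
    exact h1
  · intro x
    have h1 := S.sat_valid U (valid_powerset (S := S)) (push x fun _ => x)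
    simp only [sat_ex, sat_all, sat_iff, sat_imp, sat_mem, push_zero, push_one, push_two,
      push_three] at h1
    exact h1
  · obtain ⟨x, -⟩ := cls_surj U (cls U ⟨nEmpty, loc_of _ _ S.hs_nEmpty⟩ : S.M U)
    have h1 := S.sat_valid U (valid_infinity (S := S)) (fun _ => cls U x)
    simp only [sat_ex, sat_all, sat_iff, sat_and, sat_or, sat_neg, sat_imp, sat_mem, sat_eq,
      push_zero, push_one, push_two] at h1
    exact h1
  · intro φ v a h
    obtain ⟨Y, hY⟩ := S.collection U φ v a fun x hx => (h x hx).exists
    obtain ⟨b, hb⟩ := hsep (ex (Fm.and (Fm.mem 0 2) (ren rD φ))) (push a v) Y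
    refine ⟨b, fun y => ?_⟩
    rw [hb]
    simp only [sat_ex, sat_and, sat_mem, sat_ren, push_zero, push_two, push_one]
    have e1 : ∀ x y : S.M U, (fun i => push x (push y (push a v)) (rD i)) = push y (push x v) := by
      intro x y; funext i
      match i with
      | 0 => rfl
      | 1 => rfl
      | k + 2 => rfl
    simp only [e1]
    constructor
    · exact fun h' => h'.2
    · rintro ⟨x, hx, hxy⟩
      refine ⟨?_, x, hx, hxy⟩
      obtain ⟨y', hy', hxy'⟩ := hY x hx
      rwa [(h x hx).unique hxy hxy']

end SymSys

end Pool.Agent.SymZF
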