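import Pool.Agent.SymZF.Bridge

/-!
# Relations between the basic sets
-/

set_option autoImplicit false

namespace Pool.Agent.SymZF

open Nm Fm SymSys

/-- values of the two possible coordinates of a point -/
theorem xx_excl {n m : ℕ} {i j : ZMod 2} (hij : i ≠ j) (z : Nm CB) :
    Nm.mem z (kk n) ⊓ (Nm.mem (xx n m i) z ⊓ Nm.mem (xx n m j) z) ≤ ⊥ := by
  have h1 : Nm.mem z (kk n) ⊓ (Nm.mem (xx n m i) z ⊓ Nm.mem (xx n m j) z) ≤
      ⨆ F : PtI n, beq z (pt n F.1) := by rw [← mem_kk]; exact inf_le_left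
  refine le_of_le_iSup h1 fun F => ?_
  rw [← F.2.1.inf m hij, ← mem_xx_pt n m i F.1, ← mem_xx_pt n m j F.1]
  exact le_inf (mem_congr_right' inf_le_right (inf_le_left.trans (inf_le_right.trans inf_le_left)))
    (mem_congr_right' inf_le_right (inf_le_left.trans (inf_le_right.trans inf_le_right)))

theorem xx_total {n : ℕ} (m : ℕ) (z : Nm CB) :
    Nm.mem z (kk n) ≤ Nm.mem (xx n m 0) z ⊔ Nm.mem (xx n m 1) z := by
  rw [mem_kk]
  refine iSup_le fun F => ?_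
  have h1 : beq z (pt n F.1) ≤ F.1 m 0 ⊔ F.1 m 1 := by rw [(F.2.1 m).2]; exact le_top
  refine le_of_le_sup h1 ?_ ?_
  · refine le_sup_of_le_left (mem_congr_right' (y := pt n F.1)
      (by rw [beq_comm]; exact inf_le_left) ?_)
    rw [mem_xx_pt]; exact inf_le_right
  · refine le_sup_of_le_right (mem_congr_right' (y := pt n F.1)
      (by rw [beq_comm]; exact inf_le_left) ?_)
    rw [mem_xx_pt]; exact inf_le_right

theorem kk_disj {n n' : ℕ} (h : n ≠ n') (z : Nm CB) :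
    Nm.mem z (kk n) ⊓ Nm.mem z (kk n') ≤ ⊥ := by
  have h1 : ∀ j, Nm.mem z (kk n) ⊓ Nm.mem z (kk n') ⊓ Nm.mem (xx n 0 j) z ≤ ⊥ := by
    intro j
    have h2 : Nm.mem z (kk n) ⊓ Nm.mem z (kk n') ⊓ Nm.mem (xx n 0 j) z ≤
        ⨆ F : PtI n', beq z (pt n' F.1) := by
      rw [← mem_kk]; exact inf_le_left.trans inf_le_right
    refine le_of_le_iSup h2 fun F => ?_
    rw [← mem_xx_pt_ne h 0 j F.1]
    exact mem_congr_right' inf_le_right (inf_le_left.trans inf_le_right)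
  exact le_of_le_sup (inf_le_left.trans (xx_total 0 z)) (h1 0) (h1 1)

theorem nEmpty_kk (n : ℕ) : Nm.mem nEmpty (kk n) = ⊥ := by
  rw [eq_bot_iff]
  have h1 : ∀ j, Nm.mem nEmpty (kk n) ⊓ Nm.mem (xx n 0 j) nEmpty ≤ ⊥ := by
    intro j; rw [mem_nEmpty, inf_bot_eq]
  exact le_of_le_sup (xx_total 0 nEmpty) (h1 0) (h1 1)

theorem cyl_le_kk (n : ℕ) (σ : List (ZMod 2)) (z : Nm CB) :
    Nm.mem z (cyl n σ) ≤ Nm.mem z (kk n) := by rw [mem_cyl]; exact inf_le_left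

theorem cyl_nil (n : ℕ) (z : Nm CB) : Nm.mem z (cyl n []) = Nm.mem z (kk n) := by
  rw [mem_cyl, Ph, inf_top_eq]

theorem mem_cyl_cons (n : ℕ) (j : ZMod 2) (σ : List (ZMod 2)) (z : Nm CB) :
    Nm.mem z (cyl n (j :: σ)) = Nm.mem z (cyl n σ) ⊓ Nm.mem (xx n σ.length j) z := by
  rw [mem_cyl, mem_cyl, Ph, inf_assoc, inf_comm (Ph n σ z)]

theorem cyl_cons_le (n : ℕ) (j : ZMod 2) (σ : List (ZMod 2)) (z : Nm CB) :
    Nm.mem z (cyl n (j :: σ)) ≤ Nm.mem z (cyl n σ) := by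
  rw [mem_cyl_cons]; exact inf_le_left

theorem cyl_le_children (n : ℕ) (σ : List (ZMod 2)) (z : Nm CB) :
    Nm.mem z (cyl n σ) ≤ Nm.mem z (cyl n (0 :: σ)) ⊔ Nm.mem z (cyl n (1 :: σ)) := by
  rw [mem_cyl_cons, mem_cyl_cons, ← inf_sup_left]
  exact le_inf le_rfl ((cyl_le_kk n σ z).trans (xx_total _ z))

theorem cyl_disj (n : ℕ) : ∀ (σ σ' : List (ZMod 2)), σ.length = σ'.length → σ ≠ σ' →
    ∀ z, Nm.mem z (cyl n σ) ⊓ Nm.mem z (cyl n σ') ≤ ⊥ := by
  intro σ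
  induction σ with
  | nil =>
    intro σ' hl hne z
    exact absurd (List.length_eq_zero_iff.1 hl.symm).symm hne
  | cons i τ ih =>
    intro σ' hl hne z
    cases σ' with
    | nil => simp at hl
    | cons j τ' =>
      have hl' : τ.length = τ'.length := by simpa using hl
      by_cases hij : i = j
      · subst hij
        have hne' : τ ≠ τ' := fun h => hne (by rw [h])
        exact (inf_le_inf (cyl_cons_le n i τ z) (cyl_cons_le n i τ' z)).trans (ih τ' hl' hne' z)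
      · rw [mem_cyl_cons, mem_cyl_cons, ← hl']
        refine le_trans ?_ (xx_excl (n := n) (m := τ.length) hij z)
        refine le_inf (inf_le_left.trans (inf_le_left.trans (cyl_le_kk n τ z)))
          (le_inf (inf_le_left.trans inf_le_right) (inf_le_right.trans inf_le_right))

theorem cyl_tri' (n : ℕ) (σ : List (ZMod 2)) : ∀ σ' : List (ZMod 2), σ.length ≤ σ'.length →
    (∀ z, Nm.mem z (cyl n σ') ≤ Nm.mem z (cyl n σ)) ∨
      (∀ z, Nm.mem z (cyl n σ) ⊓ Nm.mem z (cyl n σ') ≤ ⊥) := by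
  intro σ'
  induction σ' with
  | nil =>
    intro hl
    have : σ = [] := List.length_eq_zero_iff.1 (Nat.le_zero.1 hl)
    subst this
    exact Or.inl fun z => le_rfl
  | cons j τ ih =>
    intro hl
    by_cases h : σ.length = (j :: τ).length
    · by_cases h' : σ = j :: τ
      · subst h'; exact Or.inl fun z => le_rfl
      · exact Or.inr (cyl_disj n σ (j :: τ) h h')
    · have hl' : σ.length ≤ τ.length := by
        have : (j :: τ).length = τ.length + 1 := rfl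
        omega
      rcases ih hl' with h1 | h1
      · exact Or.inl fun z => (cyl_cons_le n j τ z).trans (h1 z)
      · exact Or.inr fun z => (inf_le_inf_left _ (cyl_cons_le n j τ z)).trans (h1 z)

/-- nested or disjoint -/
def Tri (a b : Nm CB) : Prop :=
  (∀ z, Nm.mem z a ≤ Nm.mem z b) ∨ (∀ z, Nm.mem z b ≤ Nm.mem z a) ∨
    (∀ z, Nm.mem z a ⊓ Nm.mem z b ≤ ⊥)

theorem Tri.symm {a b : Nm CB} (h : Tri a b) : Tri b a := by
  rcases h with h | h | h
  · exact Or.inr (Or.inl h)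
  · exact Or.inl h
  · exact Or.inr (Or.inr fun z => by rw [inf_comm]; exact h z)

theorem cyl_tri (n n' : ℕ) (σ σ' : List (ZMod 2)) : Tri (cyl n σ) (cyl n' σ') := by
  by_cases h : n = n'
  · subst h
    rcases le_total σ.length σ'.length with hl | hl
    · rcases cyl_tri' n σ σ' hl with h | h
      · exact Or.inr (Or.inl h)
      · exact Or.inr (Or.inr h)
    · rcases cyl_tri' n σ' σ hl with h | h
      · exact Or.inl h
      · exact Or.inr (Or.inr fun z => by rw [inf_comm]; exact h z)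
  · exact Or.inr (Or.inr fun z =>
      (inf_le_inf (cyl_le_kk n σ z) (cyl_le_kk n' σ' z)).trans (kk_disj h z))

theorem kk_le_ww {n n' : ℕ} (h : n' ≤ n) (z : Nm CB) : Nm.mem z (kk n) ≤ Nm.mem z (ww n') := by
  rw [mem_ww]
  exact le_sup_of_le_right
    (le_iSup (fun k : {k : ℕ // n' ≤ k} => Nm.mem z (kk k.1)) ⟨n, h⟩)

theorem kk_ww_disj {n n' : ℕ} (h : n < n') (z : Nm CB) :
    Nm.mem z (kk n) ⊓ Nm.mem z (ww n') ≤ ⊥ := by
  rw [mem_ww, inf_sup_left, inf_iSup_eq]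
  refine sup_le ?_ (iSup_le fun k => kk_disj (by have := k.2; omega) z)
  rw [← nEmpty_kk n]
  exact mem_congr_left' inf_le_right inf_le_left

theorem ww_mono {n n' : ℕ} (h : n ≤ n') (z : Nm CB) : Nm.mem z (ww n') ≤ Nm.mem z (ww n) := by
  rw [mem_ww, mem_ww]
  refine sup_le_sup_left (iSup_le fun k => ?_) _
  exact le_iSup (fun k : {k : ℕ // n ≤ k} => Nm.mem z (kk k.1)) ⟨k.1, h.trans k.2⟩

theorem ww_le_succ (n : ℕ) (z : Nm CB) : Nm.mem z (ww n) ≤ Nm.mem z (kk n) ⊔ Nm.mem z (ww (n + 1)) := by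
  rw [mem_ww z n]
  refine sup_le (le_sup_of_le_right ?_) (iSup_le fun k => ?_)
  · rw [mem_ww]; exact le_sup_left
  · rcases Nat.eq_or_lt_of_le k.2 with h | h
    · rw [← h]; exact le_sup_left
    · exact le_sup_of_le_right (kk_le_ww h z)

theorem cyl_ww_tri (n n' : ℕ) (σ : List (ZMod 2)) : Tri (cyl n σ) (ww n') := by
  rcases le_or_gt n' n with h | h
  · exact Or.inl fun z => (cyl_le_kk n σ z).trans (kk_le_ww h z)
  · exact Or.inr (Or.inr fun z =>
      (inf_le_inf_right _ (cyl_le_kk n σ z)).trans (kk_ww_disj h z))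

theorem ww_tri (n n' : ℕ) : Tri (ww n) (ww n') := by
  rcases le_total n n' with h | h
  · exact Or.inr (Or.inl (ww_mono h))
  · exact Or.inl (ww_mono h)

theorem bb_tri (i j : bb.idx) : Tri (bb.el i) (bb.el j) := by
  rcases i with ⟨n, σ⟩ | n <;> rcases j with ⟨n', σ'⟩ | n'
  · exact cyl_tri n n' σ σ'
  · exact cyl_ww_tri n n' σ
  · exact (cyl_ww_tri n' n σ').symm
  · exact ww_tri n n'

theorem bb_le_X (i : bb.idx) (z : Nm CB) : Nm.mem z (bb.el i) ≤ Nm.mem z (ww 0) := by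
  rcases i with ⟨n, σ⟩ | n
  · exact (cyl_le_kk n σ z).trans (kk_le_ww (Nat.zero_le n) z)
  · exact ww_mono (Nat.zero_le n) z

theorem mem_cyl_bb (n : ℕ) (σ : List (ZMod 2)) : Nm.mem (cyl n σ) bb = ⊤ := by
  rw [mem_bb, eq_top_iff]
  exact le_sup_of_le_left (le_iSup_of_le (n, σ) (beq_refl _).ge)

theorem mem_ww_bb (n : ℕ) : Nm.mem (ww n) bb = ⊤ := by
  rw [mem_bb, eq_top_iff]
  exact le_sup_of_le_right (le_iSup_of_le n (beq_refl _).ge)

/-- a point passes through some node of every length -/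
theorem Ph_total (n : ℕ) (F : PtI n) (m : ℕ) :
    (⨆ σ : {σ : List (ZMod 2) // σ.length = m}, Ph n σ.1 (pt n F.1)) = ⊤ := by
  rw [eq_top_iff]
  induction m with
  | zero => exact le_iSup_of_le ⟨[], rfl⟩ le_rfl
  | succ m ih =>
    refine le_of_le_iSup ih fun σ => ?_
    have h1 : ⊤ ⊓ Ph n σ.1 (pt n F.1) ≤ F.1 σ.1.length 0 ⊔ F.1 σ.1.length 1 := by
      rw [(F.2.1 σ.1.length).2]; exact le_top
    have h2 : ∀ j, ⊤ ⊓ Ph n σ.1 (pt n F.1) ⊓ F.1 σ.1.length j ≤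
        ⨆ σ : {σ : List (ZMod 2) // σ.length = m + 1}, Ph n σ.1 (pt n F.1) := by
      intro j
      refine le_iSup_of_le ⟨j :: σ.1, by simp [σ.2]⟩ ?_
      rw [Ph, mem_xx_pt]
      exact le_inf inf_le_right (inf_le_left.trans inf_le_right)
    exact le_of_le_sup h1 (h2 0) (h2 1)

theorem compl_beq_pt_le (n : ℕ) {F G : ℕ → ZMod 2 → CB} (hF : IsPt F) (hG : IsPt G) :
    (beq (pt n F) (pt n G))ᶜ ≤ ⨆ m : ℕ, ⨆ j : ZMod 2, F m j ⊓ G m (j + 1) := by
  rw [← compl_le_compl_iff_le, compl_compl]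
  refine le_beq ?_ ?_
  · rintro ⟨m, j⟩
    show (⨆ m : ℕ, ⨆ j : ZMod 2, F m j ⊓ G m (j + 1))ᶜ ⊓ F m j ≤ Nm.mem (xx n m j) (pt n G)
    rw [mem_xx_pt]
    have h1 : (⨆ m : ℕ, ⨆ j : ZMod 2, F m j ⊓ G m (j + 1))ᶜ ≤ (F m j ⊓ G m (j + 1))ᶜ :=
      compl_le_compl (le_iSup_of_le m (le_iSup (fun j => F m j ⊓ G m (j + 1)) j))
    have h2 : (⨆ m : ℕ, ⨆ j : ZMod 2, F m j ⊓ G m (j + 1))ᶜ ⊓ F m j ≤ G m j ⊔ G m (j + 1) := by
      rcases zmod_cases j with rfl | rfl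
      · rw [zero_add, (hG m).2]; exact le_top
      · rw [show (1 : ZMod 2) + 1 = 0 from rfl, sup_comm, (hG m).2]; exact le_top
    refine le_of_le_sup h2 inf_le_right ?_
    refine le_trans ?_ bot_le
    calc _ ≤ (F m j ⊓ G m (j + 1))ᶜ ⊓ (F m j ⊓ G m (j + 1)) :=
          le_inf (inf_le_left.trans (inf_le_left.trans h1))
            (le_inf (inf_le_left.trans inf_le_right) inf_le_right)
      _ = ⊥ := compl_inf_self _
  · rintro ⟨m, j⟩
    show (⨆ m : ℕ, ⨆ j : ZMod 2, F m j ⊓ G m (j + 1))ᶜ ⊓ G m j ≤ Nm.mem (xx n m j) (pt n F)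
    rw [mem_xx_pt]
    have h1 : (⨆ m : ℕ, ⨆ j : ZMod 2, F m j ⊓ G m (j + 1))ᶜ ≤
        (F m (j + 1) ⊓ G m (j + 1 + 1))ᶜ :=
      compl_le_compl (le_iSup_of_le m (le_iSup (fun j => F m j ⊓ G m (j + 1)) (j + 1)))
    rw [zmod_add_cancel] at h1
    have h2 : (⨆ m : ℕ, ⨆ j : ZMod 2, F m j ⊓ G m (j + 1))ᶜ ⊓ G m j ≤ F m j ⊔ F m (j + 1) := by
      rcases zmod_cases j with rfl | rfl
      · rw [zero_add, (hF m).2]; exact le_top
      · rw [show (1 : ZMod 2) + 1 = 0 from rfl, sup_comm, (hF m).2]; exact le_top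
    refine le_of_le_sup h2 inf_le_right ?_
    refine le_trans ?_ bot_le
    calc _ ≤ (F m (j + 1) ⊓ G m j)ᶜ ⊓ (F m (j + 1) ⊓ G m j) :=
          le_inf (inf_le_left.trans (inf_le_left.trans h1))
            (le_inf inf_le_right (inf_le_left.trans inf_le_right))
      _ = ⊥ := compl_inf_self _

end Pool.Agent.SymZF
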