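import Pool.Agent.SymZF.ZFBasic
import Pool.Agent.SymZF.Forms

/-!
# Topologies from bases in models of ZF
-/

set_option autoImplicit false

namespace Pool.Agent.SymZF

open Fm

variable {M : Type*} {E : M → M → Prop}

section defs
variable (E)

/-- `U` is an open subset of `X` with respect to the base `b`. -/
def OpenB (X b U : M) : Prop := Subs E U X ∧ ∀ x, E x U → ∃ W, E W b ∧ E x W ∧ Subs E W U

/-- `T` covers `S`. -/
def Cov (T S : M) : Prop := ∀ x, E x S → ∃ V, E V T ∧ E x V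

/-- finitely many members of `Z` cover `S`. -/
def FC (Z S : M) : Prop := ∃ T, Subs E T Z ∧ IsFinite E T ∧ Cov E T S

/-- `f` picks a non-empty finite subset of `C`. -/
def Pick (f C : M) : Prop :=
  ∃ y, Maps E f C y ∧ (∀ y', Maps E f C y' → y' = y) ∧ Subs E y C ∧ (∃ z, E z y) ∧ IsFinite E y

/-- `C` is a non-empty closed subset of `X`, expressed with the base `b`. -/
def ClB (X b C : M) : Prop :=
  Subs E C X ∧ (∃ z, E z C) ∧
    ∀ x, E x X → ¬ E x C → ∃ W, E W b ∧ E x W ∧ ∀ z, ¬ (E z W ∧ E z C)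

end defs

/-! ### formulas -/

def fOpenB (X b U : ℕ) : Fm :=
  and (fSubs U X) (all (imp (mem 0 (U + 1))
    (ex (and (mem 0 (b + 2)) (and (mem 1 0) (fSubs 0 (U + 2)))))))
def fCov (T S : ℕ) : Fm := all (imp (mem 0 (S + 1)) (ex (and (mem 0 (T + 2)) (mem 1 0))))
def fFC (Z S : ℕ) : Fm := ex (and (fSubs 0 (Z + 1)) (and (fFinite 0) (fCov 0 (S + 1))))
def fPick (f C : ℕ) : Fm :=
  ex (and (fMaps (f + 1) (C + 1) 0) (and (all (imp (fMaps (f + 2) (C + 2) 0) (eq 0 1)))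
    (and (fSubs 0 (C + 1)) (and (ex (mem 0 1)) (fFinite 0)))))
def fClB (X b C : ℕ) : Fm :=
  and (fSubs C X) (and (ex (mem 0 (C + 1))) (all (imp (mem 0 (X + 1)) (imp (neg (mem 0 (C + 1)))
    (ex (and (mem 0 (b + 2)) (and (mem 1 0) (all (neg (and (mem 0 1) (mem 0 (C + 3))))))))))))

@[simp] theorem sat_fOpenB (X b U : ℕ) (v : ℕ → M) :
    Sat E (fOpenB X b U) v ↔ OpenB E (v X) (v b) (v U) := by
  simp [fOpenB, OpenB]
@[simp] theorem sat_fCov (T S : ℕ) (v : ℕ → M) : Sat E (fCov T S) v ↔ Cov E (v T) (v S) := by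
  simp [fCov, Cov]
@[simp] theorem sat_fFC (Z S : ℕ) (v : ℕ → M) : Sat E (fFC Z S) v ↔ FC E (v Z) (v S) := by
  simp [fFC, FC]
@[simp] theorem sat_fPick (f C : ℕ) (v : ℕ → M) :
    Sat E (fPick f C) v ↔ Pick E (v f) (v C) := by
  simp [fPick, Pick]
@[simp] theorem sat_fClB (X b C : ℕ) (v : ℕ → M) :
    Sat E (fClB X b C) v ↔ ClB E (v X) (v b) (v C) := by
  simp [fClB, ClB]

/-- hypotheses on a base -/
structure BaseHyp (E : M → M → Prop) (X b : M) : Prop where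
  sub : ∀ W, E W b → Subs E W X
  top : E X b
  tri : ∀ U, E U b → ∀ V, E V b → Subs E U V ∨ Subs E V U ∨ ∀ z, ¬ (E z U ∧ E z V)

theorem exists_topology (hE : IsZF E) (X b : M) : ∃ τ, ∀ U, E U τ ↔ OpenB E X b U := by
  obtain ⟨P, hP⟩ := hE.powerset X
  obtain ⟨τ, hτ⟩ := hE.separation (fOpenB 1 2 0) (push X (push b fun _ => X)) P
  refine ⟨τ, fun U => ?_⟩
  rw [hτ, sat_fOpenB]
  simp only [push_zero, push_one, push_two]
  exact ⟨fun h => h.2, fun h => ⟨(hP U).2 h.1, h⟩⟩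

section top
variable {X b τ : M}

theorem isTopology_of (hb : BaseHyp E X b) (hτ : ∀ U, E U τ ↔ OpenB E X b U) :
    IsTopology E X τ := by
  refine ⟨fun U hU => ((hτ U).1 hU).1, fun e he => (hτ e).2 ⟨fun z hz => absurd hz (he z),
    fun z hz => absurd hz (he z)⟩, (hτ X).2 ⟨fun z hz => hz, fun z hz => ⟨X, hb.top, hz,
      fun z hz => hz⟩⟩, ?_, ?_⟩
  · intro S hS u hu
    refine (hτ u).2 ⟨fun z hz => ?_, fun z hz => ?_⟩
    · obtain ⟨U, hU, hzU⟩ := (hu z).1 hz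
      exact ((hτ U).1 (hS U hU)).1 z hzU
    · obtain ⟨U, hU, hzU⟩ := (hu z).1 hz
      obtain ⟨W, hW, hzW, hWU⟩ := ((hτ U).1 (hS U hU)).2 z hzU
      exact ⟨W, hW, hzW, fun y hy => (hu y).2 ⟨U, hU, hWU y hy⟩⟩
  · intro U V hU hV w hw
    refine (hτ w).2 ⟨fun z hz => ((hτ U).1 hU).1 z ((hw z).1 hz).1, fun z hz => ?_⟩
    obtain ⟨hzU, hzV⟩ := (hw z).1 hz
    obtain ⟨W, hW, hzW, hWU⟩ := ((hτ U).1 hU).2 z hzU
    obtain ⟨W', hW', hzW', hWV⟩ := ((hτ V).1 hV).2 z hzV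
    rcases hb.tri W hW W' hW' with h | h | h
    · exact ⟨W, hW, hzW, fun y hy => (hw y).2 ⟨hWU y hy, hWV y (h y hy)⟩⟩
    · exact ⟨W', hW', hzW', fun y hy => (hw y).2 ⟨hWU y (h y hy), hWV y hy⟩⟩
    · exact absurd ⟨hzW, hzW'⟩ (h z)

theorem base_open (hb : BaseHyp E X b) (hτ : ∀ U, E U τ ↔ OpenB E X b U) : Subs E b τ :=
  fun W hW => (hτ W).2 ⟨hb.sub W hW, fun x hx => ⟨W, hW, hx, fun _ h => h⟩⟩

theorem isBase_of (hb : BaseHyp E X b) (hτ : ∀ U, E U τ ↔ OpenB E X b U) : IsBase E τ b :=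
  ⟨base_open hb hτ, fun U hU => ((hτ U).1 hU).2⟩

theorem isHausdorff_of (hb : BaseHyp E X b) (hτ : ∀ U, E U τ ↔ OpenB E X b U)
    (h : ∀ x, E x X → ∀ y, E y X → x ≠ y → ∃ U V, E U b ∧ E V b ∧ E x U ∧ E y V ∧
      ∀ z, ¬ (E z U ∧ E z V)) : IsHausdorff E X τ := by
  intro x y hx hy hne
  obtain ⟨U, V, hU, hV, hxU, hyV, hd⟩ := h x hx y hy hne
  exact ⟨U, V, base_open hb hτ U hU, base_open hb hτ V hV, hxU, hyV, hd⟩

theorem isCompactSpace_of (hτ : ∀ U, E U τ ↔ OpenB E X b U)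
    (h : ∀ S, (∀ V, E V S → OpenB E X b V) → Cov E S X → FC E S X) : IsCompactSpace E X τ := by
  intro S hS hcov
  exact h S (fun V hV => (hτ V).1 (hS V hV)) hcov

theorem wlb_of (hE : IsZF E) (hb : BaseHyp E X b) (hτ : ∀ U, E U τ ↔ OpenB E X b U) (h : IsWeaklyLoeb E X τ) :
    ∃ f, ∀ C, ClB E X b C → Pick E f C := by
  obtain ⟨A, f, hA, hf, hfC⟩ := h
  refine ⟨f, fun C hC => ?_⟩
  have hCA : E C A := by
    refine (hA C).2 ⟨⟨hC.1, ?_⟩, hC.2.1⟩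
    obtain ⟨U, hU⟩ := hE.separation (neg (mem 0 1)) (fun _ => C) X
    simp only [sat_neg, sat_mem, push_zero, push_one] at hU
    refine ⟨U, (hτ U).2 ⟨fun z hz => ((hU z).1 hz).1, fun x hx => ?_⟩, hU⟩
    obtain ⟨hxX, hxC⟩ := (hU x).1 hx
    obtain ⟨W, hW, hxW, hd⟩ := hC.2.2 x hxX hxC
    exact ⟨W, hW, hxW, fun z hz => (hU z).2 ⟨hb.sub W hW z hz, fun hzC => hd z ⟨hz, hzC⟩⟩⟩
  obtain ⟨y, hy, hy'⟩ := hf.2 C hCA
  obtain ⟨h1, h2, h3⟩ := hfC C y hy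
  exact ⟨y, hy, hy', h1, h2, h3⟩

end top

end Pool.Agent.SymZF
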