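import Pool.Agent.SymZF.Space1
import Pool.Agent.SymZF.Topo

/-!
# The base in the models
-/

set_option autoImplicit false

namespace Pool.Agent.SymZF

open Nm Fm SymSys

section gen
variable {B : Type} [CompleteBooleanAlgebra B] (S : SymSys B)

namespace SymSys

variable {S}

theorem sat_push_cls (U : Uf B) (φ : Fm) (x : LNm S.HS) {v : ℕ → Nm B} (hv : ∀ i, S.HS (v i)) :
    Sat (Mem U) φ (push (cls U x) (fun i => S.Cl U (v i) (hv i))) ↔
      U.T (bval S.HS φ (push x.1 v)) := by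
  have e1 := push_map (cls U) x (fun i => (⟨v i, loc_of _ _ (hv i)⟩ : LNm S.HS))
  have e2 := push_map (fun z : LNm S.HS => z.1) x (fun i => (⟨v i, loc_of _ _ (hv i)⟩ : LNm S.HS))
  have h := los U S.hne φ (push x (fun i => (⟨v i, loc_of _ _ (hv i)⟩ : LNm S.HS)))
  rw [← e1, ← e2] at h
  exact h

/-- bounded quantification over a name reduces to its indices -/
theorem forall_mem (U : Uf B) {y : Nm B} (hy : S.HS y) (φ : Fm) {v : ℕ → Nm B}
    (hv : ∀ i, S.HS (v i)) (h : ∀ i, y.vl i ≤ bval S.HS φ (push (y.el i) v)) (m : S.M U)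
    (hm : Mem U m (S.Cl U y hy)) :
    Sat (Mem U) φ (push m (fun i => S.Cl U (v i) (hv i))) := by
  obtain ⟨x, rfl⟩ := cls_surj U m
  rw [sat_push_cls]
  have key : Nm.mem x.1 y ≤ bval S.HS φ (push x.1 v) := by
    rw [Nm.mem]
    refine iSup_le fun i => ?_
    exact (bval_cong_push S.HS φ v).le (x := y.el i) (by rw [beq_comm]; exact inf_le_right)
      (inf_le_left.trans (h i))
  exact U.mono key hm

/-- same, the indices being treated in all quotients -/
theorem forall_mem' (U : Uf B) {y : Nm B} (hy : S.HS y) (φ : Fm) {v : ℕ → Nm B}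
    (hv : ∀ i, S.HS (v i)) (h : ∀ i, ∀ U' : Uf B,
      Sat (Mem U') φ (fun k => S.Cl U' (push (y.el i) v k) (hs_push (hy.el S i) hv k)))
    (m : S.M U) (hm : Mem U m (S.Cl U y hy)) :
    Sat (Mem U) φ (push m (fun i => S.Cl U (v i) (hv i))) :=
  forall_mem U hy φ hv (fun i => le_bval (hs_push (hy.el S i) hv) fun U' _ => h i U') m hm

/-- if `φ` holds at all hereditarily symmetric names in all quotients, it holds everywhere -/
theorem sat_all_of (U : Uf B) (φ : Fm) (h : ∀ (v : ℕ → Nm B) (hv : ∀ i, S.HS (v i)) (U' : Uf B),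
      Sat (Mem U') φ (fun k => S.Cl U' (v k) (hv k))) (v : ℕ → S.M U) : Sat (Mem U) φ v :=
  sat_of_bval_top U S.hne φ
    (fun v hv => top_le_iff.1 (le_bval hv fun U' _ => h v hv U')) v

/-- external finiteness from an equipotence with a standard number -/
theorem finite_of_encard_le {M : Type*} {E : M → M → Prop} {m : M} {k : ℕ}
    (h : {z | E z m}.encard ≤ k) : {z | E z m}.Finite :=
  Set.finite_of_encard_le_coe h

theorem isFinite_union (U : Uf B) (a b c : S.M U) (ha : IsFinite (Mem U) a)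
    (hb : IsFinite (Mem U) b) (hc : ∀ z, Mem U z c ↔ Mem U z a ∨ Mem U z b) :
    IsFinite (Mem U) c := by
  have key : ∀ v : ℕ → Nm B, (∀ i, S.HS (v i)) → bval S.HS (imp (fFinite 0) (imp (fFinite 1)
      (imp (all (iff (mem 0 3) (or (mem 0 1) (mem 0 2)))) (fFinite 2)))) v = ⊤ := by
    intro v hv
    rw [bval_imp, bval_imp, himp_himp, himp_eq_top_iff]
    generalize hA : bval S.HS (fFinite 0) v = A
    generalize hB : bval S.HS (fFinite 1) v = A'
    have hA' := S.bval_finite_le 0 hv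
    have hB' := S.bval_finite_le 1 hv
    rw [hA] at hA'
    rw [hB] at hB'
    have e1 : A ⊓ A' ≤ ⨆ k, bval S.HS (fEquip 0 (0 + 1)) (push (nNat k) v) :=
      inf_le_left.trans hA'
    refine le_of_le_iSup e1 fun k => ?_
    have e2 : A ⊓ A' ⊓ bval S.HS (fEquip 0 (0 + 1)) (push (nNat k) v) ≤
        ⨆ k, bval S.HS (fEquip 0 (1 + 1)) (push (nNat k) v) :=
      inf_le_left.trans (inf_le_right.trans hB')
    refine le_of_le_iSup e2 fun k' => ?_
    refine le_bval hv fun U' hU' => ?_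
    simp only [Uf.T_inf] at hU'
    obtain ⟨⟨-, h1⟩, h2⟩ := hU'
    rw [← sat_iff_T U' _ (hs_push (S.hs_nNat k) hv), sat_fEquip] at h1
    rw [← sat_iff_T U' _ (hs_push (S.hs_nNat k') hv), sat_fEquip] at h2
    have f1 := finite_of_encard_le (S.encard_le_of_equip U' k h1)
    have f2 := finite_of_encard_le (S.encard_le_of_equip U' k' h2)
    simp only [sat_imp, sat_all, sat_iff, sat_mem, sat_or, sat_fFinite]
    intro hz
    refine isFinite_of_finite (S.isZF U') (S.exists_omega U') ((f1.union f2).subset ?_)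
    intro z hzc
    exact (hz z).1 hzc
  have h := sat_of_bval_top U S.hne _ key (push a (push b (push c fun _ => c)))
  simp only [sat_imp, sat_all, sat_iff, sat_mem, sat_or, sat_fFinite, push_zero, push_one,
    push_two, push_three] at h
  exact h ha hb hc

/-- a name with a finite index type is externally finite -/
theorem finite_of_finite_idx (U : Uf B) {y : Nm B} (hy : S.HS y) [Finite y.idx] :
    {m | Mem U m (S.Cl U y hy)}.Finite := by
  refine (Set.finite_range fun i => S.Cl U (y.el i) (hy.el S i)).subset ?_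
  intro m hm
  obtain ⟨x, rfl⟩ := cls_surj U m
  have hm' : U.T (⨆ i, y.vl i ⊓ beq x.1 (y.el i)) := hm
  rw [Uf.T_iSup_finite] at hm'
  obtain ⟨i, hi⟩ := hm'
  refine ⟨i, ?_⟩
  rw [Uf.T_inf] at hi
  exact ((S.cls_eq_Cl U x (hy.el S i)).2 hi.2).symm

end SymSys

end gen

/-- the assignment `X, b` -/
noncomputable def vXb : ℕ → Nm CB := push (ww 0) (push bb e0)

theorem hs_vXb : ∀ i, SS.HS (vXb i) := hs_push (hs_ww 0) (hs_push hs_bb SS.hs_e0)

noncomputable abbrev mX (U : Uf CB) : SS.M U := SS.Cl U (ww 0) (hs_ww 0)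
noncomputable abbrev mb (U : Uf CB) : SS.M U := SS.Cl U bb hs_bb

theorem hs_bbel (i : bb.idx) : SS.HS (bb.el i) := hs_bb.el SS i

theorem tri_Cl (U : Uf CB) {x y : Nm CB} (hx : SS.HS x) (hy : SS.HS y) (h : Tri x y) :
    Subs (Mem U) (SS.Cl U x hx) (SS.Cl U y hy) ∨ Subs (Mem U) (SS.Cl U y hy) (SS.Cl U x hx) ∨
      ∀ z, ¬ (Mem U z (SS.Cl U x hx) ∧ Mem U z (SS.Cl U y hy)) := by
  rcases h with h | h | h
  · exact Or.inl (SS.subs_Cl U hx hy h)
  · exact Or.inr (Or.inl (SS.subs_Cl U hy hx h))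
  · refine Or.inr (Or.inr ?_)
    rintro m ⟨h1, h2⟩
    obtain ⟨z, rfl⟩ := cls_surj U m
    exact U.bot (U.mono (h z.1) (U.inf h1 h2))

theorem disj_Cl (U : Uf CB) {x y : Nm CB} (hx : SS.HS x) (hy : SS.HS y)
    (h : ∀ z, Nm.mem z x ⊓ Nm.mem z y ≤ ⊥) :
      ∀ z, ¬ (Mem U z (SS.Cl U x hx) ∧ Mem U z (SS.Cl U y hy)) := by
  rintro m ⟨h1, h2⟩
  obtain ⟨z, rfl⟩ := cls_surj U m
  exact U.bot (U.mono (h z.1) (U.inf h1 h2))

theorem baseHyp (U : Uf CB) : BaseHyp (Mem U) (mX U) (mb U) where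
  sub := by
    intro W hW
    have h := forall_mem' U hs_bb (fSubs 0 1) hs_vXb (fun i U' => by
      rw [sat_fSubs]
      exact SS.subs_Cl U' (hs_bbel i) (hs_ww 0) (bb_le_X i)) W hW
    rw [sat_fSubs] at h
    exact h
  top := by
    rw [mem_Cl, mem_ww_bb]
    exact U.top
  tri := by
    intro W hW
    have h := forall_mem' U hs_bb (all (imp (Fm.mem 0 3) (Fm.or (fSubs 1 0) (Fm.or (fSubs 0 1)
      (all (neg (Fm.and (Fm.mem 0 2) (Fm.mem 0 1))))))) ) hs_vXb (fun i U' => by
      rw [sat_all]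
      intro V
      rw [sat_imp, sat_mem]
      intro hV
      have h2 := forall_mem' U' hs_bb (Fm.or (fSubs 1 0) (Fm.or (fSubs 0 1)
        (all (neg (Fm.and (Fm.mem 0 2) (Fm.mem 0 1)))))) (hs_push (hs_bbel i) hs_vXb)
        (fun j U'' => by
          simp only [sat_or, sat_fSubs, sat_all, sat_neg, sat_and, sat_mem]
          exact tri_Cl U'' (hs_bbel i) (hs_bbel j) (bb_tri i j)) V hV
      exact h2) W hW
    simp only [sat_or, sat_fSubs, sat_all, sat_neg, sat_and, sat_mem, sat_imp] at h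
    exact h

end Pool.Agent.SymZF
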