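import Pool.Agent.SymZF.Space2

/-!
# The Hausdorff property and the cuf property of the base
-/

set_option autoImplicit false

namespace Pool.Agent.SymZF

open Nm Fm SymSys

theorem zmod_ne_succ (j : ZMod 2) : j ≠ j + 1 := by revert j; decide

/-! ### Hausdorff -/

/-- points of the space -/
theorem hs_wwel (i : (ww 0).idx) : SS.HS ((ww 0).el i) := (hs_ww 0).el SS i

/-- `U` and `V` separate `x` and `y`. Variables: `y = 0`, `x = 1`, `X = 2`, `b = 3`. -/
def fSepar : Fm :=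
  ex (ex (Fm.and (Fm.mem 1 5) (Fm.and (Fm.mem 0 5) (Fm.and (Fm.mem 3 1) (Fm.and (Fm.mem 2 0)
    (all (neg (Fm.and (Fm.mem 0 2) (Fm.mem 0 1)))))))))

theorem sat_fSepar {M : Type*} {E : M → M → Prop} (v : ℕ → M) :
    Sat E fSepar v ↔ ∃ U V, E U (v 3) ∧ E V (v 3) ∧ E (v 1) U ∧ E (v 0) V ∧
      ∀ z, ¬ (E z U ∧ E z V) := by
  simp [fSepar]

theorem separ_of_disj {p : CB} {x y a b : Nm CB} (hx : SS.HS x) (hy : SS.HS y) (ha : SS.HS a)
    (hb : SS.HS b) (hab : Nm.mem a bb = ⊤) (hbb : Nm.mem b bb = ⊤) (hxa : p ≤ Nm.mem x a)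
    (hyb : p ≤ Nm.mem y b) (hd : ∀ z, Nm.mem z a ⊓ Nm.mem z b ≤ ⊥) :
    p ≤ bval SS.HS fSepar (push y (push x vXb)) := by
  refine le_bval (hs_push hy (hs_push hx hs_vXb)) fun U hU => ?_
  rw [sat_fSepar]
  refine ⟨SS.Cl U a ha, SS.Cl U b hb, ?_, ?_, ?_, ?_, disj_Cl U ha hb hd⟩
  · show Mem U (SS.Cl U a ha) (SS.Cl U bb hs_bb)
    rw [mem_Cl, hab]; exact U.top
  · show Mem U (SS.Cl U b hb) (SS.Cl U bb hs_bb)
    rw [mem_Cl, hbb]; exact U.top
  · exact U.mono hxa hU
  · exact U.mono hyb hU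

theorem mem_pt_cyl_nil {n : ℕ} (F : PtI n) : Nm.mem (pt n F.1) (cyl n []) = ⊤ := by
  rw [cyl_nil, mem_pt_kk]

theorem mem_pt_cyl {n : ℕ} (F : PtI n) (σ : List (ZMod 2)) :
    Nm.mem (pt n F.1) (cyl n σ) = Ph n σ (pt n F.1) := by
  rw [mem_cyl, mem_pt_kk, top_inf_eq]

theorem mem_nEmpty_ww (n : ℕ) : Nm.mem nEmpty (ww n) = ⊤ := by
  rw [mem_ww, beq_refl, top_sup_eq]

theorem separ_pt_pt {n : ℕ} (F G : PtI n) :
    (beq (pt n F.1) (pt n G.1))ᶜ ≤ bval SS.HS fSepar (push (pt n G.1) (push (pt n F.1) vXb)) := by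
  refine (compl_beq_pt_le n F.2.1 G.2.1).trans ?_
  refine iSup_le fun m => iSup_le fun j => ?_
  have h1 : F.1 m j ⊓ G.1 m (j + 1) ≤
      ⨆ σ : {σ : List (ZMod 2) // σ.length = m}, Ph n σ.1 (pt n F.1) := by
    rw [Ph_total]; exact le_top
  refine le_of_le_iSup h1 fun σ => ?_
  have h2 : F.1 m j ⊓ G.1 m (j + 1) ⊓ Ph n σ.1 (pt n F.1) ≤
      ⨆ σ : {σ : List (ZMod 2) // σ.length = m}, Ph n σ.1 (pt n G.1) := by
    rw [Ph_total]; exact le_top
  refine le_of_le_iSup h2 fun σ' => ?_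
  refine separ_of_disj (hs_pt F) (hs_pt G) (hs_cyl n (j :: σ.1)) (hs_cyl n ((j + 1) :: σ'.1))
    (mem_cyl_bb _ _) (mem_cyl_bb _ _) ?_ ?_ ?_
  · rw [mem_pt_cyl, Ph, mem_xx_pt, σ.2]
    exact le_inf (inf_le_left.trans (inf_le_left.trans inf_le_left))
      (inf_le_left.trans inf_le_right)
  · rw [mem_pt_cyl, Ph, mem_xx_pt, σ'.2]
    exact le_inf (inf_le_left.trans (inf_le_left.trans inf_le_right)) inf_le_right
  · intro z
    have hij : j ≠ j + 1 := zmod_ne_succ j
    rw [mem_cyl_cons, mem_cyl_cons, σ.2, σ'.2]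
    refine le_trans ?_ (xx_excl (n := n) (m := m) hij z)
    exact le_inf (inf_le_left.trans (inf_le_left.trans (cyl_le_kk _ _ _)))
      (le_inf (inf_le_left.trans inf_le_right) (inf_le_right.trans inf_le_right))

theorem ww_cyl_disj (n : ℕ) (z : Nm CB) : Nm.mem z (ww (n + 1)) ⊓ Nm.mem z (cyl n []) ≤ ⊥ := by
  rw [cyl_nil, inf_comm]
  exact kk_ww_disj (Nat.lt_succ_self n) z

theorem separ_idx (i j : (ww 0).idx) :
    (beq ((ww 0).el i) ((ww 0).el j))ᶜ ≤
      bval SS.HS fSepar (push ((ww 0).el j) (push ((ww 0).el i) vXb)) := by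
  rcases i with _ | ⟨⟨n, hn⟩, F⟩ <;> rcases j with _ | ⟨⟨n', hn'⟩, G⟩
  · show (beq nEmpty nEmpty)ᶜ ≤ _
    rw [beq_refl, compl_top]; exact bot_le
  · show _ ≤ bval SS.HS fSepar (push (pt n' G.1) (push nEmpty vXb))
    refine separ_of_disj SS.hs_nEmpty (hs_pt G) (hs_ww (n' + 1)) (hs_cyl n' []) (mem_ww_bb _)
      (mem_cyl_bb _ _) ?_ ?_ (ww_cyl_disj n')
    · rw [mem_nEmpty_ww]; exact le_top
    · rw [mem_pt_cyl_nil]; exact le_top
  · show _ ≤ bval SS.HS fSepar (push nEmpty (push (pt n F.1) vXb))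
    refine separ_of_disj (hs_pt F) SS.hs_nEmpty (hs_cyl n []) (hs_ww (n + 1)) (mem_cyl_bb _ _)
      (mem_ww_bb _) ?_ ?_ (fun z => by rw [inf_comm]; exact ww_cyl_disj n z)
    · rw [mem_pt_cyl_nil]; exact le_top
    · rw [mem_nEmpty_ww]; exact le_top
  · by_cases h : n = n'
    · subst h
      exact separ_pt_pt F G
    · show _ ≤ bval SS.HS fSepar (push (pt n' G.1) (push (pt n F.1) vXb))
      refine separ_of_disj (hs_pt F) (hs_pt G) (hs_cyl n []) (hs_cyl n' []) (mem_cyl_bb _ _)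
        (mem_cyl_bb _ _) ?_ ?_ (fun z => ?_)
      · rw [mem_pt_cyl_nil]; exact le_top
      · rw [mem_pt_cyl_nil]; exact le_top
      · rw [cyl_nil, cyl_nil]; exact kk_disj h z

theorem ww_vl (n : ℕ) (i : (ww n).idx) : (ww n).vl i = ⊤ := rfl

theorem hausdorff_base (U : Uf CB) : ∀ x, Mem U x (mX U) → ∀ y, Mem U y (mX U) → x ≠ y →
    ∃ V W, Mem U V (mb U) ∧ Mem U W (mb U) ∧ Mem U x V ∧ Mem U y W ∧
      ∀ z, ¬ (Mem U z V ∧ Mem U z W) := by
  intro x hx
  have h := forall_mem' U (hs_ww 0) (all (imp (Fm.mem 0 2) (imp (neg (Fm.eq 1 0)) fSepar)))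
    hs_vXb (fun i U' => by
      rw [sat_all]
      intro V
      rw [sat_imp, sat_mem]
      intro hV
      have h2 := forall_mem U' (hs_ww 0) (imp (neg (Fm.eq 1 0)) fSepar)
        (hs_push (hs_wwel i) hs_vXb)
        (fun j => by
          rw [ww_vl, bval_imp, bval_neg, bval_eq, top_le_iff, himp_eq_top_iff]
          exact separ_idx i j) V hV
      exact h2) x hx
  simp only [sat_imp, sat_neg, sat_eq, sat_mem, sat_all, sat_fSepar, push_zero, push_one,
    push_two, push_three] at h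
  exact h

/-! ### The base is a cuf set -/

noncomputable abbrev mf (U : Uf CB) : SS.M U := SS.Cl U ff hs_ff
noncomputable abbrev mw (U : Uf CB) : SS.M U := SS.Cl U nOmega SS.hs_nOmega

theorem opair_nOPair (U : Uf CB) {k : ℕ} {x y : SS.M U}
    (h : IsOPair (Mem U) x y (SS.Cl U (nOPair (nNat k) (bbk k))
      (hs_nOPair (SS.hs_nNat k) (hs_bbk k)))) :
    x = SS.Cl U (nNat k) (SS.hs_nNat k) ∧ y = SS.Cl U (bbk k) (hs_bbk k) :=
  opair_inj h (SS.isOPair_Cl U (SS.hs_nNat k) (hs_bbk k) _)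

theorem mem_ff_top (k : ℕ) : Nm.mem (nOPair (nNat k) (bbk k)) ff = ⊤ := by
  rw [mem_ff, eq_top_iff]
  exact le_iSup_of_le k (beq_refl _).ge

theorem maps_ff (U : Uf CB) (k : ℕ) :
    Maps (Mem U) (mf U) (SS.Cl U (nNat k) (SS.hs_nNat k)) (SS.Cl U (bbk k) (hs_bbk k)) :=
  ⟨_, SS.isOPair_Cl U (SS.hs_nNat k) (hs_bbk k) (hs_nOPair (SS.hs_nNat k) (hs_bbk k)), by
    rw [mem_Cl, mem_ff_top]; exact U.top⟩

/-- elements of `ff`, general principle -/
theorem ff_forall (U : Uf CB) (φ : Fm) {v : ℕ → Nm CB} (hv : ∀ i, SS.HS (v i))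
    (h : ∀ (k : ℕ) (U' : Uf CB), Sat (Mem U') φ (push (SS.Cl U' (bbk k) (hs_bbk k))
      (push (SS.Cl U' (nNat k) (SS.hs_nNat k)) (fun i => SS.Cl U' (v i) (hv i)))))
    (x y : SS.M U) (hxy : Maps (Mem U) (mf U) x y) :
    Sat (Mem U) φ (push y (push x (fun i => SS.Cl U (v i) (hv i)))) := by
  obtain ⟨p, hp, hpf⟩ := hxy
  have h1 := forall_mem' U hs_ff (all (all (imp (fOPair 1 0 2) (ren (lift (lift (· + 1))) φ)))) hv
    (fun (k : ℕ) U' => by
      simp only [sat_all, sat_imp, sat_fOPair, push_zero, push_one, push_two]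
      intro x y hxy
      obtain ⟨rfl, rfl⟩ := opair_nOPair U' hxy
      rw [sat_ren]
      have e : (fun i => push (SS.Cl U' (bbk k) (hs_bbk k))
          (push (SS.Cl U' (nNat k) (SS.hs_nNat k))
            (fun k_1 => SS.Cl U' (push (ff.el k) v k_1) (hs_push (hs_ff.el SS k) hv k_1)))
          (lift (lift (· + 1)) i)) = push (SS.Cl U' (bbk k) (hs_bbk k))
            (push (SS.Cl U' (nNat k) (SS.hs_nNat k)) (fun i => SS.Cl U' (v i) (hv i))) := by
        funext i
        rcases i with _ | _ | i <;> rfl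
      rw [e]
      exact h k U') p hpf
  simp only [sat_all, sat_imp, sat_fOPair, push_zero, push_one, push_two] at h1
  have h2 := h1 x y hp
  rw [sat_ren] at h2
  have e : (fun i => push y (push x (push p (fun i => SS.Cl U (v i) (hv i))))
      (lift (lift (· + 1)) i)) = push y (push x (fun i => SS.Cl U (v i) (hv i))) := by
    funext i
    rcases i with _ | _ | i <;> rfl
  rwa [e] at h2

theorem bbk_le_bb (k : ℕ) (z : Nm CB) : Nm.mem z (bbk k) ≤ Nm.mem z bb := by
  rw [mem_bbk, mem_bb]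
  refine sup_le_sup (iSup_le fun p => ?_) (iSup_le fun n => ?_)
  · exact le_iSup (fun p : ℕ × List (ZMod 2) => beq z (cyl p.1 p.2)) (p.1.1, p.2.1)
  · exact le_iSup (fun n => beq z (ww n)) n.1

theorem mem_bbel_bbk (i : bb.idx) : ∃ k, Nm.mem (bb.el i) (bbk k) = ⊤ := by
  rcases i with ⟨n, σ⟩ | n
  · refine ⟨max n σ.length, ?_⟩
    rw [mem_bbk, eq_top_iff]
    refine le_sup_of_le_left (le_iSup_of_le (⟨n, le_max_left _ _⟩, ⟨σ, le_max_right _ _⟩) ?_)
    exact (beq_refl _).ge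
  · refine ⟨n, ?_⟩
    rw [mem_bbk, eq_top_iff]
    exact le_sup_of_le_right (le_iSup_of_le ⟨n, le_rfl⟩ (beq_refl _).ge)

theorem finite_bbk_idx (k : ℕ) : Finite (bbk k).idx := by
  have h1 : Finite {n : ℕ // n ≤ k} := (Set.finite_Iic k).to_subtype
  have h2 : Finite {σ : List (ZMod 2) // σ.length ≤ k} :=
    (List.finite_length_le (ZMod 2) k).to_subtype
  show Finite (({n : ℕ // n ≤ k} × {σ : List (ZMod 2) // σ.length ≤ k}) ⊕ {n : ℕ // n ≤ k})
  infer_instance

theorem isFinite_bbk (U : Uf CB) (k : ℕ) : IsFinite (Mem U) (SS.Cl U (bbk k) (hs_bbk k)) := by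
  have := finite_bbk_idx k
  exact isFinite_of_finite (SS.isZF U) (SS.exists_omega U) (finite_of_finite_idx U (hs_bbk k))

theorem isCuf_base (U : Uf CB) : IsCuf (Mem U) (mb U) := by
  refine ⟨mw U, mf U, SS.isOmega_omega U, ⟨?_, ?_⟩, ?_, ?_⟩
  · -- elements of `ff` are pairs
    intro p hp
    have h := forall_mem' U hs_ff (ex (ex (Fm.and (Fm.mem 1 3) (fOPair 1 0 2))))
      (v := push nOmega e0) (hs_push SS.hs_nOmega SS.hs_e0) (fun (k : ℕ) U' => by
        simp only [sat_ex, sat_and, sat_mem, sat_fOPair, push_zero, push_one, push_two,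
          push_three]
        refine ⟨SS.Cl U' (nNat k) (SS.hs_nNat k), SS.Cl U' (bbk k) (hs_bbk k), ?_, ?_⟩
        · show Mem U' (SS.Cl U' (nNat k) (SS.hs_nNat k)) (SS.Cl U' nOmega SS.hs_nOmega)
          rw [mem_Cl, mem_nNat_nOmega]; exact U'.top
        · exact SS.isOPair_Cl U' (SS.hs_nNat k) (hs_bbk k)
            (hs_nOPair (SS.hs_nNat k) (hs_bbk k))) p hp
    simp only [sat_ex, sat_and, sat_mem, sat_fOPair, push_zero, push_one, push_two,
      push_three] at h
    exact h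
  · -- functionality
    intro x hx
    have h := forall_mem' U SS.hs_nOmega (exU (fMaps 2 1 0))
      (v := push ff e0) (hs_push hs_ff SS.hs_e0) (fun (k : ℕ) U' => by
        rw [sat_exU]
        simp only [sat_fMaps, push_zero, push_one, push_two]
        refine ⟨SS.Cl U' (bbk k) (hs_bbk k), maps_ff U' k, fun y hy => ?_⟩
        have h1 := ff_forall U' (imp (Fm.eq 1 2) (Fm.eq 0 3)) (v := push (nNat k) (push (bbk k) e0))
          (hs_push (SS.hs_nNat k) (hs_push (hs_bbk k) SS.hs_e0)) (fun l U'' => by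
            simp only [sat_imp, sat_eq, push_zero, push_one, push_two, push_three]
            intro hkl
            by_cases h : l = k
            · subst h; rfl
            · have hkl' : SS.Cl U'' (nNat l) (SS.hs_nNat l) = SS.Cl U'' (nNat k) (SS.hs_nNat k) :=
                hkl
              rw [Cl_eq, beq_nNat_ne h] at hkl'
              exact absurd hkl' U''.bot) _ y hy
        simp only [sat_imp, sat_eq, push_zero, push_one, push_two, push_three] at h1
        exact h1 rfl) x hx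
    rw [sat_exU] at h
    simp only [sat_fMaps, push_zero, push_one, push_two] at h
    exact h
  · intro x y hxy
    have h := ff_forall U (fFinite 0) (v := e0) SS.hs_e0 (fun k U' => by
      rw [sat_fFinite]; exact isFinite_bbk U' k) x y hxy
    rw [sat_fFinite] at h
    exact h
  · intro z
    constructor
    · intro hz
      have h := forall_mem' U hs_bb (ex (ex (Fm.and (fMaps 3 1 0) (Fm.mem 2 0))))
        (v := push ff e0) (hs_push hs_ff SS.hs_e0) (fun i U' => by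
          simp only [sat_ex, sat_and, sat_mem, sat_fMaps, push_zero, push_one, push_two,
            push_three]
          obtain ⟨k, hk⟩ := mem_bbel_bbk i
          refine ⟨_, _, maps_ff U' k, ?_⟩
          show Mem U' (SS.Cl U' (bb.el i) (hs_bbel i)) (SS.Cl U' (bbk k) (hs_bbk k))
          rw [mem_Cl, hk]; exact U'.top) z hz
      simp only [sat_ex, sat_and, sat_mem, sat_fMaps, push_zero, push_one, push_two,
        push_three] at h
      exact h
    · rintro ⟨x, y, hxy, hz⟩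
      have h := ff_forall U (fSubs 0 2) (v := push bb e0) (hs_push hs_bb SS.hs_e0)
        (fun k U' => by
          rw [sat_fSubs]
          exact SS.subs_Cl U' (hs_bbk k) hs_bb (bbk_le_bb k)) x y hxy
      rw [sat_fSubs] at h
      exact h z hz

end Pool.Agent.SymZF
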