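import Pool.Agent.SymZF.Space3

/-!
# Compactness
-/

set_option autoImplicit false

namespace Pool.Agent.SymZF

open Nm Fm SymSys

section zf
variable {M : Type*} {E : M → M → Prop}

theorem FC_single (hE : IsZF E) (hw : ∃ w : M, IsOmega E w) {Z V W : M} (hV : E V Z)
    (hW : Subs E W V) : FC E Z W := by
  obtain ⟨T, hT, hfin⟩ := exists_finite_set hE hw {V} (Set.finite_singleton V)
  refine ⟨T, fun z hz => ?_, hfin, fun x hx => ⟨V, (hT V).2 rfl, hW x hx⟩⟩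
  rw [(hT z).1 hz]
  exact hV

theorem FC_mono {Z S S' : M} (h : Subs E S S') (h' : FC E Z S') : FC E Z S := by
  obtain ⟨T, h1, h2, h3⟩ := h'
  exact ⟨T, h1, h2, fun x hx => h3 x (h x hx)⟩

end zf

section gen
variable {B : Type} [CompleteBooleanAlgebra B] {S : SymSys B}

theorem FC_union (U : Uf B) {Z A A1 A2 : S.M U} (h1 : FC (Mem U) Z A1) (h2 : FC (Mem U) Z A2)
    (h : ∀ z, Mem U z A → Mem U z A1 ∨ Mem U z A2) : FC (Mem U) Z A := by
  obtain ⟨T1, hT1, hf1, hc1⟩ := h1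
  obtain ⟨T2, hT2, hf2, hc2⟩ := h2
  obtain ⟨T, hT⟩ := (S.isZF U).exists_union2 T1 T2
  refine ⟨T, fun z hz => ?_, SymSys.isFinite_union U T1 T2 T hf1 hf2 hT, fun x hx => ?_⟩
  · rcases (hT z).1 hz with h' | h'
    · exact hT1 z h'
    · exact hT2 z h'
  · rcases h x hx with h' | h'
    · obtain ⟨V, hV, hxV⟩ := hc1 x h'
      exact ⟨V, (hT V).2 (Or.inl hV), hxV⟩
    · obtain ⟨V, hV, hxV⟩ := hc2 x h'
      exact ⟨V, (hT V).2 (Or.inr hV), hxV⟩

theorem le_of_inf_compl_le_bot {a b : B} (h : a ⊓ bᶜ ≤ ⊥) : a ≤ b := by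
  rw [← disjoint_compl_right_iff, disjoint_iff, eq_bot_iff]
  exact h

/-- bounded existential quantification over a name reduces to its indices -/
theorem bval_ex_mem_le (D : Nm B → Prop) (φ : Fm) (v : ℕ → Nm B) (j : ℕ) :
    bval D (ex (Fm.and (Fm.mem 0 (j + 1)) φ)) v ≤
      ⨆ i, (v j).vl i ⊓ bval D φ (push ((v j).el i) v) := by
  rw [bval_ex]
  refine iSup_le fun y => ?_
  rw [bval_and, bval_mem, push_zero, push_succ]
  have h : Nm.mem y.1 (v j) ⊓ bval D φ (push y.1 v) ≤ ⨆ i, (v j).vl i ⊓ beq y.1 ((v j).el i) :=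
    inf_le_left
  refine le_of_le_iSup h fun i => le_iSup_of_le i (le_inf (inf_le_right.trans inf_le_left) ?_)
  exact (bval_cong_push D φ v).le (inf_le_right.trans inf_le_right)
    (inf_le_left.trans inf_le_right)

theorem act_bval_eq (φ : Fm) (g : S.G) {v w : ℕ → Nm B}
    (h : ∀ i, beq (S.actN g (v i)) (w i) = ⊤) :
    S.act g (bval S.HS φ v) = bval S.HS φ w := by
  rw [← S.bval_actN]
  exact bval_eq_of_top _ φ _ _ h

end gen

/-- value of: finitely many members of `Z` cover `A` -/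
noncomputable def Gam (Z A : Nm CB) : CB := bval SS.HS (fFC 0 1) (push Z (push A e0))

section Gam
variable {Z : Nm CB} (hZ : SS.HS Z)
include hZ

theorem gam_union {A A1 A2 : Nm CB} (hA : SS.HS A) (hA1 : SS.HS A1) (hA2 : SS.HS A2)
    (h : ∀ z, Nm.mem z A ≤ Nm.mem z A1 ⊔ Nm.mem z A2) : Gam Z A1 ⊓ Gam Z A2 ≤ Gam Z A := by
  refine le_bval (hs_push hZ (hs_push hA SS.hs_e0)) fun U hU => ?_
  rw [Uf.T_inf] at hU
  have h1 := (sat_iff_T U _ (hs_push hZ (hs_push hA1 SS.hs_e0))).2 hU.1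
  have h2 := (sat_iff_T U _ (hs_push hZ (hs_push hA2 SS.hs_e0))).2 hU.2
  rw [sat_fFC] at h1 h2 ⊢
  refine FC_union U h1 h2 ?_
  intro m hm
  obtain ⟨x, rfl⟩ := cls_surj U m
  have h3 := U.mono (h x.1) hm
  rw [Uf.T_sup] at h3
  exact h3

theorem gam_mono {A A1 : Nm CB} (hA : SS.HS A) (hA1 : SS.HS A1)
    (h : ∀ z, Nm.mem z A ≤ Nm.mem z A1) : Gam Z A1 ≤ Gam Z A := by
  have := gam_union hZ hA hA1 hA1 (fun z => (h z).trans le_sup_left)
  rwa [inf_idem] at this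

omit hZ in
theorem act_gam {g : Cant} {A : Nm CB} (h1 : beq (SS.actN g Z) Z = ⊤)
    (h2 : beq (SS.actN g A) A = ⊤) : SS.act g (Gam Z A) = Gam Z A := by
  refine act_bval_eq (S := SS) _ g fun i => ?_
  rcases i with _ | _ | i
  · exact h1
  · exact h2
  · show beq (SS.actN g nEmpty) nEmpty = ⊤
    rw [SS.actN_nEmpty, beq_refl]

end Gam

/-- hypothesis: `Z` is an open cover. Variables `Z = 0`, `X = 1`, `b = 2` -/
def fHyp : Fm := Fm.and (all (imp (Fm.mem 0 1) (fOpenB 2 3 0))) (fCov 0 1)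

/-- its value -/
noncomputable def PP (Z : Nm CB) : CB := bval SS.HS fHyp (push Z vXb)

theorem pick_base {Z x : Nm CB} (hZ : SS.HS Z) (hx : SS.HS x) (hxX : Nm.mem x (ww 0) = ⊤) :
    PP Z ≤ ⨆ i : bb.idx, Nm.mem x (bb.el i) ⊓ Gam Z (bb.el i) := by
  have hv := hs_push hZ (hs_push hx hs_vXb)
  have h1 : PP Z ≤ bval SS.HS (ex (Fm.and (Fm.mem 0 4) (Fm.and (Fm.mem 2 0) (fFC 1 0))))
      (push Z (push x vXb)) := by
    refine le_bval hv fun U hU => ?_
    have h2 := (sat_iff_T U _ (hs_push hZ hs_vXb)).2 hU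
    rw [fHyp, sat_and, sat_all, sat_fCov] at h2
    obtain ⟨ho, hc⟩ := h2
    obtain ⟨V, hV, hxV⟩ := hc (SS.Cl U x hx) (by
      show Mem U (SS.Cl U x hx) (SS.Cl U (ww 0) (hs_ww 0))
      rw [mem_Cl, hxX]; exact U.top)
    have h3 := ho V
    rw [sat_imp, sat_mem, sat_fOpenB] at h3
    obtain ⟨-, h4⟩ := h3 hV
    obtain ⟨W, hW, hxW, hWV⟩ := h4 _ hxV
    rw [sat_ex]
    refine ⟨W, ?_⟩
    rw [sat_and, sat_and, sat_mem, sat_mem, sat_fFC]
    exact ⟨hW, hxW, FC_single (SS.isZF U) (SS.exists_omega U) hV hWV⟩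
  refine h1.trans ((bval_ex_mem_le _ _ _ 3).trans ?_)
  show (⨆ i : bb.idx, bb.vl i ⊓ _) ≤ _
  refine iSup_mono fun i => ?_
  rw [bval_and]
  refine inf_le_right.trans (inf_le_inf le_rfl ?_)
  refine bval_le_bval (hs_push (hs_bbel i) hv)
    (hs_push hZ (hs_push (hs_bbel i) SS.hs_e0)) fun U h => ?_
  rw [sat_fFC] at h ⊢
  exact h

/-! ### One row -/

section row
variable (Z : Nm CB) (n : ℕ)

/-- the branch which is not finitely covered -/
noncomputable def vv : List (ZMod 2) → CB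
  | [] => ⊤
  | j :: σ => vv σ ⊓ (if j = 0 then (Gam Z (cyl n (0 :: σ)))ᶜ else Gam Z (cyl n (0 :: σ)))

theorem vv_zero (σ : List (ZMod 2)) :
    vv Z n (0 :: σ) = vv Z n σ ⊓ (Gam Z (cyl n (0 :: σ)))ᶜ := rfl

theorem vv_one (σ : List (ZMod 2)) :
    vv Z n (1 :: σ) = vv Z n σ ⊓ Gam Z (cyl n (0 :: σ)) := rfl

theorem vv_le (j : ZMod 2) (σ : List (ZMod 2)) : vv Z n (j :: σ) ≤ vv Z n σ := by
  rw [vv]; exact inf_le_left

theorem vv_sup (σ : List (ZMod 2)) : vv Z n (0 :: σ) ⊔ vv Z n (1 :: σ) = vv Z n σ := by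
  rw [vv_zero, vv_one, ← inf_sup_left, compl_sup_eq_top, inf_top_eq]

theorem vv_inf (σ : List (ZMod 2)) : vv Z n (0 :: σ) ⊓ vv Z n (1 :: σ) ≤ ⊥ := by
  rw [vv_zero, vv_one]
  calc _ ≤ (Gam Z (cyl n (0 :: σ)))ᶜ ⊓ Gam Z (cyl n (0 :: σ)) :=
        inf_le_inf inf_le_right inf_le_right
    _ = ⊥ := compl_inf_self _

theorem vv_disj : ∀ (σ σ' : List (ZMod 2)), σ.length = σ'.length → σ ≠ σ' →
    vv Z n σ ⊓ vv Z n σ' ≤ ⊥ := by
  intro σ
  induction σ with
  | nil =>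
    intro σ' hl hne
    exact absurd (List.length_eq_zero_iff.1 hl.symm).symm hne
  | cons i τ ih =>
    intro σ' hl hne
    cases σ' with
    | nil => simp at hl
    | cons j τ' =>
      have hl' : τ.length = τ'.length := by simpa using hl
      by_cases hτ : τ = τ'
      · subst hτ
        rcases zmod_cases i with rfl | rfl <;> rcases zmod_cases j with rfl | rfl
        · exact absurd rfl hne
        · exact vv_inf Z n τ
        · rw [inf_comm]; exact vv_inf Z n τ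
        · exact absurd rfl hne
      · exact (inf_le_inf (vv_le Z n i τ) (vv_le Z n j τ')).trans (ih τ' hl' hτ)

theorem vv_total (m : ℕ) : (⨆ σ : {σ : List (ZMod 2) // σ.length = m}, vv Z n σ.1) = ⊤ := by
  rw [eq_top_iff]
  induction m with
  | zero => exact le_iSup_of_le ⟨[], rfl⟩ le_rfl
  | succ m ih =>
    refine ih.trans (iSup_le fun σ => ?_)
    rw [← vv_sup]
    refine sup_le ?_ ?_
    · exact le_iSup_of_le ⟨0 :: σ.1, by simp [σ.2]⟩ le_rfl
    · exact le_iSup_of_le ⟨1 :: σ.1, by simp [σ.2]⟩ le_rfl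

/-- the coordinates of the point -/
noncomputable def FF (m : ℕ) (j : ZMod 2) : CB :=
  ⨆ σ : {σ : List (ZMod 2) // σ.length = m}, vv Z n (j :: σ.1)

theorem isPt_FF : IsPt (FF Z n) := by
  intro m
  constructor
  · rw [eq_bot_iff]
    have h1 : FF Z n m 0 ⊓ FF Z n m 1 ≤
      ⨆ σ : {σ : List (ZMod 2) // σ.length = m}, vv Z n (0 :: σ.1) := inf_le_left
    refine le_of_le_iSup h1 fun σ => ?_
    have h2 : FF Z n m 0 ⊓ FF Z n m 1 ⊓ vv Z n (0 :: σ.1) ≤
      ⨆ σ : {σ : List (ZMod 2) // σ.length = m}, vv Z n (1 :: σ.1) :=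
      inf_le_left.trans inf_le_right
    refine le_of_le_iSup h2 fun σ' => ?_
    refine le_trans ?_ (vv_disj Z n (0 :: σ.1) (1 :: σ'.1) (by simp [σ.2, σ'.2])
      (fun h => absurd (List.cons.inj h).1 (by decide)))
    exact le_inf (inf_le_left.trans inf_le_right) inf_le_right
  · rw [eq_top_iff, ← vv_total Z n m]
    refine iSup_le fun σ => ?_
    rw [← vv_sup]
    refine sup_le (le_sup_of_le_left ?_) (le_sup_of_le_right ?_)
    · exact le_iSup (fun σ : {σ : List (ZMod 2) // σ.length = m} => vv Z n (0 :: σ.1)) σ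
    · exact le_iSup (fun σ : {σ : List (ZMod 2) // σ.length = m} => vv Z n (1 :: σ.1)) σ

variable {Z}

theorem act_vv {g : Cant} (hg : ∀ m, Tail g n m 0) (h : beq (SS.actN g Z) Z = ⊤)
    (σ : List (ZMod 2)) : CB.act g (vv Z n σ) = vv Z n σ := by
  have hcyl : ∀ τ, CB.act g (Gam Z (cyl n τ)) = Gam Z (cyl n τ) := by
    intro τ
    refine act_gam h ?_
    have := actN_cyl (t := fun _ => 0) hg τ
    rwa [tw_zero] at this
  induction σ with
  | nil => exact map_top _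
  | cons j σ ih =>
    rw [vv, map_inf, ih]
    congr 1
    split_ifs
    · rw [map_compl, hcyl]
    · exact hcyl _

theorem symm_pt_FF (hZ : SS.HS Z) : SS.Symm (pt n (FF Z n)) := by
  obtain ⟨⟨e, a⟩, hs⟩ := hZ.symm
  classical
  refine ⟨(e, insert n a), fun g hg => ?_⟩
  have hg' := (mem_H _ g).1 hg
  have h0 : ∀ m, Tail g n m 0 := hg'.2.2 n (by simp)
  have hgZ : beq (SS.actN g Z) Z = ⊤ := hs g ((mem_H _ g).2
    ⟨hg'.1, hg'.2.1, fun n' hn' => hg'.2.2 n' (by simp [hn'])⟩)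
  have h1 := actN_pt (t := fun _ => 0) h0 (FF Z n)
  have h2 : (fun m j => CB.act g (FF Z n m (j + 0))) = FF Z n := by
    funext m j
    rw [add_zero, FF, OrderIso.map_iSup]
    exact iSup_congr fun σ => act_vv n h0 hgZ _
  rwa [h2] at h1

theorem Ph_le_vv (σ : List (ZMod 2)) : Ph n σ (pt n (FF Z n)) ≤ vv Z n σ := by
  induction σ with
  | nil => exact le_rfl
  | cons j σ ih =>
    rw [Ph, mem_xx_pt]
    have h1 : FF Z n σ.length j ⊓ Ph n σ (pt n (FF Z n)) ≤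
      ⨆ τ : {τ : List (ZMod 2) // τ.length = σ.length}, vv Z n (j :: τ.1) := inf_le_left
    refine le_of_le_iSup h1 fun τ => ?_
    by_cases h : τ.1 = σ
    · rw [h]; exact inf_le_right
    · refine le_trans ?_ ((vv_disj Z n τ.1 σ τ.2 h).trans bot_le)
      exact le_inf (inf_le_right.trans (vv_le Z n j τ.1))
        (inf_le_left.trans (inf_le_right.trans ih))

theorem qq_le (hZ : SS.HS Z) (σ : List (ZMod 2)) :
    (Gam Z (kk n))ᶜ ⊓ vv Z n σ ≤ (Gam Z (cyl n σ))ᶜ := by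
  induction σ with
  | nil =>
    refine inf_le_left.trans (compl_le_compl ?_)
    exact gam_mono hZ (hs_kk n) (hs_cyl n []) (fun z => by rw [cyl_nil])
  | cons j σ ih =>
    rcases zmod_cases j with rfl | rfl
    · rw [vv_zero]
      exact inf_le_right.trans inf_le_right
    · rw [le_compl_iff_disjoint_right, disjoint_iff_inf_le]
      have h1 : (Gam Z (kk n))ᶜ ⊓ vv Z n (1 :: σ) ⊓ Gam Z (cyl n (1 :: σ)) ≤
          (Gam Z (cyl n σ))ᶜ :=
        inf_le_left.trans ((inf_le_inf_left _ (vv_le Z n 1 σ)).trans ih)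
      have h2 : (Gam Z (kk n))ᶜ ⊓ vv Z n (1 :: σ) ⊓ Gam Z (cyl n (1 :: σ)) ≤
          Gam Z (cyl n σ) := by
        refine le_trans ?_ (gam_union hZ (hs_cyl n σ) (hs_cyl n (0 :: σ)) (hs_cyl n (1 :: σ))
          (cyl_le_children n σ))
        refine le_inf ?_ inf_le_right
        rw [vv_one]
        exact inf_le_left.trans (inf_le_right.trans inf_le_right)
      exact (le_inf h1 h2).trans_eq (compl_inf_self _)

theorem PP_le_kk (hZ : SS.HS Z) : PP Z ≤ Gam Z (kk n) := by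
  refine le_of_inf_compl_le_bot ?_
  let F : PtI n := ⟨FF Z n, isPt_FF Z n, symm_pt_FF n hZ⟩
  have hX : Nm.mem (pt n F.1) (ww 0) = ⊤ := by
    rw [eq_top_iff, ← mem_pt_kk F]
    exact kk_le_ww (Nat.zero_le n) _
  have h1 : PP Z ⊓ (Gam Z (kk n))ᶜ ≤
      ⨆ i : bb.idx, Nm.mem (pt n F.1) (bb.el i) ⊓ Gam Z (bb.el i) :=
    inf_le_left.trans (pick_base hZ (hs_pt F) hX)
  refine le_of_le_iSup h1 fun i => ?_
  have hk : PP Z ⊓ (Gam Z (kk n))ᶜ ⊓ (Nm.mem (pt n F.1) (bb.el i) ⊓ Gam Z (bb.el i)) ≤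
      Nm.mem (pt n F.1) (kk n) := by rw [mem_pt_kk]; exact le_top
  have hb : PP Z ⊓ (Gam Z (kk n))ᶜ ⊓ (Nm.mem (pt n F.1) (bb.el i) ⊓ Gam Z (bb.el i)) ≤
      Nm.mem (pt n F.1) (bb.el i) := inf_le_right.trans inf_le_left
  rcases i with ⟨n', σ⟩ | n'
  · by_cases h : n = n'
    · subst h
      have h2 : Nm.mem (pt n F.1) (cyl n σ) ≤ vv Z n σ := by
        rw [mem_pt_cyl]; exact Ph_le_vv n σ
      have h3 : PP Z ⊓ (Gam Z (kk n))ᶜ ⊓ (Nm.mem (pt n F.1) (cyl n σ) ⊓ Gam Z (cyl n σ)) ≤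
          (Gam Z (cyl n σ))ᶜ :=
        (le_inf (inf_le_left.trans inf_le_right) (inf_le_right.trans (inf_le_left.trans h2))).trans
          (qq_le n hZ σ)
      exact (le_inf h3 (inf_le_right.trans inf_le_right)).trans_eq (compl_inf_self _)
    · exact (le_inf hk (hb.trans (cyl_le_kk n' σ _))).trans (kk_disj h _)
  · rcases le_or_gt n' n with h | h
    · have h3 : PP Z ⊓ (Gam Z (kk n))ᶜ ⊓ (Nm.mem (pt n F.1) (ww n') ⊓ Gam Z (ww n')) ≤
          Gam Z (kk n) :=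
        inf_le_right.trans (inf_le_right.trans
          (gam_mono hZ (hs_kk n) (hs_ww n') (kk_le_ww h)))
      exact (le_inf (inf_le_left.trans inf_le_right) h3).trans_eq (compl_inf_self _)
    · exact (le_inf hk hb).trans (kk_ww_disj h _)

end row

theorem PP_le_ww {Z : Nm CB} (hZ : SS.HS Z) (n : ℕ) : PP Z ⊓ Gam Z (ww n) ≤ Gam Z (ww 0) := by
  induction n with
  | zero => exact inf_le_right
  | succ n ih =>
    refine le_trans (le_inf inf_le_left ?_) ih
    refine le_trans ?_ (gam_union hZ (hs_ww n) (hs_kk n) (hs_ww (n + 1)) (ww_le_succ n))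
    exact inf_le_inf_right _ (PP_le_kk n hZ)

theorem PP_le_X {Z : Nm CB} (hZ : SS.HS Z) : PP Z ≤ Gam Z (ww 0) := by
  refine le_of_le_iSup (pick_base hZ SS.hs_nEmpty (mem_nEmpty_ww 0)) fun i => ?_
  rcases i with ⟨n', σ⟩ | n'
  · refine le_trans ?_ bot_le
    rw [← nEmpty_kk n']
    exact inf_le_right.trans (inf_le_left.trans (cyl_le_kk n' σ _))
  · exact (inf_le_inf_left _ inf_le_right).trans (PP_le_ww hZ n')

theorem compact_base (U : Uf CB) : ∀ Z, (∀ V, Mem U V Z → OpenB (Mem U) (mX U) (mb U) V) →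
    Cov (Mem U) Z (mX U) → FC (Mem U) Z (mX U) := by
  have key : bval SS.HS (all (imp fHyp (fFC 0 1))) vXb = ⊤ := by
    refine bval_all_eq_top fun Z hZ => ?_
    rw [bval_imp, himp_eq_top_iff]
    refine (PP_le_X hZ).trans ?_
    refine bval_le_bval (hs_push hZ (hs_push (hs_ww 0) SS.hs_e0)) (hs_push hZ hs_vXb)
      fun U h => ?_
    rw [sat_fFC] at h ⊢
    exact h
  have h := (sat_iff_T U _ hs_vXb).2 (by rw [key]; exact U.top)
  simp only [fHyp, sat_all, sat_imp, sat_and, sat_fFC, sat_fCov, sat_mem, sat_fOpenB, push_zero,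
    push_one, push_two, push_three] at h
  intro Z h1 h2
  exact h Z ⟨h1, h2⟩

end Pool.Agent.SymZF
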