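import Pool.Agent.SymZF.Space4

/-!
# There is no weak Loeb function
-/

set_option autoImplicit false

namespace Pool.Agent.SymZF

open Nm Fm SymSys

/-! ### Twists -/

theorem tw_congr {t t' : ℕ → ZMod 2} : ∀ (σ : List (ZMod 2)),
    (∀ i < σ.length, t i = t' i) → tw t σ = tw t' σ
  | [], _ => rfl
  | j :: σ, h => by
    rw [tw, tw, h σ.length (by simp), tw_congr σ fun i hi => h i (by simp; omega)]

theorem exists_tw : ∀ (σ σ' : List (ZMod 2)), σ.length = σ'.length →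
    ∃ t : ℕ → ZMod 2, tw t σ' = σ
  | [], σ', h => ⟨fun _ => 0, by
      rw [List.length_eq_zero_iff.1 h.symm]; rfl⟩
  | j :: σ, [], h => by simp at h
  | j :: σ, j' :: σ', h => by
    have hl : σ.length = σ'.length := by simpa using h
    obtain ⟨t, ht⟩ := exists_tw σ σ' hl
    refine ⟨Function.update t σ'.length (j' + j), ?_⟩
    rw [tw, Function.update_self]
    congr 1
    · rw [← add_assoc, zmod_add_self, zero_add]
    · rw [← ht]
      refine tw_congr σ' fun i hi => ?_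
      rw [Function.update_of_ne (by omega)]

/-- the group element flipping the tails of row `n` -/
noncomputable def flip (n : ℕ) (t : ℕ → ZMod 2) (N : ℕ) : Cant :=
  fun c => if c.1 = n ∧ N ≤ c.2.2 then t c.2.1 else 0

theorem tail_flip (n : ℕ) (t : ℕ → ZMod 2) (N : ℕ) (m : ℕ) : Tail (flip n t N) n m (t m) :=
  ⟨N, fun k hk => by simp [flip, hk]⟩

theorem tail_flip_ne {n n' : ℕ} (h : n' ≠ n) (t : ℕ → ZMod 2) (N : ℕ) (m : ℕ) :
    Tail (flip n t N) n' m 0 := ⟨0, fun k _ => by simp [flip, h]⟩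

theorem flip_mem_H {e : Finset (ℕ × ℕ)} {a : Finset ℕ} {n : ℕ} (he : ∀ t ∈ e, t.1 ≠ n)
    (ha : n ∉ a) (t : ℕ → ZMod 2) (N : ℕ) : flip n t N ∈ SS.H (e, a) := by
  refine (mem_H _ _).2 ⟨fun n' m => ?_, fun c hc k => ?_, fun n' hn' m => ?_⟩
  · by_cases h : n' = n
    · subst h; exact ⟨_, tail_flip _ t N m⟩
    · exact ⟨0, tail_flip_ne h t N m⟩
  · simp [flip, he c hc]
  · exact tail_flip_ne (fun h => ha (by rw [← h]; exact hn')) t N m

theorem exists_flip_fix (F : Finset Co) (n : ℕ) (t : ℕ → ZMod 2) :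
    ∃ N, ∀ c ∈ F, flip n t N c = 0 := by
  refine ⟨F.sup (fun c => c.2.2) + 1, fun c hc => ?_⟩
  have h1 : c.2.2 ≤ F.sup (fun c => c.2.2) := Finset.le_sup (f := fun c : Co => c.2.2) hc
  have h2 : ¬ (F.sup (fun c => c.2.2) + 1 ≤ c.2.2) := by omega
  simp [flip, h2]

/-! ### The node is reached -/

/-- Variables `f = 0`, `K = 1`, `C = 2`: the value of `f` at `K` meets `C`. -/
def fMeet : Fm := ex (Fm.and (fMaps 1 2 0) (ex (Fm.and (Fm.mem 0 1) (Fm.mem 0 4))))

theorem sat_fMeet {M : Type*} {E : M → M → Prop} (v : ℕ → M) :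
    Sat E fMeet v ↔ ∃ y, Maps E (v 0) (v 1) y ∧ ∃ z, E z y ∧ E z (v 2) := by
  simp [fMeet]

section
variable (f : Nm CB) (n : ℕ)

/-- value of: the value of `f` at `kk n` meets `cyl n σ` -/
noncomputable def Th (σ : List (ZMod 2)) : CB :=
  bval SS.HS fMeet (push f (push (kk n) (push (cyl n σ) e0)))

/-- value of: `f` picks a finite non-empty subset of `kk n` -/
noncomputable def Pk : CB := bval SS.HS (fPick 0 1) (push f (push (kk n) e0))

variable {f}

theorem act_Th {g : Cant} {t : ℕ → ZMod 2} (hf : beq (SS.actN g f) f = ⊤)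
    (hg : ∀ m, Tail g n m (t m)) (σ : List (ZMod 2)) :
    CB.act g (Th f n σ) = Th f n (tw t σ) := by
  refine act_bval_eq (S := SS) _ g fun i => ?_
  rcases i with _ | _ | _ | i
  · exact hf
  · exact actN_kk fun m => ⟨t m, hg m⟩
  · exact actN_cyl hg σ
  · show beq (SS.actN g nEmpty) nEmpty = ⊤
    rw [SS.actN_nEmpty, beq_refl]

theorem kk_le_cyl (m : ℕ) (z : Nm CB) : Nm.mem z (kk n) ≤
    ⨆ σ : {σ : List (ZMod 2) // σ.length = m}, Nm.mem z (cyl n σ.1) := by
  induction m with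
  | zero => exact le_iSup_of_le ⟨[], rfl⟩ (by rw [cyl_nil])
  | succ m ih =>
    refine ih.trans (iSup_le fun σ => (cyl_le_children n σ.1 z).trans (sup_le ?_ ?_))
    · exact le_iSup (fun σ : {σ : List (ZMod 2) // σ.length = m + 1} => Nm.mem z (cyl n σ.1))
        ⟨0 :: σ.1, by simp [σ.2]⟩
    · exact le_iSup (fun σ : {σ : List (ZMod 2) // σ.length = m + 1} => Nm.mem z (cyl n σ.1))
        ⟨1 :: σ.1, by simp [σ.2]⟩

theorem finite_len (m : ℕ) : Finite {σ : List (ZMod 2) // σ.length = m} :=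
  (List.finite_length_eq (ZMod 2) m).to_subtype

theorem exists_mem_cyl (U : Uf CB) (m : ℕ) {z : SS.M U}
    (hz : Mem U z (SS.Cl U (kk n) (hs_kk n))) :
    ∃ σ : List (ZMod 2), σ.length = m ∧ Mem U z (SS.Cl U (cyl n σ) (hs_cyl n σ)) := by
  obtain ⟨x, rfl⟩ := cls_surj U z
  have h1 := U.mono (kk_le_cyl n m x.1) hz
  have := finite_len m
  rw [Uf.T_iSup_finite] at h1
  obtain ⟨σ, hσ⟩ := h1
  exact ⟨σ.1, σ.2, hσ⟩

theorem Pk_le_iSup (hf : SS.HS f) (m : ℕ) :
    Pk f n ≤ ⨆ σ : {σ : List (ZMod 2) // σ.length = m}, Th f n σ.1 := by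
  refine SymSys.le_of_forall_T fun U hU => ?_
  have h1 := (sat_iff_T U _ (hs_push hf (hs_push (hs_kk n) SS.hs_e0))).2 hU
  rw [sat_fPick] at h1
  obtain ⟨y, hy, -, hyk, ⟨z, hz⟩, -⟩ := h1
  obtain ⟨σ, hσ, hzσ⟩ := exists_mem_cyl n U m (hyk z hz)
  refine U.mono (le_iSup (fun σ : {σ : List (ZMod 2) // σ.length = m} => Th f n σ.1)
    ⟨σ, hσ⟩) ?_
  rw [Th, ← sat_iff_T U _ (hs_push hf (hs_push (hs_kk n) (hs_push (hs_cyl n σ) SS.hs_e0))),
    sat_fMeet]
  exact ⟨y, hy, z, hz, hzσ⟩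

theorem Pk_le_Th (hf : SS.HS f) {e : Finset (ℕ × ℕ)} {a : Finset ℕ}
    (hfs : ∀ g ∈ SS.H (e, a), beq (SS.actN g f) f = ⊤) (he : ∀ t ∈ e, t.1 ≠ n)
    (ha : n ∉ a) (σ : List (ZMod 2)) : Pk f n ≤ Th f n σ := by
  refine le_of_inf_compl_le_bot ?_
  by_contra hcon
  rw [le_bot_iff] at hcon
  obtain ⟨F, q, hq, hqp, hqF⟩ := exists_cylinder hcon
  have h1 : q ≤ ⨆ σ' : {σ' : List (ZMod 2) // σ'.length = σ.length}, Th f n σ'.1 :=
    hqp.trans (inf_le_left.trans (Pk_le_iSup n hf σ.length))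
  obtain ⟨σ', hσ'⟩ := exists_of_le_iSup hq h1
  obtain ⟨t, ht⟩ := exists_tw σ σ'.1 σ'.2.symm
  obtain ⟨N, hN⟩ := exists_flip_fix F n t
  apply hσ'
  have h2 : CB.act (flip n t N) (q ⊓ Th f n σ'.1) = q ⊓ Th f n σ := by
    rw [map_inf, hqF _ hN, act_Th n (hfs _ (flip_mem_H he ha t N)) (tail_flip n t N), ht]
  have h3 : q ⊓ Th f n σ = ⊥ := by
    rw [eq_bot_iff]
    exact (inf_le_inf_right _ (hqp.trans inf_le_right)).trans_eq (compl_inf_self _)
  rw [h3] at h2
  exact (CB.act (flip n t N)).injective (h2.trans (map_bot _).symm)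

theorem card_fin_fun (k : ℕ) : (k : ℕ∞) < ENat.card (Fin k → ZMod 2) := by
  rw [ENat.card_eq_coe_fintype_card]
  simp only [Fintype.card_pi, ZMod.card, Finset.prod_const, Finset.card_univ, Fintype.card_fin]
  exact_mod_cast Nat.lt_two_pow_self

theorem Pk_eq_bot (hf : SS.HS f) {e : Finset (ℕ × ℕ)} {a : Finset ℕ}
    (hfs : ∀ g ∈ SS.H (e, a), beq (SS.actN g f) f = ⊤) (he : ∀ t ∈ e, t.1 ≠ n)
    (ha : n ∉ a) : Pk f n ≤ ⊥ := by
  have hv : ∀ i, SS.HS (push f (push (kk n) e0) i) := hs_push hf (hs_push (hs_kk n) SS.hs_e0)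
  have h1 : Pk f n ≤ ⨆ y : {y : Nm CB // SS.HS y}, bval SS.HS (Fm.and (fMaps 1 2 0)
      (Fm.and (all (imp (fMaps 2 3 0) (Fm.eq 0 1))) (fFinite 0)))
        (push y.1 (push f (push (kk n) e0))) := by
    rw [← bval_ex]
    refine bval_le_bval hv hv fun U h => ?_
    rw [sat_fPick] at h
    obtain ⟨y, h1, h2, -, -, h3⟩ := h
    rw [sat_ex]
    refine ⟨y, ?_⟩
    simp only [sat_and, sat_fMaps, sat_all, sat_imp, sat_eq, sat_fFinite]
    exact ⟨h1, h2, h3⟩
  refine le_of_le_iSup h1 fun y => ?_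
  have h2 : Pk f n ⊓ bval SS.HS (Fm.and (fMaps 1 2 0)
      (Fm.and (all (imp (fMaps 2 3 0) (Fm.eq 0 1))) (fFinite 0)))
        (push y.1 (push f (push (kk n) e0))) ≤
      ⨆ k, bval SS.HS (fEquip 0 (0 + 1)) (push (nNat k) (push y.1 (push f (push (kk n) e0)))) := by
    refine inf_le_right.trans ?_
    rw [bval_and, bval_and]
    exact inf_le_right.trans (inf_le_right.trans (SS.bval_finite_le 0 (hs_push y.2 hv)))
  refine le_of_le_iSup h2 fun k => ?_
  refine SymSys.le_of_forall_T fun U hU => ?_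
  rw [Uf.T_inf, Uf.T_inf] at hU
  obtain ⟨⟨hP, hy⟩, hk⟩ := hU
  rw [← sat_iff_T U _ (hs_push (SS.hs_nNat k) (hs_push y.2 hv)), sat_fEquip] at hk
  rw [← sat_iff_T U _ (hs_push y.2 hv)] at hy
  simp only [sat_and, sat_fMaps, sat_all, sat_imp, sat_eq] at hy
  obtain ⟨-, hy, -⟩ := hy
  exfalso
  have hbound := SS.encard_le_of_equip U k hk
  have hch : ∀ s : Fin k → ZMod 2, ∃ z : {z // Mem U z (SS.Cl U y.1 y.2)},
      Mem U z.1 (SS.Cl U (cyl n (List.ofFn s)) (hs_cyl n _)) := by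
    intro s
    have h3 := U.mono (Pk_le_Th n hf hfs he ha (List.ofFn s)) hP
    rw [Th, ← sat_iff_T U _ (hs_push hf (hs_push (hs_kk n)
      (hs_push (hs_cyl n (List.ofFn s)) SS.hs_e0))), sat_fMeet] at h3
    obtain ⟨y', hy', z, hz, hzc⟩ := h3
    have h4 : y' = SS.Cl U y.1 y.2 := hy y' hy'
    rw [h4] at hz
    exact ⟨⟨z, hz⟩, hzc⟩
  choose G hG using hch
  have hinj : Function.Injective G := by
    intro s s' hss
    by_contra hne
    have hne' : List.ofFn s ≠ List.ofFn s' := fun h => hne (List.ofFn_injective h)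
    have h5 := hG s
    rw [hss] at h5
    exact disj_Cl U (hs_cyl n _) (hs_cyl n _) (cyl_disj n _ _ (by simp) hne') _ ⟨h5, hG s'⟩
  have h6 : ENat.card (Fin k → ZMod 2) ≤ ENat.card {z // Mem U z (SS.Cl U y.1 y.2)} :=
    ENat.card_le_card_of_injective hinj
  exact absurd (h6.trans hbound) (not_le.2 (card_fin_fun k))

end

/-- the standard point of row `n` -/
noncomputable def F0 (_ : ℕ) (j : ZMod 2) : CB := if j = 0 then ⊤ else ⊥

theorem isPt_F0 : IsPt F0 := fun m => by simp [F0]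

theorem symm_F0 (n : ℕ) : SS.Symm (pt n F0) := by
  refine ⟨(∅, {n}), fun g hg => ?_⟩
  have hg' := (mem_H _ g).1 hg
  have h0 : ∀ m, Tail g n m 0 := hg'.2.2 n (by simp)
  have h1 := actN_pt (t := fun _ => 0) h0 F0
  have h2 : (fun m j => CB.act g (F0 m (j + 0))) = F0 := by
    funext m j
    rw [add_zero, F0]
    split_ifs
    · exact map_top _
    · exact map_bot _
  rwa [h2] at h1

noncomputable def P0 (n : ℕ) : PtI n := ⟨F0, isPt_F0, symm_F0 n⟩

theorem clB_kk (U : Uf CB) (n : ℕ) : ClB (Mem U) (mX U) (mb U) (SS.Cl U (kk n) (hs_kk n)) := by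
  refine ⟨SS.subs_Cl U (hs_kk n) (hs_ww 0) (kk_le_ww (Nat.zero_le n)), ?_, ?_⟩
  · refine ⟨SS.Cl U (pt n (P0 n).1) (hs_pt (P0 n)), ?_⟩
    rw [mem_Cl, mem_pt_kk]; exact U.top
  · intro x hx
    have h := forall_mem' U (hs_ww 0) (imp (neg (Fm.mem 0 1)) (ex (Fm.and (Fm.mem 0 4)
      (Fm.and (Fm.mem 1 0) (all (neg (Fm.and (Fm.mem 0 1) (Fm.mem 0 3)))))))) 
      (v := push (kk n) vXb) (hs_push (hs_kk n) hs_vXb) (fun i U' => by
        simp only [sat_imp, sat_neg, sat_ex, sat_and, sat_mem, sat_all, push_zero, push_one,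
          push_two, push_three, push_four]
        intro hni
        rcases i with _ | ⟨⟨n', hn'⟩, F⟩
        · refine ⟨SS.Cl U' (ww (n + 1)) (hs_ww _), ?_, ?_, ?_⟩
          · show Mem U' (SS.Cl U' (ww (n + 1)) (hs_ww _)) (SS.Cl U' bb hs_bb)
            rw [mem_Cl, mem_ww_bb]; exact U'.top
          · show Mem U' (SS.Cl U' nEmpty SS.hs_nEmpty) (SS.Cl U' (ww (n + 1)) (hs_ww _))
            rw [mem_Cl, mem_nEmpty_ww]; exact U'.top
          · exact disj_Cl U' (hs_ww (n + 1)) (hs_kk n) (fun z => by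
              rw [inf_comm]; exact kk_ww_disj (Nat.lt_succ_self n) z)
        · by_cases h : n' = n
          · subst h
            refine absurd ?_ hni
            show Mem U' (SS.Cl U' (pt n' F.1) (hs_pt F)) (SS.Cl U' (kk n') (hs_kk n'))
            rw [mem_Cl, mem_pt_kk]; exact U'.top
          · refine ⟨SS.Cl U' (cyl n' []) (hs_cyl _ _), ?_, ?_, ?_⟩
            · show Mem U' (SS.Cl U' (cyl n' []) (hs_cyl _ _)) (SS.Cl U' bb hs_bb)
              rw [mem_Cl, mem_cyl_bb]; exact U'.top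
            · show Mem U' (SS.Cl U' (pt n' F.1) (hs_pt F)) (SS.Cl U' (cyl n' []) (hs_cyl _ _))
              rw [mem_Cl, mem_pt_cyl_nil]; exact U'.top
            · exact disj_Cl U' (hs_cyl n' []) (hs_kk n) (fun z => by
                rw [cyl_nil]; exact kk_disj h z)) x hx
    simp only [sat_imp, sat_neg, sat_ex, sat_and, sat_mem, sat_all, push_zero, push_one,
      push_two, push_three, push_four] at h
    exact h

/-- there is no function choosing finite non-empty subsets of the closed sets -/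
theorem no_pick (U : Uf CB) : ¬ ∃ f, ∀ C, ClB (Mem U) (mX U) (mb U) C → Pick (Mem U) f C := by
  intro hex
  have h1 : Sat (Mem U) (ex (all (imp (fClB 2 3 0) (fPick 1 0))))
      (fun i => SS.Cl U (vXb i) (hs_vXb i)) := by
    simp only [sat_ex, sat_all, sat_imp, sat_fClB, sat_fPick, push_zero, push_one, push_two,
      push_three]
    exact hex
  rw [sat_iff_T U _ hs_vXb, bval_ex] at h1
  refine U.bot (U.mono (iSup_le fun f => ?_) h1)
  obtain ⟨⟨e, a⟩, hfs⟩ := f.2.symm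
  obtain ⟨n, hn⟩ : ∃ n, n ∉ a ∪ e.image Prod.fst := Infinite.exists_notMem_finset _
  simp only [Finset.mem_union, Finset.mem_image, not_or, not_exists, not_and] at hn
  refine le_trans ?_ (Pk_eq_bot n f.2 hfs (fun t ht => hn.2 t ht) hn.1)
  refine bval_le_bval (hs_push f.2 hs_vXb) (hs_push f.2 (hs_push (hs_kk n) SS.hs_e0))
    fun U' h => ?_
  rw [sat_all] at h
  have h2 := h (SS.Cl U' (kk n) (hs_kk n))
  simp only [sat_imp, sat_fClB, sat_fPick, push_zero, push_one, push_two, push_three] at h2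
  rw [sat_fPick]
  exact h2 (clB_kk U' n)

/-- The main result for the model given by an ultrafilter `U`. -/
theorem main_model (U : Uf CB) : ∃ X τ : SS.M U, IsTopology (Mem U) X τ ∧
    IsCompactSpace (Mem U) X τ ∧ IsHausdorff (Mem U) X τ ∧ HasCufBase (Mem U) τ ∧
    ¬ IsWeaklyLoeb (Mem U) X τ := by
  obtain ⟨τ, hτ⟩ := exists_topology (SS.isZF U) (mX U) (mb U)
  have hb := baseHyp U
  exact ⟨mX U, τ, isTopology_of hb hτ, isCompactSpace_of hτ (compact_base U),
    isHausdorff_of hb hτ (hausdorff_base U), ⟨mb U, isBase_of hb hτ, isCuf_base U⟩,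
    fun h => no_pick U (wlb_of (SS.isZF U) hb hτ h)⟩

end Pool.Agent.SymZF
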