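import Pool.Agent.SymZF.Val

/-!
# Symmetric systems and hereditarily symmetric names
-/

set_option autoImplicit false

namespace Pool.Agent.SymZF

open Nm Fm

/-- A symmetric system on the complete Boolean algebra `B`: a commutative group `G` acting on `B`
by order automorphisms, and a directed family of subsets `H s` of `G`. -/
structure SymSys (B : Type) [CompleteBooleanAlgebra B] where build ::
  /-- the group -/
  G : Type
  /-- group structure -/
  grp : AddCommGroup G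
  /-- the action -/
  act : G → (B ≃o B)
  act_zero : ∀ a, act 0 a = a
  act_add : ∀ g h a, act (g + h) a = act g (act h a)
  /-- supports -/
  K : Type
  /-- the subset fixing a support -/
  H : K → Set G
  k₀ : K
  dir : ∀ a b, ∃ c, H c ⊆ H a ∧ H c ⊆ H b

variable {B : Type} [CompleteBooleanAlgebra B] (S : SymSys B)

instance : AddCommGroup S.G := S.grp

namespace SymSys

/-- action on names -/
def actN (g : S.G) : Nm B → Nm B
  | mk ι A b => mk ι (fun i => actN g (A i)) (fun i => S.act g (b i))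

theorem actN_mk (g : S.G) (ι : Type) (A : ι → Nm B) (b : ι → B) :
    S.actN g (mk ι A b) = mk ι (fun i => S.actN g (A i)) (fun i => S.act g (b i)) := rfl

theorem actN_zero (x : Nm B) : S.actN 0 x = x := by
  induction x with
  | mk ι A b ih => simp only [actN_mk, ih, S.act_zero]

theorem actN_add (g h : S.G) (x : Nm B) : S.actN (g + h) x = S.actN g (S.actN h x) := by
  induction x with
  | mk ι A b ih => simp only [actN_mk, ih, S.act_add]

theorem actN_neg_cancel (g : S.G) (x : Nm B) : S.actN g (S.actN (-g) x) = x := by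
  rw [← actN_add, add_neg_cancel, actN_zero]

theorem actN_neg_cancel' (g : S.G) (x : Nm B) : S.actN (-g) (S.actN g x) = x := by
  rw [← actN_add, neg_add_cancel, actN_zero]

theorem actN_comm (g h : S.G) (x : Nm B) : S.actN g (S.actN h x) = S.actN h (S.actN g x) := by
  rw [← actN_add, add_comm, actN_add]

theorem beq_actN (g : S.G) (x y : Nm B) : beq (S.actN g x) (S.actN g y) = S.act g (beq x y) := by
  induction x generalizing y with
  | mk ι A b ih =>
    cases y with
    | mk κ C c =>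
      simp only [actN_mk, beq, ih, map_inf, OrderIso.map_iInf, map_himp, OrderIso.map_iSup]

theorem mem_actN (g : S.G) (x y : Nm B) : Nm.mem (S.actN g x) (S.actN g y) = S.act g (Nm.mem x y) := by
  cases y with
  | mk κ C c =>
    simp only [actN_mk, Nm.mem, vl_mk, el_mk, idx_mk, beq_actN, OrderIso.map_iSup, map_inf]

theorem mem_actN_right (g : S.G) (z y : Nm B) :
    Nm.mem z (S.actN g y) = S.act g (Nm.mem (S.actN (-g) z) y) := by
  rw [← mem_actN, actN_neg_cancel]

/-- symmetric names -/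
def Symm (x : Nm B) : Prop := ∃ s, ∀ g ∈ S.H s, beq (S.actN g x) x = ⊤

/-- hereditarily symmetric names -/
def HS : Nm B → Prop
  | mk ι A b => S.Symm (mk ι A b) ∧ ∀ i, HS (A i)

theorem hs_mk (ι : Type) (A : ι → Nm B) (b : ι → B) :
    S.HS (mk ι A b) ↔ S.Symm (mk ι A b) ∧ ∀ i, S.HS (A i) := Iff.rfl

theorem hs_iff (x : Nm B) : S.HS x ↔ S.Symm x ∧ ∀ i, S.HS (x.el i) := by
  cases x; exact Iff.rfl

theorem HS.symm {x : Nm B} (h : S.HS x) : S.Symm x := ((S.hs_iff x).1 h).1

theorem HS.el {x : Nm B} (h : S.HS x) (i : x.idx) : S.HS (x.el i) := ((S.hs_iff x).1 h).2 i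

theorem symm_actN (g : S.G) {x : Nm B} (h : S.Symm x) : S.Symm (S.actN g x) := by
  obtain ⟨s, hs⟩ := h
  refine ⟨s, fun h hh => ?_⟩
  rw [actN_comm, beq_actN, hs h hh, map_top]

theorem hs_actN (g : S.G) {x : Nm B} (h : S.HS x) : S.HS (S.actN g x) := by
  induction x with
  | mk ι A b ih =>
    rw [actN_mk, hs_mk, ← actN_mk]
    exact ⟨S.symm_actN g h.1, fun i => ih i (h.2 i)⟩

theorem symm_of_beq_top {x y : Nm B} (h : beq x y = ⊤) (hx : S.Symm x) : S.Symm y := by
  obtain ⟨s, hs⟩ := hx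
  refine ⟨s, fun g hg => ?_⟩
  have h1 : beq (S.actN g x) (S.actN g y) = ⊤ := by rw [beq_actN, h, map_top]
  rw [← beq_eq_of_beq_top_left h1, ← beq_eq_of_beq_top_right h, hs g hg]

theorem bval_actN (φ : Fm) (g : S.G) : ∀ v : ℕ → Nm B,
    bval S.HS φ (fun i => S.actN g (v i)) = S.act g (bval S.HS φ v) := by
  induction φ with
  | mem i j => intro v; exact S.mem_actN g _ _
  | eq i j => intro v; exact S.beq_actN g _ _
  | neg φ ih => intro v; rw [bval_neg, bval_neg, ih, map_compl]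
  | and φ ψ ih1 ih2 => intro v; rw [bval_and, bval_and, ih1, ih2, map_inf]
  | all φ ih =>
    intro v
    rw [bval_all, bval_all, OrderIso.map_iInf]
    let e : {y : Nm B // S.HS y} ≃ {y : Nm B // S.HS y} :=
      { toFun := fun y => ⟨S.actN g y.1, S.hs_actN g y.2⟩
        invFun := fun y => ⟨S.actN (-g) y.1, S.hs_actN (-g) y.2⟩
        left_inv := fun y => Subtype.ext (S.actN_neg_cancel' g y.1)
        right_inv := fun y => Subtype.ext (S.actN_neg_cancel g y.1) }
    rw [← e.iInf_comp]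
    refine iInf_congr fun y => ?_
    rw [← ih]
    congr 1
    exact push_map (S.actN g) y.1 v

/-- finitely many symmetric names have a common support -/
theorem exists_common (n : ℕ) (v : ℕ → Nm B) (hv : ∀ i, S.Symm (v i)) :
    ∃ s, ∀ g ∈ S.H s, ∀ i < n, beq (S.actN g (v i)) (v i) = ⊤ := by
  induction n with
  | zero => exact ⟨S.k₀, fun _ _ i hi => absurd hi (Nat.not_lt_zero i)⟩
  | succ n ih =>
    obtain ⟨s, hs⟩ := ih
    obtain ⟨t, ht⟩ := hv n
    obtain ⟨u, hu1, hu2⟩ := S.dir s t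
    refine ⟨u, fun g hg i hi => ?_⟩
    rcases Nat.lt_succ_iff_lt_or_eq.1 hi with h | h
    · exact hs g (hu1 hg) i h
    · subst h; exact ht g (hu2 hg)

/-- A predicate is equivariant at `g`. -/
def Equiv (g : S.G) (Φ : Nm B → B) : Prop := ∀ x, Φ (S.actN g x) = S.act g (Φ x)

theorem bval_equiv_of (φ : Fm) (v : ℕ → Nm B) (g : S.G)
    (hg : ∀ i < bd φ, beq (S.actN g (v i)) (v i) = ⊤) :
    S.Equiv g (fun x => bval S.HS φ (push x v)) := by
  intro x
  rw [← S.bval_actN φ g (push x v), ← push_map (S.actN g)]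
  have h1 : bval S.HS φ (push (S.actN g x) fun i => S.actN g (v i)) =
      bval S.HS φ (push (S.actN g x) fun i => if i < bd φ then S.actN g (v i) else v i) := by
    apply bval_eq_of_lt_bd
    intro i hi
    cases i with
    | zero => rfl
    | succ k => simp [show k < bd φ by omega]
  rw [h1]
  apply bval_eq_of_top
  intro i
  cases i with
  | zero => exact beq_refl _
  | succ k =>
    simp only [push_succ]
    split_ifs with hk
    · rw [beq_comm]; exact hg k hk
    · exact beq_refl _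

theorem bval_equiv (φ : Fm) (v : ℕ → Nm B) (hv : ∀ i, S.Symm (v i)) :
    ∃ s, ∀ g ∈ S.H s, S.Equiv g (fun x => bval S.HS φ (push x v)) := by
  obtain ⟨s, hs⟩ := S.exists_common (bd φ) v hv
  exact ⟨s, fun g hg => S.bval_equiv_of φ v g (hs g hg)⟩

/-- criterion for invariance -/
theorem beq_actN_top {x : Nm B} (hx : ∀ i, S.HS (x.el i)) (g : S.G)
    (h : ∀ z, S.HS z → Nm.mem z (S.actN g x) = Nm.mem z x) : beq (S.actN g x) x = ⊤ := by
  cases x with
  | mk ι A b =>
    refine beq_eq_top_of_mem_eq (fun i => ?_) (fun j => ?_)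
    · exact h _ (S.hs_actN g (hx i))
    · exact h _ (hx j)

theorem mem_actN_of_beq_top {x : Nm B} {g : S.G} (h : beq (S.actN g x) x = ⊤) (z : Nm B) :
    Nm.mem z (S.actN g x) = Nm.mem z x := mem_eq_of_beq_top_right h z

theorem symm_sep_at {x : Nm B} {Φ : Nm B → B} (hΦ : Cong Φ) {g : S.G}
    (hg : beq (S.actN g x) x = ⊤) (hE : S.Equiv g Φ) :
    beq (S.actN g (sep x Φ)) (sep x Φ) = ⊤ := by
  apply beq_eq_top_of_forall_mem_eq
  intro z
  rw [mem_actN_right, mem_sep hΦ, mem_sep hΦ, map_inf, ← mem_actN, ← hE, actN_neg_cancel,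
    S.mem_actN_of_beq_top hg]

theorem hs_sep {x : Nm B} {Φ : Nm B → B} (hΦ : Cong Φ) (hx : S.HS x) {s : S.K}
    (hE : ∀ g ∈ S.H s, S.Equiv g Φ) : S.HS (sep x Φ) := by
  obtain ⟨t, ht⟩ := hx.symm
  obtain ⟨u, hu1, hu2⟩ := S.dir s t
  exact ⟨⟨u, fun g hg => S.symm_sep_at hΦ (ht g (hu2 hg)) (hE g (hu1 hg))⟩, fun i => hx.el S i⟩

theorem hs_sep_bval (φ : Fm) {x : Nm B} (v : ℕ → Nm B) (hx : S.HS x) (hv : ∀ i, S.HS (v i)) :
    S.HS (sep x (fun z => bval S.HS φ (push z v))) := by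
  obtain ⟨s, hs⟩ := S.bval_equiv φ v fun i => (hv i).symm
  exact S.hs_sep (bval_cong_push _ φ v) hx hs

/-! ### Basic names -/

/-- the name of the empty set -/
def nEmpty : Nm B := mk Empty (fun i => i.elim) (fun i => i.elim)

theorem mem_nEmpty (z : Nm B) : Nm.mem z nEmpty = ⊥ := by
  simp [nEmpty, mem_mk]

theorem actN_nEmpty (g : S.G) : S.actN g nEmpty = nEmpty := by
  rw [nEmpty, actN_mk]
  congr 1 <;> · funext i; exact i.elim

theorem hs_nEmpty : S.HS nEmpty :=
  ⟨⟨S.k₀, fun g _ => by rw [← nEmpty, actN_nEmpty, beq_refl]⟩, fun i => i.elim⟩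

theorem hne : ∃ x, S.HS x := ⟨nEmpty, S.hs_nEmpty⟩

/-- the name of the unordered pair -/
def nPair (x y : Nm B) : Nm B := mk Bool (fun b => cond b x y) (fun _ => ⊤)

theorem mem_nPair (z x y : Nm B) : Nm.mem z (nPair x y) = beq z x ⊔ beq z y := by
  simp [nPair, mem_mk, iSup_bool_eq]

theorem actN_nPair (g : S.G) (x y : Nm B) :
    S.actN g (nPair x y) = nPair (S.actN g x) (S.actN g y) := by
  rw [nPair, actN_mk, nPair]
  congr 1
  · funext b; cases b <;> rfl
  · funext b; exact map_top _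

theorem beq_nPair_top {x y x' y' : Nm B} (hx : beq x x' = ⊤) (hy : beq y y' = ⊤) :
    beq (nPair x y) (nPair x' y') = ⊤ := by
  apply beq_eq_top_of_forall_mem_eq
  intro z
  rw [mem_nPair, mem_nPair, beq_eq_of_beq_top_right hx, beq_eq_of_beq_top_right hy]

theorem hs_nPair {x y : Nm B} (hx : S.HS x) (hy : S.HS y) : S.HS (nPair x y) := by
  obtain ⟨s, hs⟩ := hx.symm
  obtain ⟨t, ht⟩ := hy.symm
  obtain ⟨u, hu1, hu2⟩ := S.dir s t
  refine ⟨⟨u, fun g hg => ?_⟩, fun b => ?_⟩
  · rw [← nPair, actN_nPair]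
    exact beq_nPair_top (hs g (hu1 hg)) (ht g (hu2 hg))
  · cases b
    · exact hy
    · exact hx

/-- the name of the union -/
def nUnion (x : Nm B) : Nm B :=
  mk (Σ i, (x.el i).idx) (fun s => (x.el s.1).el s.2) (fun s => x.vl s.1 ⊓ (x.el s.1).vl s.2)

theorem mem_nUnion (z x : Nm B) : Nm.mem z (nUnion x) = ⨆ i, x.vl i ⊓ Nm.mem z (x.el i) := by
  rw [nUnion, mem_mk, iSup_sigma]
  refine iSup_congr fun i => ?_
  rw [Nm.mem, inf_iSup_eq]
  exact iSup_congr fun j => inf_assoc _ _ _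

theorem mem_nUnion' (z x : Nm B) (hx : S.HS x) :
    Nm.mem z (nUnion x) = ⨆ y : {y : Nm B // S.HS y}, Nm.mem y.1 x ⊓ Nm.mem z y.1 := by
  rw [mem_nUnion]
  apply le_antisymm
  · refine iSup_le fun i => le_iSup_of_le ⟨x.el i, hx.el S i⟩ ?_
    exact inf_le_inf_right _ (vl_le_mem x i)
  · refine iSup_le fun y => ?_
    have h : Nm.mem y.1 x ⊓ Nm.mem z y.1 ≤ ⨆ i, x.vl i ⊓ beq y.1 (x.el i) := inf_le_left
    refine le_of_le_iSup h fun i => le_iSup_of_le i (le_inf (inf_le_right.trans inf_le_left) ?_)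
    exact mem_congr_right' (inf_le_right.trans inf_le_right) (inf_le_left.trans inf_le_right)

theorem hs_nUnion {x : Nm B} (hx : S.HS x) : S.HS (nUnion x) := by
  have hel : ∀ i, S.HS ((nUnion x).el i) := fun i => (hx.el S i.1).el S i.2
  obtain ⟨s, hs⟩ := hx.symm
  refine (S.hs_iff _).2 ⟨⟨s, fun g hg => ?_⟩, hel⟩
  apply S.beq_actN_top hel
  intro z hz
  rw [mem_actN_right, S.mem_nUnion' _ _ hx, S.mem_nUnion' _ _ hx, OrderIso.map_iSup]
  let e : {y : Nm B // S.HS y} ≃ {y : Nm B // S.HS y} :=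
    { toFun := fun y => ⟨S.actN g y.1, S.hs_actN g y.2⟩
      invFun := fun y => ⟨S.actN (-g) y.1, S.hs_actN (-g) y.2⟩
      left_inv := fun y => Subtype.ext (S.actN_neg_cancel' g y.1)
      right_inv := fun y => Subtype.ext (S.actN_neg_cancel g y.1) }
  rw [← e.iSup_comp (g := fun y : {y : Nm B // S.HS y} => Nm.mem y.1 x ⊓ Nm.mem z y.1)]
  refine iSup_congr fun y => ?_
  rw [map_inf, ← mem_actN, ← mem_actN, actN_neg_cancel, S.mem_actN_of_beq_top (hs g hg)]
  rfl

/-- the name of the power set -/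
def nPow (x : Nm B) : Nm B :=
  mk {f : x.idx → B // (∀ i, f i ≤ x.vl i) ∧ S.Symm (mk x.idx x.el f)}
    (fun f => mk x.idx x.el f.1) (fun _ => ⊤)

theorem mem_nPow {x z : Nm B} (hx : S.HS x) (hz : S.HS z) :
    Nm.mem z (S.nPow x) = ⨅ u : {u : Nm B // S.HS u}, Nm.mem u.1 z ⇨ Nm.mem u.1 x := by
  apply le_antisymm
  · rw [nPow, mem_mk]
    refine iSup_le fun f => le_iInf fun u => ?_
    rw [le_himp_iff, top_inf_eq]
    refine (mem_congr_right u.1 z _).trans ?_
    rw [mem_mk, Nm.mem]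
    exact iSup_mono fun i => inf_le_inf_right _ (f.2.1 i)
  · have hc : Cong (fun w => Nm.mem w z) := fun a b => mem_congr_left a b z
    have hE : ∃ s, ∀ g ∈ S.H s, S.Equiv g (fun w => Nm.mem w z) := by
      obtain ⟨s, hs⟩ := hz.symm
      refine ⟨s, fun g hg w => ?_⟩
      rw [← mem_actN]
      exact (mem_eq_of_beq_top_right (hs g hg) _).symm
    obtain ⟨s, hs⟩ := hE
    have hsep : S.HS (sep x (fun w => Nm.mem w z)) := S.hs_sep hc hx hs
    rw [nPow, mem_mk]
    refine le_iSup_of_le ⟨fun i => x.vl i ⊓ Nm.mem (x.el i) z, fun i => inf_le_left, hsep.symm⟩ ?_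
    rw [top_inf_eq]
    have : (⨅ u : {u : Nm B // S.HS u}, Nm.mem u.1 z ⇨ Nm.mem u.1 x) ≤
        beq z (sep x (fun w => Nm.mem w z)) := by
      refine le_beq (fun j => ?_) (fun i => ?_)
      · rw [mem_sep hc]
        refine le_inf ?_ (inf_le_right.trans (vl_le_mem z j))
        refine (inf_le_inf (iInf_le _ ⟨z.el j, hz.el S j⟩) (vl_le_mem z j)).trans ?_
        exact himp_inf_le
      · exact inf_le_right.trans inf_le_right
    exact this

theorem hs_nPow {x : Nm B} (hx : S.HS x) : S.HS (S.nPow x) := by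
  have hel : ∀ i, S.HS ((S.nPow x).el i) := fun f => ⟨f.2.2, fun i => hx.el S i⟩
  obtain ⟨s, hs⟩ := hx.symm
  refine (S.hs_iff _).2 ⟨⟨s, fun g hg => ?_⟩, hel⟩
  apply S.beq_actN_top hel
  intro z hz
  rw [mem_actN_right, S.mem_nPow hx (S.hs_actN _ hz), S.mem_nPow hx hz, OrderIso.map_iInf]
  let e : {y : Nm B // S.HS y} ≃ {y : Nm B // S.HS y} :=
    { toFun := fun y => ⟨S.actN g y.1, S.hs_actN g y.2⟩
      invFun := fun y => ⟨S.actN (-g) y.1, S.hs_actN (-g) y.2⟩
      left_inv := fun y => Subtype.ext (S.actN_neg_cancel' g y.1)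
      right_inv := fun y => Subtype.ext (S.actN_neg_cancel g y.1) }
  rw [← e.iInf_comp (g := fun u : {u : Nm B // S.HS u} => Nm.mem u.1 z ⇨ Nm.mem u.1 x)]
  refine iInf_congr fun u => ?_
  rw [map_himp, ← mem_actN, ← mem_actN, actN_neg_cancel, S.mem_actN_of_beq_top (hs g hg)]
  rfl

/-- the name of a natural number -/
def nNat : ℕ → Nm B
  | 0 => nEmpty
  | n + 1 => mk (Option (nNat n).idx) (fun o => o.elim (nNat n) (nNat n).el)
      (fun _ => ⊤)

theorem vl_nNat (n : ℕ) (i : (nNat n : Nm B).idx) : (nNat n : Nm B).vl i = ⊤ := by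
  cases n with
  | zero => exact i.elim
  | succ n => rfl

theorem mem_nNat_succ (n : ℕ) (z : Nm B) :
    Nm.mem z (nNat (n + 1)) = Nm.mem z (nNat n) ⊔ beq z (nNat n) := by
  rw [nNat, mem_mk, iSup_option, sup_comm]
  simp only [Option.elim_none, Option.elim_some, top_inf_eq]
  congr 1
  rw [Nm.mem]
  exact iSup_congr fun i => by rw [vl_nNat, top_inf_eq]

theorem actN_nNat (g : S.G) (n : ℕ) : S.actN g (nNat n) = nNat n := by
  induction n with
  | zero => exact S.actN_nEmpty g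
  | succ n ih =>
    rw [nNat, actN_mk]
    have h1 : ∀ o : Option (nNat n : Nm B).idx,
        S.actN g (o.elim (nNat n) (nNat n).el) = o.elim (nNat n) (nNat n).el := by
      intro o
      cases o with
      | none => exact ih
      | some i =>
        simp only [Option.elim_some]
        have h2 : ∀ (x : Nm B), S.actN g x = x → ∀ i, S.actN g (x.el i) = x.el i := by
          intro x hx i
          cases x with
          | mk ι A b =>
            rw [actN_mk] at hx
            simp only [Nm.mk.injEq, heq_eq_eq, true_and] at hx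
            exact congrFun hx.1 i
        exact h2 _ ih i
    simp only [h1, map_top]

theorem hs_of_fixed {x : Nm B} (h : ∀ g, S.actN g x = x) (hel : ∀ i, S.HS (x.el i)) : S.HS x :=
  (S.hs_iff x).2 ⟨⟨S.k₀, fun g _ => by rw [h g, beq_refl]⟩, hel⟩

theorem hs_nNat (n : ℕ) : S.HS (nNat n) := by
  induction n with
  | zero => exact S.hs_nEmpty
  | succ n ih =>
    refine S.hs_of_fixed (fun g => S.actN_nNat g _) ?_
    rintro (_ | i)
    · exact ih
    · exact ih.el S i

/-- the name of the set of natural numbers -/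
def nOmega : Nm B := mk ℕ nNat (fun _ => ⊤)

theorem mem_nOmega (z : Nm B) : Nm.mem z nOmega = ⨆ n, beq z (nNat n) := by
  simp [nOmega, mem_mk]

theorem actN_nOmega (g : S.G) : S.actN g nOmega = nOmega := by
  rw [nOmega, actN_mk]
  simp only [actN_nNat, map_top]

theorem hs_nOmega : S.HS nOmega :=
  S.hs_of_fixed (fun g => S.actN_nOmega g) (fun n => S.hs_nNat n)

/-! ### Validity of the axioms of ZF -/

variable {S}

/-- validity in the symmetric model -/
def Valid (S : SymSys B) (φ : Fm) : Prop :=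
  ∀ v : ℕ → Nm B, (∀ i, S.HS (v i)) → bval S.HS φ v = ⊤

theorem valid_ext : S.Valid (imp (all (Fm.iff (Fm.mem 0 1) (Fm.mem 0 2))) (Fm.eq 0 1)) := by
  intro v hv
  rw [bval_imp, himp_eq_top_iff]
  simp only [bval_all, bval_iff, bval_mem, bval_eq, push_zero, push_one, push_two]
  refine le_beq (fun i => ?_) (fun i => ?_)
  · refine (inf_le_inf (iInf_le _ ⟨(v 0).el i, (hv 0).el S i⟩) (vl_le_mem (v 0) i)).trans ?_
    exact (inf_le_inf_right _ inf_le_left).trans himp_inf_le
  · refine (inf_le_inf (iInf_le _ ⟨(v 1).el i, (hv 1).el S i⟩) (vl_le_mem (v 1) i)).trans ?_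
    exact (inf_le_inf_right _ inf_le_right).trans himp_inf_le

theorem bval_iff_eq_top {φ ψ : Fm} {v : ℕ → Nm B} (h : bval S.HS φ v = bval S.HS ψ v) :
    bval S.HS (Fm.iff φ ψ) v = ⊤ := by
  simp [h]

theorem bval_all_eq_top {φ : Fm} {v : ℕ → Nm B} (h : ∀ x, S.HS x → bval S.HS φ (push x v) = ⊤) :
    bval S.HS (all φ) v = ⊤ := by
  rw [bval_all]
  exact iInf_eq_top.2 fun y => h y.1 y.2

theorem bval_ex_eq_top {φ : Fm} {v : ℕ → Nm B} (x : Nm B) (hx : S.HS x)
    (h : bval S.HS φ (push x v) = ⊤) : bval S.HS (ex φ) v = ⊤ := by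
  rw [bval_ex, eq_top_iff]
  exact le_iSup_of_le ⟨x, hx⟩ h.ge

theorem valid_pairing :
    S.Valid (ex (all (Fm.iff (Fm.mem 0 1) (Fm.or (Fm.eq 0 2) (Fm.eq 0 3))))) := by
  intro v hv
  refine bval_ex_eq_top (nPair (v 0) (v 1)) (S.hs_nPair (hv 0) (hv 1)) ?_
  refine bval_all_eq_top fun x _ => bval_iff_eq_top ?_
  simp [mem_nPair]

theorem valid_union :
    S.Valid (ex (all (Fm.iff (Fm.mem 0 1) (ex (Fm.and (Fm.mem 0 3) (Fm.mem 1 0)))))) := by
  intro v hv
  refine bval_ex_eq_top (nUnion (v 0)) (S.hs_nUnion (hv 0)) ?_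
  refine bval_all_eq_top fun x _ => bval_iff_eq_top ?_
  simp [S.mem_nUnion' _ _ (hv 0)]

theorem valid_powerset :
    S.Valid (ex (all (Fm.iff (Fm.mem 0 1) (all (imp (Fm.mem 0 1) (Fm.mem 0 3)))))) := by
  intro v hv
  refine bval_ex_eq_top (S.nPow (v 0)) (S.hs_nPow (hv 0)) ?_
  refine bval_all_eq_top fun x hx => bval_iff_eq_top ?_
  simp [S.mem_nPow (hv 0) hx]

theorem valid_infinity :
    S.Valid (ex (Fm.and (ex (Fm.and (all (neg (Fm.mem 0 1))) (Fm.mem 0 1)))
      (all (imp (Fm.mem 0 1) (ex (Fm.and (all (Fm.iff (Fm.mem 0 1) (Fm.or (Fm.mem 0 2) (Fm.eq 0 2))))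
        (Fm.mem 0 2))))))) := by
  intro v hv
  refine bval_ex_eq_top nOmega S.hs_nOmega ?_
  rw [bval_and, inf_eq_top_iff]
  constructor
  · refine bval_ex_eq_top nEmpty S.hs_nEmpty ?_
    simp only [bval_and, bval_all, bval_neg, bval_mem, push_zero, push_one, mem_nEmpty,
      compl_bot, iInf_top, top_inf_eq, mem_nOmega]
    rw [eq_top_iff]
    exact le_iSup_of_le 0 (beq_refl _).ge
  · have h1 := bval_all_mem S.HS (ex (Fm.and (all (Fm.iff (Fm.mem 0 1) (Fm.or (Fm.mem 0 2)
      (Fm.eq 0 2)))) (Fm.mem 0 2))) (push nOmega v) 0 (fun n => S.hs_nNat n)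
    refine h1.trans ?_
    rw [iInf_eq_top]
    intro (n : ℕ)
    rw [himp_eq_top_iff]
    refine le_top.trans (ge_of_eq ?_)
    refine bval_ex_eq_top (nNat (n + 1)) (S.hs_nNat _) ?_
    rw [bval_and, inf_eq_top_iff]
    constructor
    · refine bval_all_eq_top fun x _ => bval_iff_eq_top ?_
      simp only [bval_mem, bval_or, bval_eq, push_zero, push_one, push_two, mem_nNat_succ]
      rfl
    · show Nm.mem (nNat (n + 1)) nOmega = ⊤
      rw [mem_nOmega, eq_top_iff]
      exact le_iSup_of_le (n + 1) (beq_refl _).ge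

theorem valid_foundation :
    S.Valid (imp (ex (Fm.mem 0 1)) (ex (Fm.and (Fm.mem 0 1) (all (imp (Fm.mem 0 2)
      (neg (Fm.mem 0 1))))))) := by
  intro v hv
  rw [bval_imp, himp_eq_top_iff]
  simp only [bval_ex, bval_mem, bval_and, bval_all, bval_imp, bval_neg, push_zero, push_one,
    push_two]
  set x := v 0
  set c : B := ⨆ y : {y : Nm B // S.HS y}, Nm.mem y.1 x ⊓
    ⨅ z : {z : Nm B // S.HS z}, Nm.mem z.1 x ⇨ (Nm.mem z.1 y.1)ᶜ with hc
  have key : ∀ y : Nm B, S.HS y → Nm.mem y x ⊓ cᶜ = ⊥ := by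
    intro y
    induction y with
    | mk ι A b ih =>
      intro hy
      have h1 : cᶜ ≤ (Nm.mem (mk ι A b) x ⊓
          ⨅ z : {z : Nm B // S.HS z}, Nm.mem z.1 x ⇨ (Nm.mem z.1 (mk ι A b))ᶜ)ᶜ :=
        compl_le_compl (le_iSup_of_le ⟨mk ι A b, hy⟩ le_rfl)
      rw [eq_bot_iff]
      have h2 : Nm.mem (mk ι A b) x ⊓ cᶜ ≤
          ⨆ z : {z : Nm B // S.HS z}, Nm.mem z.1 x ⊓ Nm.mem z.1 (mk ι A b) := by
        rw [compl_inf, compl_iInf] at h1
        have h3 : Nm.mem (mk ι A b) x ⊓ cᶜ ≤ (Nm.mem (mk ι A b) x)ᶜ ⊔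
            ⨆ z : {z : Nm B // S.HS z}, (Nm.mem z.1 x ⇨ (Nm.mem z.1 (mk ι A b))ᶜ)ᶜ :=
          inf_le_right.trans h1
        refine le_of_le_sup h3 ?_ ?_
        · refine le_trans ?_ bot_le
          calc Nm.mem (mk ι A b) x ⊓ cᶜ ⊓ (Nm.mem (mk ι A b) x)ᶜ
              ≤ Nm.mem (mk ι A b) x ⊓ (Nm.mem (mk ι A b) x)ᶜ := inf_le_inf_right _ inf_le_left
            _ = ⊥ := inf_compl_self _
        · refine inf_le_right.trans (iSup_mono fun z => ?_)
          rw [compl_himp, sdiff_compl]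
      refine le_of_le_iSup h2 fun z => ?_
      have h4 : Nm.mem (mk ι A b) x ⊓ cᶜ ⊓ (Nm.mem z.1 x ⊓ Nm.mem z.1 (mk ι A b)) ≤
          ⨆ i, b i ⊓ beq z.1 (A i) := inf_le_right.trans inf_le_right
      refine le_of_le_iSup h4 fun i => ?_
      rw [← ih i (hy.2 i)]
      refine le_inf ?_ ?_
      · exact mem_congr_left' (inf_le_right.trans inf_le_right)
          (inf_le_left.trans (inf_le_right.trans inf_le_left))
      · exact inf_le_left.trans (inf_le_left.trans inf_le_right)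
  refine iSup_le fun y => ?_
  have := key y.1 y.2
  rwa [← disjoint_iff, disjoint_compl_right_iff] at this

/-- renaming -/
def rA : ℕ → ℕ
  | 0 => 0
  | k + 1 => k + 3

/-- renaming -/
def rB : ℕ → ℕ
  | 0 => 0
  | 1 => 1
  | k + 2 => k + 3

/-- renaming -/
def rC : ℕ → ℕ
  | 0 => 0
  | 1 => 1
  | k + 2 => k + 4

/-- renaming -/
def rD : ℕ → ℕ
  | 0 => 1
  | 1 => 0
  | k + 2 => k + 3

/-- separation, as a formula: variable `0` is the given set, the others are parameters -/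
def fSep (φ : Fm) : Fm :=
  ex (all (Fm.iff (Fm.mem 0 1) (Fm.and (Fm.mem 0 2) (ren rA φ))))

theorem valid_sep (φ : Fm) : S.Valid (fSep φ) := by
  intro v hv
  have hw : ∀ i, S.HS ((fun i => v (i + 1)) i) := fun i => hv (i + 1)
  refine bval_ex_eq_top _ (S.hs_sep_bval φ (fun i => v (i + 1)) (hv 0) hw) ?_
  refine bval_all_eq_top fun x _ => bval_iff_eq_top ?_
  rw [bval_mem, push_zero, push_one, push_zero, mem_sep (bval_cong_push _ φ _), bval_and,
    bval_mem, push_zero, push_two, push_one, bval_ren]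
  congr 2
  funext i
  cases i <;> rfl

/-- collection, as a formula: variable `0` is the given set, the others are parameters -/
def fCol (φ : Fm) : Fm :=
  imp (all (imp (Fm.mem 0 1) (ex (ren rB φ))))
    (ex (all (imp (Fm.mem 0 2) (ex (Fm.and (Fm.mem 0 2) (ren rC φ))))))

theorem valid_col (φ : Fm) : S.Valid (fCol φ) := by
  classical
  intro v hv
  let w : ℕ → Nm B := fun i => v (i + 1)
  let a := v 0
  -- value of `φ y x`
  let F : Nm B → Nm B → B := fun y x => bval S.HS φ (push y (push x w))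
  have hch : ∀ (i : a.idx) (c : B), ∃ y, S.HS y ∧ ((∃ y', S.HS y' ∧ F y' (a.el i) = c) →
      F y (a.el i) = c) := by
    intro i c
    by_cases h : ∃ y', S.HS y' ∧ F y' (a.el i) = c
    · obtain ⟨y, hy, hc⟩ := h
      exact ⟨y, hy, fun _ => hc⟩
    · exact ⟨nEmpty, S.hs_nEmpty, fun h' => absurd h' h⟩
  choose y hy hyc using hch
  let Y : Nm B := mk (a.idx × B × S.G) (fun t => S.actN t.2.2 (y t.1 t.2.1)) (fun _ => ⊤)
  have hYmem : ∀ z, Nm.mem z Y = ⨆ t : a.idx × B × S.G, beq z (S.actN t.2.2 (y t.1 t.2.1)) := by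
    intro z; simp [Y, mem_mk]
  have hY : S.HS Y := by
    refine (S.hs_mk _ _ _).2 ⟨⟨S.k₀, fun g _ => ?_⟩, fun t => S.hs_actN _ (hy _ _)⟩
    apply beq_eq_top_of_forall_mem_eq
    intro z
    show Nm.mem z (S.actN g Y) = Nm.mem z Y
    rw [hYmem, actN_mk, mem_mk]
    simp only [map_top, top_inf_eq, ← actN_add]
    let e : (a.idx × B × S.G) ≃ (a.idx × B × S.G) :=
      (_root_.Equiv.refl _).prodCongr ((_root_.Equiv.refl _).prodCongr (_root_.Equiv.addLeft g))
    exact e.iSup_comp (g := fun t : a.idx × B × S.G => beq z (S.actN t.2.2 (y t.1 t.2.1)))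
  rw [fCol, bval_imp, himp_eq_top_iff]
  have e1 : bval S.HS (all (imp (Fm.mem 0 1) (ex (ren rB φ)))) v =
      ⨅ i, a.vl i ⇨ ⨆ y' : {y' : Nm B // S.HS y'}, F y'.1 (a.el i) := by
    rw [bval_all_mem S.HS _ v 0 (fun i => (hv 0).el S i)]
    refine iInf_congr fun i => ?_
    rw [bval_ex]
    congr 1
    refine iSup_congr fun y' => ?_
    rw [bval_ren]
    simp only [F]
    congr 1
    funext k
    match k with
    | 0 => rfl
    | 1 => rfl
    | k + 2 => rfl
  rw [e1, bval_ex]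
  refine le_iSup_of_le ⟨Y, hY⟩ ?_
  have e2 := bval_all_mem S.HS (ex (Fm.and (Fm.mem 0 2) (ren rC φ))) (push Y v) 1
    (fun i => (hv 0).el S i)
  refine le_trans ?_ e2.ge
  refine iInf_mono fun i => himp_le_himp_left ?_
  refine iSup_le fun y' => ?_
  rw [bval_ex]
  refine le_iSup_of_le ⟨y i (F y'.1 (a.el i)), hy _ _⟩ ?_
  rw [bval_and, bval_mem, bval_ren]
  refine le_inf ?_ ?_
  · show _ ≤ Nm.mem (y i (F y'.1 (a.el i))) Y
    rw [hYmem]
    refine le_iSup_of_le (i, F y'.1 (a.el i), 0) ?_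
    rw [actN_zero, beq_refl]; exact le_top
  · have h1 := hyc i (F y'.1 (a.el i)) ⟨y'.1, y'.2, rfl⟩
    refine h1.ge.trans (le_of_eq ?_)
    simp only [F]
    congr 1
    funext k
    match k with
    | 0 => rfl
    | 1 => rfl
    | k + 2 => rfl

end SymSys

end Pool.Agent.SymZF
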