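import Pool.Agent.SymZF.Basic
import Pool.Agent.SymZF.Forms

/-!
# Boolean valued semantics, ultrafilter quotients and the theorem of Łoś
-/

set_option autoImplicit false

namespace Pool.Agent.SymZF

open Nm Fm

variable {B : Type} [CompleteBooleanAlgebra B]

/-- Boolean value of a formula; quantifiers range over the names satisfying `D`. -/
noncomputable def bval (D : Nm B → Prop) : Fm → (ℕ → Nm B) → B
  | .mem i j, v => Nm.mem (v i) (v j)
  | .eq i j, v => beq (v i) (v j)
  | .neg φ, v => (bval D φ v)ᶜ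
  | .and φ ψ, v => bval D φ v ⊓ bval D ψ v
  | .all φ, v => ⨅ y : {y : Nm B // D y}, bval D φ (push y.1 v)

section
variable (D : Nm B → Prop)

@[simp] theorem bval_mem (i j : ℕ) (v : ℕ → Nm B) :
    bval D (Fm.mem i j) v = Nm.mem (v i) (v j) := rfl
@[simp] theorem bval_eq (i j : ℕ) (v : ℕ → Nm B) :
    bval D (Fm.eq i j) v = beq (v i) (v j) := rfl
@[simp] theorem bval_neg (φ : Fm) (v : ℕ → Nm B) : bval D (neg φ) v = (bval D φ v)ᶜ := rfl
@[simp] theorem bval_and (φ ψ : Fm) (v : ℕ → Nm B) :
    bval D (Fm.and φ ψ) v = bval D φ v ⊓ bval D ψ v := rfl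
@[simp] theorem bval_all (φ : Fm) (v : ℕ → Nm B) :
    bval D (all φ) v = ⨅ y : {y : Nm B // D y}, bval D φ (push y.1 v) := rfl
@[simp] theorem bval_imp (φ ψ : Fm) (v : ℕ → Nm B) :
    bval D (imp φ ψ) v = bval D φ v ⇨ bval D ψ v := by
  simp [imp, himp_eq, sup_comm]
@[simp] theorem bval_or (φ ψ : Fm) (v : ℕ → Nm B) :
    bval D (Fm.or φ ψ) v = bval D φ v ⊔ bval D ψ v := by
  simp [Fm.or]
@[simp] theorem bval_iff (φ ψ : Fm) (v : ℕ → Nm B) :
    bval D (Fm.iff φ ψ) v = (bval D φ v ⇨ bval D ψ v) ⊓ (bval D ψ v ⇨ bval D φ v) := by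
  simp [Fm.iff]
@[simp] theorem bval_ex (φ : Fm) (v : ℕ → Nm B) :
    bval D (ex φ) v = ⨆ y : {y : Nm B // D y}, bval D φ (push y.1 v) := by
  simp [ex, compl_iInf]

theorem bval_ren (φ : Fm) : ∀ (r : ℕ → ℕ) (v : ℕ → Nm B),
    bval D (ren r φ) v = bval D φ (fun i => v (r i)) := by
  induction φ with
  | mem i j => intro r v; rfl
  | eq i j => intro r v; rfl
  | neg φ ih => intro r v; simp only [ren, bval_neg, ih]
  | and φ ψ ih1 ih2 => intro r v; simp only [ren, bval_and, ih1, ih2]
  | all φ ih => intro r v; simp only [ren, bval_all, ih, push_lift]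

theorem bval_congr (φ : Fm) : ∀ (p : B) (v w : ℕ → Nm B), (∀ i, p ≤ beq (v i) (w i)) →
    p ⊓ bval D φ v ≤ bval D φ w := by
  induction φ with
  | mem i j =>
    intro p v w h
    refine mem_congr_right' (inf_le_left.trans (h j)) ?_
    exact mem_congr_left' (inf_le_left.trans (h i)) inf_le_right
  | eq i j =>
    intro p v w h
    simp only [bval_eq]
    refine beq_trans' (y := v j) (beq_trans' (y := v i) ?_ inf_le_right)
      (inf_le_left.trans (h j))
    exact inf_le_left.trans ((h i).trans_eq (beq_comm _ _))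
  | neg φ ih =>
    intro p v w h
    simp only [bval_neg]
    rw [le_compl_iff_disjoint_right, disjoint_iff_inf_le]
    have h1 := ih p w v (fun i => by rw [beq_comm]; exact h i)
    calc p ⊓ (bval D φ v)ᶜ ⊓ bval D φ w ≤ (p ⊓ bval D φ w) ⊓ (bval D φ v)ᶜ := by
          refine le_inf (le_inf (inf_le_left.trans inf_le_left) inf_le_right)
            (inf_le_left.trans inf_le_right)
      _ ≤ bval D φ v ⊓ (bval D φ v)ᶜ := inf_le_inf_right _ h1
      _ = ⊥ := inf_compl_self _
  | and φ ψ ih1 ih2 =>
    intro p v w h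
    simp only [bval_and]
    exact le_inf ((le_inf inf_le_left (inf_le_right.trans inf_le_left)).trans (ih1 p v w h))
      ((le_inf inf_le_left (inf_le_right.trans inf_le_right)).trans (ih2 p v w h))
  | all φ ih =>
    intro p v w h
    simp only [bval_all]
    refine le_iInf fun y => ?_
    refine (le_inf inf_le_left (inf_le_right.trans (iInf_le _ y))).trans
      (ih p (push y.1 v) (push y.1 w) ?_)
    intro i
    cases i with
    | zero => simp [beq_refl]
    | succ k => exact h k

theorem bval_cong_push (φ : Fm) (v : ℕ → Nm B) : Cong (fun x => bval D φ (push x v)) := by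
  intro x y
  refine bval_congr D φ _ _ _ fun i => ?_
  cases i with
  | zero => exact le_rfl
  | succ k => simp [beq_refl]

theorem bval_congr_upd (φ : Fm) (v : ℕ → Nm B) (j : ℕ) :
    Cong (fun x => bval D φ (Function.update v j x)) := by
  intro x y
  refine bval_congr D φ _ _ _ fun i => ?_
  by_cases h : i = j
  · subst h; simp
  · simp [h, beq_refl]

theorem bval_eq_of_top (φ : Fm) (v w : ℕ → Nm B) (h : ∀ i, beq (v i) (w i) = ⊤) :
    bval D φ v = bval D φ w := by
  apply le_antisymm
  · exact (le_inf le_top le_rfl).trans (bval_congr D φ ⊤ v w fun i => (h i).ge)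
  · exact (le_inf le_top le_rfl).trans (bval_congr D φ ⊤ w v fun i => by rw [beq_comm]; exact (h i).ge)

theorem bval_eq_of_lt_bd (φ : Fm) : ∀ (v w : ℕ → Nm B), (∀ i < bd φ, v i = w i) →
    bval D φ v = bval D φ w := by
  induction φ with
  | mem i j =>
    intro v w h
    simp only [bval_mem, h i (by simp [bd]), h j (by simp [bd])]
  | eq i j =>
    intro v w h
    simp only [bval_eq, h i (by simp [bd]), h j (by simp [bd])]
  | neg φ ih => intro v w h; simp only [bval_neg, ih v w h]
  | and φ ψ ih1 ih2 =>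
    intro v w h
    simp only [bval_and]
    rw [ih1 v w fun i hi => h i (by simp [bd]; omega),
      ih2 v w fun i hi => h i (by simp [bd]; omega)]
  | all φ ih =>
    intro v w h
    simp only [bval_all]
    refine iInf_congr fun y => ih _ _ fun i hi => ?_
    cases i with
    | zero => rfl
    | succ k => exact h k (by simp [bd] at *; omega)

/-- bounded universal quantification over a name reduces to its indices -/
theorem bval_all_mem (φ : Fm) (v : ℕ → Nm B) (j : ℕ) (hD : ∀ i, D ((v j).el i)) :
    bval D (all (imp (Fm.mem 0 (j + 1)) φ)) v = ⨅ i, (v j).vl i ⇨ bval D φ (push ((v j).el i) v) := by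
  simp only [bval_all, bval_imp, bval_mem, push_zero, push_succ]
  exact iInf_mem_himp (bval_cong_push D φ v) (v j) D hD

end

/-! ### Ultrafilters -/

/-- Ultrafilters of the Boolean algebra `B`. -/
structure Uf (B : Type) [CompleteBooleanAlgebra B] where
  /-- membership -/
  T : B → Prop
  top : T ⊤
  bot : ¬ T ⊥
  mono : ∀ {a b}, a ≤ b → T a → T b
  inf : ∀ {a b}, T a → T b → T (a ⊓ b)
  compl : ∀ a, T a ∨ T aᶜ

namespace Uf

theorem T_compl (U : Uf B) (a : B) : U.T aᶜ ↔ ¬ U.T a := by
  constructor
  · intro h h'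
    have := U.inf h h'
    rw [compl_inf_eq_bot] at this
    exact U.bot this
  · intro h; exact (U.compl a).resolve_left h

theorem T_inf (U : Uf B) (a b : B) : U.T (a ⊓ b) ↔ U.T a ∧ U.T b :=
  ⟨fun h => ⟨U.mono inf_le_left h, U.mono inf_le_right h⟩, fun h => U.inf h.1 h.2⟩

theorem T_sup (U : Uf B) (a b : B) : U.T (a ⊔ b) ↔ U.T a ∨ U.T b := by
  rw [← not_iff_not, ← U.T_compl, compl_sup, U.T_inf, U.T_compl, U.T_compl]
  tauto

theorem T_himp (U : Uf B) (a b : B) : U.T (a ⇨ b) ↔ (U.T a → U.T b) := by
  rw [himp_eq, U.T_sup, U.T_compl]; tauto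

theorem T_iSup_finite (U : Uf B) {ι : Type*} [Finite ι] (f : ι → B) :
    U.T (⨆ i, f i) ↔ ∃ i, U.T (f i) := by
  constructor
  · intro h
    by_contra hcon
    push Not at hcon
    cases nonempty_fintype ι
    have key : ∀ s : Finset ι, ¬ U.T (s.sup f) := by
      classical
      intro s
      induction s using Finset.induction_on with
      | empty => simpa using U.bot
      | insert a s _ ih =>
        rw [Finset.sup_insert, U.T_sup]
        rintro (h | h)
        · exact hcon a h
        · exact ih h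
    apply key Finset.univ
    rwa [Finset.sup_univ_eq_iSup]
  · rintro ⟨i, hi⟩; exact U.mono (le_iSup f i) hi

theorem exists_T {a : B} (ha : a ≠ ⊥) : ∃ U : Uf B, U.T a := by
  have hd : Disjoint ((Order.PFilter.principal a : Order.PFilter B) : Set B)
      ((Order.Ideal.principal (⊥ : B) : Order.Ideal B) : Set B) := by
    rw [Set.disjoint_left]
    intro b hb hb'
    simp only [SetLike.mem_coe, Order.PFilter.mem_principal, Order.Ideal.mem_principal,
      le_bot_iff] at hb hb'
    subst hb'
    exact ha (le_bot_iff.1 hb)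
  obtain ⟨J, hJ, -, hFJ⟩ := DistribLattice.prime_ideal_of_disjoint_filter_ideal hd
  refine ⟨⟨fun b => b ∉ J, ?_, ?_, ?_, ?_, ?_⟩, ?_⟩
  · intro h
    exact hJ.1.1 (by
      ext x; simp only [SetLike.mem_coe, Set.mem_univ, iff_true]
      exact J.lower le_top h)
  · intro h; exact h J.bot_mem
  · intro x y hxy hx hy; exact hx (J.lower hxy hy)
  · intro x y hx hy hxy
    rcases hJ.mem_or_mem hxy with h | h
    · exact hx h
    · exact hy h
  · intro x
    by_contra hcon
    push Not at hcon
    have h1 := J.sup_mem hcon.1 hcon.2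
    rw [sup_compl_eq_top] at h1
    exact hJ.1.1 (by
      ext x; simp only [SetLike.mem_coe, Set.mem_univ, iff_true]
      exact J.lower le_top h1)
  · intro h
    exact Set.disjoint_left.1 hFJ (show a ∈ (Order.PFilter.principal a : Order.PFilter B) by simp) h

end Uf

/-! ### The quotient -/

section quotient
variable (D : Nm B → Prop)

/-- `x` is locally in `D` -/
def Loc (x : Nm B) : Prop := (⨆ y : {y : Nm B // D y}, beq x y.1) = ⊤

theorem loc_of (x : Nm B) (h : D x) : Loc D x := by
  rw [Loc, eq_top_iff]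
  exact le_iSup_of_le ⟨x, h⟩ (by rw [beq_refl])

variable {D}

theorem bval_all_le (φ : Fm) (v : ℕ → Nm B) {x : Nm B} (hx : Loc D x) :
    bval D (all φ) v ≤ bval D φ (push x v) := by
  have h : bval D (all φ) v ≤ ⨆ y : {y : Nm B // D y}, beq x y.1 := by
    rw [show (⨆ y : {y : Nm B // D y}, beq x y.1) = ⊤ from hx]; exact le_top
  refine le_of_le_iSup h fun y => ?_
  refine (bval_cong_push D φ v).le (x := y.1) (by rw [beq_comm]; exact inf_le_right) ?_
  exact inf_le_left.trans (iInf_le _ y)

/-- the mixture of a family of names along an antichain -/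
def mix {I : Type} (c : I → B) (y : I → Nm B) : Nm B :=
  mk (Σ i, (y i).idx) (fun s => (y s.1).el s.2) (fun s => c s.1 ⊓ (y s.1).vl s.2)

theorem le_beq_mix {I : Type} (c : I → B) (y : I → Nm B)
    (hc : ∀ i j, i ≠ j → c i ⊓ c j = ⊥) (i : I) : c i ≤ beq (mix c y) (y i) := by
  refine le_beq ?_ ?_
  · rintro ⟨j, k⟩
    simp only [mix, vl_mk, el_mk]
    by_cases h : i = j
    · subst h
      exact (inf_le_right.trans inf_le_right).trans (vl_le_mem _ _)
    · refine le_trans ?_ bot_le
      rw [← hc i j h]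
      exact le_inf inf_le_left (inf_le_right.trans inf_le_left)
  · intro j
    exact vl_le_mem (mix c y) ⟨i, j⟩

theorem exists_disjoint_refine (S : Set B) :
    ∃ p : S → B, (∀ c, p c ≤ c.1) ∧ (∀ c d, c ≠ d → p c ⊓ p d = ⊥) ∧ (⨆ c, p c) = sSup S := by
  classical
  let r : S → S → Prop := WellOrderingRel
  have hwf : WellFounded r := WellOrderingRel.isWellOrder.wf
  let p : S → B := fun c => c.1 ⊓ (⨆ d : {d : S // r d c}, d.1.1)ᶜ
  refine ⟨p, fun c => inf_le_left, ?_, ?_⟩
  · have key : ∀ c d : S, r c d → p c ⊓ p d = ⊥ := by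
      intro c d hcd
      rw [eq_bot_iff]
      have h1 : p c ≤ ⨆ d' : {d' : S // r d' d}, d'.1.1 :=
        inf_le_left.trans (le_iSup (fun d' : {d' : S // r d' d} => d'.1.1) ⟨c, hcd⟩)
      calc p c ⊓ p d ≤ (⨆ d' : {d' : S // r d' d}, d'.1.1) ⊓ (⨆ d' : {d' : S // r d' d}, d'.1.1)ᶜ :=
            inf_le_inf h1 inf_le_right
        _ = ⊥ := inf_compl_self _
    intro c d hcd
    rcases (WellOrderingRel.isWellOrder (α := S)).trichotomous c d with h
    by_cases h1 : r c d
    · exact key c d h1
    · by_cases h2 : r d c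
      · rw [inf_comm]; exact key d c h2
      · exact absurd (h h1 h2) hcd
  · apply le_antisymm
    · exact iSup_le fun c => inf_le_left.trans (le_sSup c.2)
    · apply sSup_le
      intro c hc
      have : ∀ c : S, c.1 ≤ ⨆ c, p c := by
        intro c
        induction c using hwf.induction with
        | h c ih =>
          have h1 : c.1 ≤ p c ⊔ ⨆ d : {d : S // r d c}, d.1.1 := by
            simp only [p]
            rw [sup_comm, sup_inf_left, sup_compl_eq_top, inf_top_eq]
            exact le_sup_right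
          refine h1.trans (sup_le (le_iSup p c) (iSup_le fun d => ih d.1 d.2))
      exact this ⟨c, hc⟩

/-- fullness -/
theorem exists_loc_of_ex (φ : Fm) (v : ℕ → Nm B) (hne : ∃ x, D x) :
    ∃ x, Loc D x ∧ bval D (ex φ) v ≤ bval D φ (push x v) := by
  classical
  obtain ⟨x₀, hx₀⟩ := hne
  let S : Set B := Set.range fun y : {y : Nm B // D y} => bval D φ (push y.1 v)
  obtain ⟨p, hp1, hp2, hp3⟩ := exists_disjoint_refine S
  have hch : ∀ c : S, ∃ y : {y : Nm B // D y}, bval D φ (push y.1 v) = c.1 := fun c => c.2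
  choose y hy using hch
  let c' : Option S → B := fun o => match o with
    | none => (sSup S)ᶜ
    | some c => p c
  let y' : Option S → Nm B := fun o => match o with
    | none => x₀
    | some c => (y c).1
  have hc' : ∀ i j, i ≠ j → c' i ⊓ c' j = ⊥ := by
    have hn : ∀ c : S, c' none ⊓ c' (some c) = ⊥ := by
      intro c
      rw [eq_bot_iff]
      calc (sSup S)ᶜ ⊓ p c ≤ (sSup S)ᶜ ⊓ sSup S :=
            inf_le_inf_left _ ((hp1 c).trans (le_sSup c.2))
        _ = ⊥ := compl_inf_self _
    rintro (_ | c) (_ | d) h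
    · exact absurd rfl h
    · exact hn d
    · rw [inf_comm]; exact hn c
    · exact hp2 c d (fun hcd => h (by rw [hcd]))
  have hle := le_beq_mix c' y' hc'
  refine ⟨mix c' y', ?_, ?_⟩
  · rw [Loc, eq_top_iff]
    have : (⊤ : B) = (sSup S)ᶜ ⊔ sSup S := by rw [compl_sup_eq_top]
    rw [this, ← hp3]
    refine sup_le ?_ (iSup_le fun c => ?_)
    · rw [hp3]
      exact le_iSup_of_le ⟨x₀, hx₀⟩ (hle none)
    · exact le_iSup_of_le (y c) (hle (some c))
  · have h1 : bval D (ex φ) v = ⨆ c, p c := by
      rw [bval_ex, hp3]; rfl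
    rw [h1]
    refine iSup_le fun c => ?_
    refine (bval_cong_push D φ v).le (x := (y c).1) ?_ ?_
    · rw [beq_comm]; exact hle (some c)
    · show p c ≤ bval D φ (push (y c).1 v)
      rw [hy c]; exact hp1 c

variable (D) in
/-- names locally in `D` -/
def LNm : Type 1 := {x : Nm B // Loc D x}

variable (D) in
def uSetoid (U : Uf B) : Setoid (LNm D) where
  r x y := U.T (beq x.1 y.1)
  iseqv := {
    refl := fun x => by rw [beq_refl]; exact U.top
    symm := fun {x y} h => by rw [beq_comm]; exact h
    trans := fun {x y z} h h' => U.mono (beq_trans _ _ _) (U.inf h h') }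

variable (D) in
/-- The two valued structure obtained from an ultrafilter. -/
def Mod (U : Uf B) : Type 1 := Quotient (uSetoid D U)

/-- the class of a name -/
def cls (U : Uf B) (x : LNm D) : Mod D U := Quotient.mk (uSetoid D U) x

theorem cls_eq_iff (U : Uf B) (x y : LNm D) : cls U x = cls U y ↔ U.T (beq x.1 y.1) :=
  ⟨fun h => Quotient.exact h, fun h => Quotient.sound h⟩

theorem cls_surj (U : Uf B) (m : Mod D U) : ∃ x : LNm D, cls U x = m :=
  Quotient.exists_rep m

/-- membership in the quotient -/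
def Mem (U : Uf B) : Mod D U → Mod D U → Prop :=
  Quotient.lift₂ (fun x y => U.T (Nm.mem x.1 y.1)) (by
    intro a b a' b' h1 h2
    apply propext
    constructor
    · intro h
      exact U.mono (mem_congr_right _ _ _) (U.inf h2 (U.mono (mem_congr_left _ _ _) (U.inf h1 h)))
    · intro h
      have h1' : U.T (beq a'.1 a.1) := by rw [beq_comm]; exact h1
      have h2' : U.T (beq b'.1 b.1) := by rw [beq_comm]; exact h2
      exact U.mono (mem_congr_right _ _ _)
        (U.inf h2' (U.mono (mem_congr_left _ _ _) (U.inf h1' h))))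

theorem mem_cls (U : Uf B) (x y : LNm D) : Mem U (cls U x) (cls U y) ↔ U.T (Nm.mem x.1 y.1) :=
  Iff.rfl

/-- The theorem of Łoś. -/
theorem los (U : Uf B) (hne : ∃ x, D x) (φ : Fm) : ∀ v : ℕ → LNm D,
    Sat (Mem U) φ (fun i => cls U (v i)) ↔ U.T (bval D φ (fun i => (v i).1)) := by
  induction φ with
  | mem i j => intro v; exact mem_cls U _ _
  | eq i j => intro v; exact cls_eq_iff U _ _
  | neg φ ih => intro v; rw [sat_neg, bval_neg, U.T_compl, ih]
  | and φ ψ ih1 ih2 => intro v; rw [sat_and, bval_and, U.T_inf, ih1, ih2]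
  | all φ ih =>
    intro v
    rw [sat_all]
    constructor
    · intro h
      by_contra hcon
      rw [← U.T_compl] at hcon
      obtain ⟨x, hx, hle⟩ := exists_loc_of_ex (D := D) (neg φ) (fun i => (v i).1) hne
      have h1 : bval D (ex (neg φ)) (fun i => (v i).1) = (bval D (all φ) (fun i => (v i).1))ᶜ := by
        simp [compl_iInf]
      rw [h1] at hle
      have h2 := U.mono hle hcon
      rw [bval_neg, U.T_compl] at h2
      apply h2
      have h3 := h (cls U ⟨x, hx⟩)
      have e1 := push_map (cls U) (⟨x, hx⟩ : LNm D) v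
      have e2 := push_map (fun z : LNm D => z.1) (⟨x, hx⟩ : LNm D) v
      rw [e1, ih] at h3
      rw [← e2] at h3
      exact h3
    · intro h m
      obtain ⟨x, rfl⟩ := cls_surj U m
      have e1 := push_map (cls U) x v
      have e2 := push_map (fun z : LNm D => z.1) x v
      rw [e1, ih]
      exact U.mono ((bval_all_le φ _ x.2).trans_eq (by rw [← e2])) h

/-- Bridge: Boolean inequalities can be checked in all quotients. -/
theorem le_bval_of_forall (hne : ∃ x, D x) {p : B} {φ : Fm} (v : ℕ → LNm D)
    (h : ∀ U : Uf B, U.T p → Sat (Mem U) φ (fun i => cls U (v i))) :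
    p ≤ bval D φ (fun i => (v i).1) := by
  by_contra hcon
  have hne' : p ⊓ (bval D φ (fun i => (v i).1))ᶜ ≠ ⊥ := by
    intro h0
    exact hcon (by rwa [← disjoint_iff, disjoint_compl_right_iff] at h0)
  obtain ⟨U, hU⟩ := Uf.exists_T hne'
  rw [U.T_inf, U.T_compl] at hU
  exact hU.2 ((los U hne φ v).1 (h U hU.1))

/-- A formula which is valid for all assignments from `D` is valid for all local assignments. -/
theorem bval_top_of_forall (φ : Fm) (hne : ∃ x, D x)
    (h : ∀ v : ℕ → Nm B, (∀ i, D (v i)) → bval D φ v = ⊤) :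
    ∀ v : ℕ → Nm B, (∀ i, Loc D (v i)) → bval D φ v = ⊤ := by
  classical
  obtain ⟨x₀, hx₀⟩ := hne
  have key : ∀ j : ℕ, ∀ v : ℕ → Nm B, (∀ i < j, Loc D (v i)) → (∀ i, j ≤ i → D (v i)) →
      bval D φ v = ⊤ := by
    intro j
    induction j with
    | zero => intro v _ h2; exact h v fun i => h2 i (Nat.zero_le _)
    | succ j ih =>
      intro v h1 h2
      rw [eq_top_iff]
      have hl : (⊤ : B) ≤ ⨆ y : {y : Nm B // D y}, beq (v j) y.1 := (h1 j (Nat.lt_succ_self j)).ge
      refine le_of_le_iSup hl fun y => ?_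
      have h3 : bval D φ (Function.update v j y.1) = ⊤ := by
        apply ih
        · intro i hi
          rw [Function.update_of_ne (by omega)]
          exact h1 i (by omega)
        · intro i hi
          by_cases hij : i = j
          · subst hij; simpa using y.2
          · rw [Function.update_of_ne hij]
            exact h2 i (by omega)
      have h4 := (bval_congr_upd D φ v j).le (p := ⊤ ⊓ beq (v j) y.1) (x := y.1) (y := v j)
        (by rw [beq_comm]; exact inf_le_right) (by rw [h3]; exact le_top)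
      simpa using h4
  intro v hv
  let w : ℕ → Nm B := fun i => if i < bd φ then v i else x₀
  rw [bval_eq_of_lt_bd D φ v w fun i hi => by simp [w, hi]]
  apply key (bd φ) w
  · intro i hi; simp [w, hi, hv i]
  · intro i hi; simp [w, not_lt.2 hi, hx₀]

theorem sat_of_bval_top (U : Uf B) (hne : ∃ x, D x) (φ : Fm)
    (h : ∀ v : ℕ → Nm B, (∀ i, D (v i)) → bval D φ v = ⊤) (v : ℕ → Mod D U) :
    Sat (Mem U) φ v := by
  choose w hw using fun i => cls_surj U (v i)
  have : v = fun i => cls U (w i) := by funext i; exact (hw i).symm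
  rw [this, los U hne φ w, bval_top_of_forall φ hne h _ fun i => (w i).2]
  exact U.top

end quotient

end Pool.Agent.SymZF
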